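import Pool.Agent.Helper231.LC.Defs

set_option autoImplicit false
set_option maxRecDepth 100000

namespace Pool.Agent.Helper231.LC.Ac

/-- neighbours in `H` -/
def nbh (v : ℕ) : List ℕ := if v < 72 then [vt (mt (he v 0)), vt (mt (he v 1)), vt (mt (he v 2))] else []

/-- the used edges other than the one of half edge `h0` -/
def fF (F : ℕ → Bool) (h0 u v : ℕ) : Bool :=
  decide (u < 72) && (List.range 3).any (fun p => F (he u p) && (vt (mt (he u p)) == v) &&
    (he u p / 2 != h0 / 2))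

def visF (F : ℕ → Bool) (w : ℕ) : Bool := F (he w 0) || F (he w 1) || F (he w 2)

/-- the edge `u v` occurs in `P` -/
def pres (P : List (ℕ × ℕ)) (u v : ℕ) : Bool :=
  P.any (fun e => (e.1 == u && e.2 == v) || (e.1 == v && e.2 == u))

/-- connected through used processed edges -/
def Rch (f : ℕ → ℕ → Bool) (P : List (ℕ × ℕ)) (u v : ℕ) : Prop :=
  Relation.ReflTransGen (fun x y => pres P x y = true ∧ f x y = true) u v

theorem tabA : ∀ h < 216, vt h < 72 ∧ pt h < 3 ∧ he (vt h) (pt h) = h := by decide +kernel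
theorem tabB : ∀ v < 72, ∀ p < 3, he v p < 216 ∧ vt (he v p) = v ∧ pt (he v p) = p := by decide +kernel
theorem tabC : ∀ h < 216, mt (mt h) = h ∧ mt h < 216 ∧ mt h / 2 = h / 2 := by decide +kernel
theorem tabD : ∀ v < 72, ∀ p < 3, ∀ q < 3, vt (mt (he v p)) = vt (mt (he v q)) → p = q := by decide +kernel
theorem tabE : ∀ h < 216, vt (mt h) ≠ vt h := by decide +kernel

theorem half_eq (a b : ℕ) (h : a / 2 = b / 2) : a = b ∨ a = mt b := by
  unfold mt
  split_ifs <;> omega

theorem no_par (h h2 : ℕ) (hh : h < 216) (hh2 : h2 < 216) (h1 : vt h = vt h2)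
    (h3 : vt (mt h) = vt (mt h2)) : h = h2 := by
  obtain ⟨a1, a2, a3⟩ := tabA h hh
  obtain ⟨b1, b2, b3⟩ := tabA h2 hh2
  have h4 : pt h = pt h2 := by
    apply tabD (vt h) a1 (pt h) a2 (pt h2) b2
    have e2 : he (vt h) (pt h2) = h2 := by rw [h1]; exact b3
    rw [a3, e2]
    exact h3
  rw [← a3, ← b3, h1, h4]

theorem fF_iff (F : ℕ → Bool) (h0 u v : ℕ) : fF F h0 u v = true ↔
    ∃ h < 216, vt h = u ∧ vt (mt h) = v ∧ F h = true ∧ h / 2 ≠ h0 / 2 := by
  unfold fF
  simp only [Bool.and_eq_true, decide_eq_true_eq, List.any_eq_true, List.mem_range, beq_iff_eq,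
    bne_iff_ne]
  constructor
  · rintro ⟨hu, p, hp, ⟨h1, h2⟩, h3⟩
    obtain ⟨b1, b2, b3⟩ := tabB u hu p hp
    exact ⟨he u p, b1, b2, h2, h1, h3⟩
  · rintro ⟨h, hh, h1, h2, h3, h4⟩
    obtain ⟨a1, a2, a3⟩ := tabA h hh
    subst h1
    refine ⟨a1, pt h, a2, ⟨?_, ?_⟩, ?_⟩
    · rw [a3]; exact h3
    · rw [a3]; exact h2
    · rw [a3]; exact h4

theorem fF_val (F : ℕ → Bool) (h0 h : ℕ) (hh : h < 216) :
    fF F h0 (vt h) (vt (mt h)) = (F h && decide (h / 2 ≠ h0 / 2)) := by
  rw [Bool.eq_iff_iff, fF_iff]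
  simp only [Bool.and_eq_true, decide_eq_true_eq]
  constructor
  · rintro ⟨h', hh', h1, h2, h3, h4⟩
    have := no_par h' h hh' hh h1 h2
    subst this
    exact ⟨h3, h4⟩
  · rintro ⟨h3, h4⟩
    exact ⟨h, hh, rfl, rfl, h3, h4⟩

theorem cnt_val (F : ℕ → Bool) (h0 w : ℕ) (hw : w < 72) : (nbh w).countP (fF F h0 w) =
    (F (he w 0) && decide (he w 0 / 2 ≠ h0 / 2)).toNat + (F (he w 1) && decide (he w 1 / 2 ≠ h0 / 2)).toNat
      + (F (he w 2) && decide (he w 2 / 2 ≠ h0 / 2)).toNat := by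
  have key : ∀ p < 3, fF F h0 w (vt (mt (he w p))) = (F (he w p) && decide (he w p / 2 ≠ h0 / 2)) := by
    intro p hp
    obtain ⟨b1, b2, b3⟩ := tabB w hw p hp
    have h1 := fF_val F h0 (he w p) b1
    rwa [b2] at h1
  unfold nbh
  rw [if_pos hw]
  simp only [List.countP_cons, List.countP_nil, key 0 (by norm_num), key 1 (by norm_num),
    key 2 (by norm_num)]
  cases (F (he w 0) && decide (he w 0 / 2 ≠ h0 / 2)) <;>
    cases (F (he w 1) && decide (he w 1 / 2 ≠ h0 / 2)) <;>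
    cases (F (he w 2) && decide (he w 2 / 2 ≠ h0 / 2)) <;> rfl

theorem fF_symm (F : ℕ → Bool) (hm : ∀ h < 216, F (mt h) = F h)
    (hd : ∀ v < 72, (F (he v 0)).toNat + (F (he v 1)).toNat + (F (he v 2)).toNat = 0 ∨
      (F (he v 0)).toNat + (F (he v 1)).toNat + (F (he v 2)).toNat = 2) (h0 : ℕ) (h0lt : h0 < 216) :
    ∀ x y, fF F h0 x y = fF F h0 y x := by
  have key : ∀ x y, fF F h0 x y = true → fF F h0 y x = true := by
    intro x y h
    rw [fF_iff] at h ⊢
    obtain ⟨h, hh, h1, h2, h3, h4⟩ := h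
    obtain ⟨c1, c2, c3⟩ := tabC h hh
    exact ⟨mt h, c2, h2, by rw [c1]; exact h1, by rw [hm h hh]; exact h3, by rw [c3]; exact h4⟩
  intro x y
  rw [Bool.eq_iff_iff]
  exact ⟨key x y, key y x⟩

theorem fF_edge (F : ℕ → Bool) (hm : ∀ h < 216, F (mt h) = F h)
    (hd : ∀ v < 72, (F (he v 0)).toNat + (F (he v 1)).toNat + (F (he v 2)).toNat = 0 ∨
      (F (he v 0)).toNat + (F (he v 1)).toNat + (F (he v 2)).toNat = 2) (h0 : ℕ) (h0lt : h0 < 216)
    (h : ℕ) (hlt : h < 216) (hne : h / 2 ≠ h0 / 2) :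
    fF F h0 (vt h) (vt (mt h)) = F h := by
  rw [fF_val F h0 h hlt, decide_eq_true hne, Bool.and_true]

theorem fF_deg_le (F : ℕ → Bool) (hm : ∀ h < 216, F (mt h) = F h)
    (hd : ∀ v < 72, (F (he v 0)).toNat + (F (he v 1)).toNat + (F (he v 2)).toNat = 0 ∨
      (F (he v 0)).toNat + (F (he v 1)).toNat + (F (he v 2)).toNat = 2) (h0 : ℕ) (h0lt : h0 < 216) :
    ∀ w, (nbh w).countP (fF F h0 w) ≤ 2 := by
  intro w
  by_cases hw : w < 72
  · rw [cnt_val F h0 w hw]
    have hle : ∀ a b : Bool, (a && b).toNat ≤ a.toNat := by decide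
    have h1 := hle (F (he w 0)) (decide (he w 0 / 2 ≠ h0 / 2))
    have h2 := hle (F (he w 1)) (decide (he w 1 / 2 ≠ h0 / 2))
    have h3 := hle (F (he w 2)) (decide (he w 2 / 2 ≠ h0 / 2))
    rcases hd w hw with h | h <;> omega
  · unfold nbh
    rw [if_neg hw]
    simp

theorem cnt_one (F : ℕ → Bool)
    (hd : ∀ v < 72, (F (he v 0)).toNat + (F (he v 1)).toNat + (F (he v 2)).toNat = 0 ∨
      (F (he v 0)).toNat + (F (he v 1)).toNat + (F (he v 2)).toNat = 2) (h0 : ℕ)
    (g : ℕ) (hg : g < 216) (hFg : F g = true) (hgg : g / 2 = h0 / 2) :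
    (nbh (vt g)).countP (fF F h0 (vt g)) = 1 := by
  obtain ⟨a1, a2, a3⟩ := tabA g hg
  have key : ∀ p < 3, decide (he (vt g) p / 2 ≠ h0 / 2) = decide (p ≠ pt g) := by
    intro p hp
    obtain ⟨b1, b2, b3⟩ := tabB (vt g) a1 p hp
    rw [decide_eq_decide]
    constructor
    · intro h h'
      apply h
      rw [h', a3, hgg]
    · intro h h'
      rw [← hgg] at h'
      rcases half_eq _ _ h' with h2 | h2
      · apply h
        rw [← b3, h2]
      · have h3 := tabE g hg
        apply h3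
        rw [← h2, b2]
  rw [cnt_val F h0 (vt g) a1, key 0 (by norm_num), key 1 (by norm_num), key 2 (by norm_num)]
  have h5 := hd (vt g) a1
  have h6 : F (he (vt g) (pt g)) = true := by rw [a3]; exact hFg
  generalize pt g = p at a2 h6 ⊢
  revert h5 h6
  interval_cases p <;> cases F (he (vt g) 0) <;> cases F (he (vt g) 1) <;> cases F (he (vt g) 2) <;> simp

theorem fF_deg (F : ℕ → Bool) (hm : ∀ h < 216, F (mt h) = F h)
    (hd : ∀ v < 72, (F (he v 0)).toNat + (F (he v 1)).toNat + (F (he v 2)).toNat = 0 ∨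
      (F (he v 0)).toNat + (F (he v 1)).toNat + (F (he v 2)).toNat = 2) (h0 : ℕ) (h0lt : h0 < 216) (hF0 : F h0 = true)
    (w : ℕ) (hw : w < 72) : (nbh w).countP (fF F h0 w) =
      if w = vt h0 ∨ w = vt (mt h0) then 1 else if visF F w = true then 2 else 0 := by
  obtain ⟨c1, c2, c3⟩ := tabC h0 h0lt
  split_ifs with h1 h2
  · rcases h1 with h1 | h1
    · rw [h1]
      exact cnt_one F hd h0 h0 h0lt hF0 rfl
    · rw [h1]
      exact cnt_one F hd h0 (mt h0) c2 (by rw [hm h0 h0lt]; exact hF0) c3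
  · push Not at h1
    have key : ∀ p < 3, decide (he w p / 2 ≠ h0 / 2) = true := by
      intro p hp
      obtain ⟨b1, b2, b3⟩ := tabB w hw p hp
      rw [decide_eq_true_eq]
      intro h
      rcases half_eq _ _ h with h3 | h3
      · exact h1.1 (by rw [← h3, b2])
      · exact h1.2 (by rw [← h3, b2])
    rw [cnt_val F h0 w hw, key 0 (by norm_num), key 1 (by norm_num), key 2 (by norm_num)]
    simp only [Bool.and_true]
    unfold visF at h2
    rcases hd w hw with h | h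
    · exfalso
      revert h h2
      cases F (he w 0) <;> cases F (he w 1) <;> cases F (he w 2) <;> simp
    · exact h
  · push Not at h1
    have key : ∀ p < 3, decide (he w p / 2 ≠ h0 / 2) = true := by
      intro p hp
      obtain ⟨b1, b2, b3⟩ := tabB w hw p hp
      rw [decide_eq_true_eq]
      intro h
      rcases half_eq _ _ h with h3 | h3
      · exact h1.1 (by rw [← h3, b2])
      · exact h1.2 (by rw [← h3, b2])
    rw [cnt_val F h0 w hw, key 0 (by norm_num), key 1 (by norm_num), key 2 (by norm_num)]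
    simp only [Bool.and_true]
    unfold visF at h2
    revert h2
    cases F (he w 0) <;> cases F (he w 1) <;> cases F (he w 2) <;> simp


end Pool.Agent.Helper231.LC.Ac
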