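import Pool.Agent.Helper231.LC.Defs

set_option autoImplicit false
set_option maxRecDepth 100000

namespace Pool.Agent.Helper231.LC.Ad

/-- neighbours in `H` -/
def nbh (v : ℕ) : List ℕ := if v < 72 then [vt (mt (he v 0)), vt (mt (he v 1)), vt (mt (he v 2))] else []

/-- the used edges other than the one of half edge `h0` -/
def fF (F : ℕ → Bool) (h0 u v : ℕ) : Bool :=
  decide (u < 72) && (List.range 3).any (fun p => F (he u p) && (vt (mt (he u p)) == v) &&
    (he u p / 2 != h0 / 2))

def visF (F : ℕ → Bool) (w : ℕ) : Bool := F (he w 0) || F (he w 1) || F (he w 2)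

/-- the edge `u v` occurs in `P` -/
def pres (P : List (ℕ × ℕ)) (u v : ℕ) : Bool :=
  P.any (fun e => (e.1 == u && e.2 == v) || (e.1 == v && e.2 == u))

/-- connected through used processed edges -/
def Rch (f : ℕ → ℕ → Bool) (P : List (ℕ × ℕ)) (u v : ℕ) : Prop :=
  Relation.ReflTransGen (fun x y => pres P x y = true ∧ f x y = true) u v

theorem tab_he : ∀ u < 72, ∀ p < 3, he u p < 216 ∧ vt (he u p) = u ∧ vt (mt (he u p)) ≠ u := by
  decide +kernel

theorem fF_elim (F : ℕ → Bool) (h0 x y : ℕ) (h : fF F h0 x y = true) :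
    x < 72 ∧ ∃ p < 3, F (he x p) = true ∧ vt (mt (he x p)) = y := by
  unfold fF at h
  rw [Bool.and_eq_true, decide_eq_true_eq, List.any_eq_true] at h
  obtain ⟨h1, p, hp, h2⟩ := h
  rw [Bool.and_eq_true, Bool.and_eq_true, beq_iff_eq] at h2
  exact ⟨h1, p, List.mem_range.mp hp, h2.1.1, h2.1.2⟩

theorem fF_mem (F : ℕ → Bool) (h0 x y : ℕ) (h : fF F h0 x y = true) : y ∈ nbh x := by
  obtain ⟨hx, p, hp, _, hy⟩ := fF_elim F h0 x y h
  unfold nbh
  rw [if_pos hx]
  interval_cases p
  · subst hy; simp
  · subst hy; simp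
  · subst hy; simp

theorem count_ge (F : ℕ → Bool) (h0 x : ℕ) (S : Finset ℕ) (hS : ∀ y ∈ S, fF F h0 x y = true) :
    S.card ≤ (nbh x).countP (fF F h0 x) := by
  rw [List.countP_eq_length_filter]
  refine le_trans (Finset.card_le_card (t := ((nbh x).filter (fF F h0 x)).toFinset) ?_)
    (List.toFinset_card_le _)
  intro y hy
  rw [List.mem_toFinset, List.mem_filter]
  exact ⟨fF_mem F h0 x y (hS y hy), hS y hy⟩

theorem fF_acyc (F : ℕ → Bool) (hm : ∀ h < 216, F (mt h) = F h)
    (hd : ∀ v < 72, (F (he v 0)).toNat + (F (he v 1)).toNat + (F (he v 2)).toNat = 0 ∨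
      (F (he v 0)).toNat + (F (he v 1)).toNat + (F (he v 2)).toNat = 2)
    (hc : ∀ Z : ℕ → Bool, (∀ h < 216, F h = true → Z (vt h) = true → Z (vt (mt h)) = true) →
      (∃ h < 216, F h = true ∧ Z (vt h) = true) → ∀ h < 216, F h = true → Z (vt h) = true) (h0 : ℕ) (h0lt : h0 < 216) (hF0 : F h0 = true)
    (hsym : ∀ x y, fF F h0 x y = fF F h0 y x)
    (hedge : ∀ h < 216, h / 2 ≠ h0 / 2 → fF F h0 (vt h) (vt (mt h)) = F h)
    (hle : ∀ w, (nbh w).countP (fF F h0 w) ≤ 2)
    (hdeg : ∀ w < 72, (nbh w).countP (fF F h0 w) =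
      if w = vt h0 ∨ w = vt (mt h0) then 1 else if visF F w = true then 2 else 0) :
    ∀ (P : List (ℕ × ℕ)) (u v : ℕ), fF F h0 u v = true → pres P u v = false →
      ¬ Rch (fF F h0) P u v := by
  intro P u v huv hP hR
  classical
  have hune : u ≠ v := by
    intro h
    subst h
    obtain ⟨hu, p, hp, _, hy⟩ := fF_elim F h0 u u huv
    exact (tab_he u hu p hp).2.2 hy
  have hpsym : ∀ x y, pres P x y = pres P y x := by
    intro x y
    unfold pres
    congr 1
    funext e
    rw [Bool.or_comm]
  let G : SimpleGraph ℕ := SimpleGraph.fromRel (fun x y => pres P x y = true ∧ fF F h0 x y = true)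
  have hadj : ∀ x y, G.Adj x y → pres P x y = true ∧ fF F h0 x y = true := by
    intro x y h
    rw [SimpleGraph.fromRel_adj] at h
    rcases h.2 with h | h
    · exact h
    · rw [hpsym, hsym]; exact h
  have hreach' : ∀ c, Relation.ReflTransGen (fun x y => pres P x y = true ∧ fF F h0 x y = true) u c →
      G.Reachable u c := by
    intro c hc'
    induction hc' with
    | refl => exact SimpleGraph.Reachable.refl _
    | tail _ hbc ih =>
      rename_i b c _
      by_cases hbc' : b = c
      · subst hbc'; exact ih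
      · refine ih.trans (SimpleGraph.Adj.reachable ?_)
        rw [SimpleGraph.fromRel_adj]
        exact ⟨hbc', Or.inl hbc⟩
  have hreach : G.Reachable u v := hreach' v hR
  obtain ⟨p, hp⟩ := hreach.exists_isPath
  have hlen0 : p.length ≠ 0 := by
    intro h
    exact hune (SimpleGraph.Walk.eq_of_length_eq_zero h)
  have hlen1 : p.length ≠ 1 := by
    intro h
    have h1 := SimpleGraph.Walk.adj_of_length_eq_one h
    have h2 := (hadj _ _ h1).1
    rw [hP] at h2
    exact Bool.false_ne_true h2
  have hinj := hp.getVert_injOn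
  have hne : ∀ i j, i ≤ p.length → j ≤ p.length → i ≠ j → p.getVert i ≠ p.getVert j := by
    intro i j hi hj hij h
    exact hij (hinj (by simpa using hi) (by simpa using hj) h)
  have hstep : ∀ i, i < p.length → fF F h0 (p.getVert i) (p.getVert (i+1)) = true := by
    intro i hi
    exact (hadj _ _ (p.adj_getVert_succ hi)).2
  -- two neighbours inside
  have htwo : ∀ i, i ≤ p.length → ∃ a b, a ≠ b ∧ fF F h0 (p.getVert i) a = true ∧
      fF F h0 (p.getVert i) b = true ∧ (∃ j ≤ p.length, p.getVert j = a) ∧
      (∃ j ≤ p.length, p.getVert j = b) := by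
    intro i hi
    by_cases hi0 : i = 0
    · subst hi0
      refine ⟨p.getVert 1, p.getVert p.length, hne _ _ (by omega) le_rfl (by omega), ?_, ?_,
        ⟨1, by omega, rfl⟩, ⟨p.length, le_rfl, rfl⟩⟩
      · exact hstep 0 (by omega)
      · rw [SimpleGraph.Walk.getVert_zero, SimpleGraph.Walk.getVert_length]
        exact huv
    · by_cases hik : i = p.length
      · refine ⟨p.getVert 0, p.getVert (p.length - 1), hne _ _ (by omega) (by omega) (by omega),
          ?_, ?_, ⟨0, by omega, rfl⟩, ⟨p.length - 1, by omega, rfl⟩⟩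
        · rw [hik, SimpleGraph.Walk.getVert_zero, SimpleGraph.Walk.getVert_length, hsym]
          exact huv
        · have h := hstep (p.length - 1) (by omega)
          have e : p.length - 1 + 1 = p.length := by omega
          rw [e] at h
          rw [hik, hsym]
          exact h
      · refine ⟨p.getVert (i+1), p.getVert (i-1), hne _ _ (by omega) (by omega) (by omega),
          ?_, ?_, ⟨i+1, by omega, rfl⟩, ⟨i-1, by omega, rfl⟩⟩
        · exact hstep i (by omega)
        · have h := hstep (i-1) (by omega)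
          have e : i - 1 + 1 = i := by omega
          rw [e] at h
          rw [hsym]
          exact h
  -- neighbours of the path lie on the path
  have hclosed : ∀ i, i ≤ p.length → ∀ y, fF F h0 (p.getVert i) y = true →
      ∃ j ≤ p.length, p.getVert j = y := by
    intro i hi y hy
    by_contra hno
    obtain ⟨a, b, hab, ha, hb, ⟨ja, hja, hja'⟩, ⟨jb, hjb, hjb'⟩⟩ := htwo i hi
    have hya : y ≠ a := by
      intro h; exact hno ⟨ja, hja, hja'.trans h.symm⟩
    have hyb : y ≠ b := by
      intro h; exact hno ⟨jb, hjb, hjb'.trans h.symm⟩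
    have h3 := count_ge F h0 (p.getVert i) {y, a, b} (by
      intro z hz
      simp only [Finset.mem_insert, Finset.mem_singleton] at hz
      rcases hz with rfl | rfl | rfl
      · exact hy
      · exact ha
      · exact hb)
    have hc3 : ({y, a, b} : Finset ℕ).card = 3 := by
      rw [Finset.card_insert_of_notMem, Finset.card_insert_of_notMem, Finset.card_singleton]
      · simpa using hab
      · simp only [Finset.mem_insert, Finset.mem_singleton, not_or]
        exact ⟨hya, hyb⟩
    have := hle (p.getVert i)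
    omega
  have hends : ∀ i, i ≤ p.length → p.getVert i ≠ vt h0 ∧ p.getVert i ≠ vt (mt h0) := by
    intro i hi
    obtain ⟨a, b, hab, ha, hb, _, _⟩ := htwo i hi
    have h2 := count_ge F h0 (p.getVert i) {a, b} (by
      intro z hz
      simp only [Finset.mem_insert, Finset.mem_singleton] at hz
      rcases hz with rfl | rfl
      · exact ha
      · exact hb)
    rw [Finset.card_pair hab] at h2
    have hlt := (fF_elim F h0 _ _ ha).1
    have hd2 := hdeg _ hlt
    constructor
    · intro h
      rw [if_pos (Or.inl h)] at hd2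
      omega
    · intro h
      rw [if_pos (Or.inr h)] at hd2
      omega
  let Z : ℕ → Bool := fun x => decide (∃ j ≤ p.length, p.getVert j = x)
  have hZ : ∀ x, Z x = true ↔ ∃ j ≤ p.length, p.getVert j = x := by
    intro x
    exact decide_eq_true_iff
  have hfin := hc Z (by
    intro h hh hFh hZh
    rw [hZ] at hZh ⊢
    obtain ⟨j, hj, hjx⟩ := hZh
    have hnd : h / 2 ≠ h0 / 2 := by
      intro hd2
      have hcase : h = h0 ∨ h = mt h0 := by
        unfold mt
        split_ifs with hpar
        · omega
        · omega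
      have he2 := hends j hj
      rw [hjx] at he2
      rcases hcase with h' | h'
      · exact he2.1 (by rw [h'])
      · exact he2.2 (by rw [h'])
    have := hedge h hh hnd
    rw [hFh] at this
    rw [← hjx] at this
    exact hclosed j hj _ this) (by
    obtain ⟨hu72, q, hq, hFq, _⟩ := fF_elim F h0 u v huv
    obtain ⟨t1, t2, _⟩ := tab_he u hu72 q hq
    refine ⟨he u q, t1, hFq, ?_⟩
    rw [hZ, t2]
    exact ⟨0, by omega, SimpleGraph.Walk.getVert_zero p⟩) h0 h0lt hF0
  rw [hZ] at hfin
  obtain ⟨j, hj, hjx⟩ := hfin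
  exact (hends j hj).1 hjx


end Pool.Agent.Helper231.LC.Ad
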