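import Pool.Agent.Helper231.LC.Defs

set_option autoImplicit false
set_option maxRecDepth 100000

namespace Pool.Agent.Helper231.LC.Cs

/-- neighbours in `H` -/
def nbh (v : ℕ) : List ℕ := if v < 72 then [vt (mt (he v 0)), vt (mt (he v 1)), vt (mt (he v 2))] else []

/-- the used edges other than the one of half edge `h0` -/
def fF (F : ℕ → Bool) (h0 u v : ℕ) : Bool :=
  decide (u < 72) && (List.range 3).any (fun p => F (he u p) && (vt (mt (he u p)) == v) &&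
    (he u p / 2 != h0 / 2))

def visF (F : ℕ → Bool) (w : ℕ) : Bool := F (he w 0) || F (he w 1) || F (he w 2)
/-- the program for the block `A` (vertices 12..41 and the six vertices 0..5) -/
def PA : List (ℕ × ℕ × ℕ × ℕ) := [(0,44,0,0),(0,54,0,0),(0,52,0,0),(1,32,8,0),(0,36,0,0),(0,56,0,0),(0,58,0,0),(1,34,8,0),(0,46,0,0),(1,33,8,0),(0,42,0,0),(0,48,0,0),(0,50,0,0),(1,31,8,0),(0,38,0,0),(1,35,8,0),(0,40,0,0),(1,30,8,0),(0,30,0,0),(0,16,0,0),(1,17,8,0),(0,70,0,0),(0,4,0,0),(1,20,8,0),(0,24,0,0),(0,180,3,0),(1,24,8,0),(0,10,0,0),(0,22,0,0),(1,14,8,0),(0,64,0,0),(1,23,8,0),(0,186,3,0),(1,27,8,0),(0,18,0,0),(0,32,0,0),(1,12,8,0),(0,188,3,0),(0,0,0,0),(1,28,8,0),(0,12,0,0),(0,6,0,0),(0,26,0,0),(1,15,8,0),(0,182,3,0),(1,25,8,0),(0,66,0,0),(1,18,8,0),(0,76,0,0),(0,78,0,0),(1,39,8,0),(0,80,0,0),(0,60,0,0),(1,21,8,0),(0,82,0,0),(1,41,8,0),(0,72,0,0),(1,36,8,0),(0,74,0,0),(1,38,8,0),(0,14,0,0),(0,68,0,0),(1,40,8,0),(0,2,0,0),(1,19,8,0),(0,34,0,0),(0,190,3,0),(1,29,8,0),(0,20,0,0),(1,13,8,0),(0,62,0,0),(1,37,8,0),(0,8,0,0),(1,22,8,0),(0,28,0,0),(1,16,8,0),(0,184,3,0),(1,26,8,0)]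
/-- the program for the block `B` (vertices 42..71 and the six vertices 6..11) -/
def PB : List (ℕ × ℕ × ℕ × ℕ) := [(0,128,0,0),(0,138,0,0),(0,136,0,0),(1,62,8,0),(0,120,0,0),(0,140,0,0),(0,142,0,0),(1,64,8,0),(0,130,0,0),(1,63,8,0),(0,126,0,0),(0,132,0,0),(0,134,0,0),(1,61,8,0),(0,122,0,0),(1,65,8,0),(0,124,0,0),(1,60,8,0),(0,114,0,0),(0,100,0,0),(1,47,8,0),(0,154,0,0),(0,88,0,0),(1,50,8,0),(0,108,0,0),(0,192,3,0),(1,54,8,0),(0,94,0,0),(0,106,0,0),(1,44,8,0),(0,148,0,0),(1,53,8,0),(0,198,3,0),(1,57,8,0),(0,102,0,0),(0,116,0,0),(1,42,8,0),(0,200,3,0),(0,84,0,0),(1,58,8,0),(0,96,0,0),(0,90,0,0),(0,110,0,0),(1,45,8,0),(0,194,3,0),(1,55,8,0),(0,150,0,0),(1,48,8,0),(0,160,0,0),(0,162,0,0),(1,69,8,0),(0,164,0,0),(0,144,0,0),(1,51,8,0),(0,166,0,0),(1,71,8,0),(0,156,0,0),(1,66,8,0),(0,158,0,0),(1,68,8,0),(0,98,0,0),(0,152,0,0),(1,70,8,0),(0,86,0,0),(1,49,8,0),(0,118,0,0),(0,202,3,0),(1,59,8,0),(0,104,0,0),(1,43,8,0),(0,146,0,0),(1,67,8,0),(0,92,0,0),(1,52,8,0),(0,112,0,0),(1,46,8,0),(0,196,3,0),(1,56,8,0)]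
/-- the program for the twelve middle vertices, the edge of half edge `204 + 2*j0` left out -/
def PF (j0 : ℕ) : List (ℕ × ℕ × ℕ × ℕ) :=
  [(j0 + 1) % 3, (j0 + 2) % 3, j0 % 3].flatMap (fun i =>
    [(0, 168 + 2 * i, 0, 2)] ++
    (if i = j0 then [] else [(0, 204 + 2 * i, 2, 0), (1, i, 6, 0)]) ++
    (if i + 3 = j0 then [] else [(0, 210 + 2 * i, 2, 0), (1, i + 3, 6, 0)]) ++
    [(0, 174 + 2 * i, 0, 2)] ++
    (if i = j0 then [] else [(1, 6 + i, 6, 0)]) ++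
    (if i + 3 = j0 then [] else [(1, 9 + i, 6, 0)]))


def csth (F : ℕ → Bool) (vis : ℕ → Bool) : List (ℕ × ℕ × ℕ × ℕ) → ℕ
  | [] => 0
  | (0, h, cu, cn) :: L => (if F h = true then cu else cn) + csth F vis L
  | (_ + 1, w, uw, _) :: L => (if vis w = true then 0 else uw) + csth F vis L

def qcost (F : ℕ → Bool) : ℕ :=
  (∑ w ∈ Finset.range 12, (if visF F w = true then 0 else 6)) +
  (∑ j ∈ Finset.range 6, (if F (204 + 2 * j) = true then 2 else 0)) +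
  (∑ j ∈ Finset.range 6, (if F (168 + 2 * j) = true then 0 else 2))

def acost (F : ℕ → Bool) : ℕ :=
  (∑ w ∈ Finset.range 30, (if visF F (12 + w) = true then 0 else 8)) +
  (∑ j ∈ Finset.range 6, (if F (180 + 2 * j) = true then 3 else 0))

def bcost (F : ℕ → Bool) : ℕ :=
  (∑ w ∈ Finset.range 30, (if visF F (42 + w) = true then 0 else 8)) +
  (∑ j ∈ Finset.range 6, (if F (192 + 2 * j) = true then 3 else 0))

theorem csth_A (F : ℕ → Bool) : csth F (visF F) PA = acost F := by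
  unfold acost
  generalize visF F = vis
  simp only [PA, csth, ite_self, zero_add, Finset.sum_range_succ, Finset.sum_range_zero,
    Nat.reduceAdd, Nat.reduceMul, add_zero]
  ring

theorem csth_B (F : ℕ → Bool) : csth F (visF F) PB = bcost F := by
  unfold bcost
  generalize visF F = vis
  simp only [PB, csth, ite_self, zero_add, Finset.sum_range_succ, Finset.sum_range_zero,
    Nat.reduceAdd, Nat.reduceMul, add_zero]
  ring

theorem csth_F (F : ℕ → Bool) (j : ℕ) (hj : j < 6) (h1 : F (204 + 2 * j) = true)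
    (h2 : visF F j = true) (h3 : visF F (6 + j) = true) :
    csth F (visF F) (PF j) + 2 = qcost F := by
  unfold qcost
  generalize visF F = vis at h2 h3 ⊢
  interval_cases j <;>
  simp only [PF, Nat.reduceAdd, Nat.reduceMul, Nat.reduceMod, Nat.reduceEqDiff, List.flatMap_cons,
    List.flatMap_nil, if_true, if_false, List.nil_append, List.append_nil, List.cons_append,
    csth, zero_add, Finset.sum_range_succ, Finset.sum_range_zero, add_zero, reduceCtorEq,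
    OfNat.ofNat_ne_zero, OfNat.ofNat_ne_one, one_ne_zero, zero_ne_one, mul_zero, mul_one] at h1 h2 h3 ⊢ <;>
  simp only [h1, h2, h3, if_true] <;> ring


end Pool.Agent.Helper231.LC.Cs
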