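import Mathlib

set_option autoImplicit false
set_option maxRecDepth 100000

namespace Pool.Agent.Helper231.LC.Cr


open Classical in
/-- The edge relation of a cycle. -/
theorem cyc_rel {V : Type} [Fintype V] (G : SimpleGraph V) (w : V) (d : G.Walk w w)
    (hd : d.IsCycle) :
    ∃ (f : V → V → Bool) (S : Finset V),
      (∀ x y, f x y = f y x) ∧ (∀ x y, f x y = true → G.Adj x y) ∧
      S.card = d.length ∧ S.Nonempty ∧
      (∀ x ∈ S, (Finset.univ.filter (fun y => f x y = true)).card = 2) ∧
      (∀ x, x ∉ S → ∀ y, f x y = false) ∧
      (∀ X : V → Prop, (∃ x ∈ S, X x) → (∀ x y, X x → f x y = true → X y) → ∀ x ∈ S, X x) := by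
  classical
  refine ⟨fun x y => decide (d.toSubgraph.Adj x y), d.support.toFinset, ?_, ?_, ?_, ?_, ?_, ?_, ?_⟩
  · intro x y
    simp [d.toSubgraph.adj_comm]
  · intro x y h
    exact d.toSubgraph.adj_sub (by simpa using h)
  · have h1 : d.support = w :: d.support.tail := by
      rw [← SimpleGraph.Walk.cons_tail_support]
      simp
    have h2 : w ∈ d.support.tail := by
      apply SimpleGraph.Walk.end_mem_tail_support
      exact hd.not_nil
    have h3 : d.support.toFinset = d.support.tail.toFinset := by
      rw [h1]
      ext z
      simp only [List.toFinset_cons, List.tail_cons, Finset.mem_insert, List.mem_toFinset]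
      constructor
      · rintro (h | h)
        · rw [h]; exact h2
        · exact h
      · intro h; exact Or.inr h
    rw [h3, List.toFinset_card_of_nodup hd.support_nodup, List.length_tail,
      SimpleGraph.Walk.length_support]
    simp
  · exact ⟨w, by simp⟩
  · intro x hx
    have hx' : x ∈ d.support := by simpa using hx
    have h := hd.ncard_neighborSet_toSubgraph_eq_two hx'
    rw [← h, ← Set.ncard_coe_finset]
    congr 1
    ext y
    simp [SimpleGraph.Subgraph.mem_neighborSet]
  · intro x hx y
    simp only [decide_eq_false_iff_not]
    intro h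
    apply hx
    have := d.toSubgraph.edge_vert h
    simpa using this
  · intro X ⟨x0, hx0, hX0⟩ hstep x hx
    have hx0' : x0 ∈ d.toSubgraph.verts := by simpa using hx0
    have hx' : x ∈ d.toSubgraph.verts := by simpa using hx
    obtain ⟨p⟩ := d.toSubgraph_connected.preconnected ⟨x0, hx0'⟩ ⟨x, hx'⟩
    have key : ∀ (a b : d.toSubgraph.verts) (q : d.toSubgraph.coe.Walk a b), X a.1 → X b.1 := by
      intro a b q
      induction q with
      | nil => exact id
      | cons h q ih =>
        intro ha
        apply ih
        apply hstep _ _ ha
        simpa using h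
    exact key _ _ p hX0


end Pool.Agent.Helper231.LC.Cr
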