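import Mathlib

set_option autoImplicit false
set_option maxRecDepth 100000

namespace Pool.Agent.Helper231.LC.Gd


/-- incident bits of the gadget vertices: bits 0..11 gadget edges
`01,12,23,34,04,05,16,27,38,57,68,58`, bits 12,13,14 the three ports at `4,6,7`. -/
def INC : List (ℕ × ℕ × ℕ) := [(0,4,5),(0,1,6),(1,2,7),(2,3,8),(3,4,12),(5,9,11),(6,10,13),(7,9,14),(8,10,11)]
/-- ends of the gadget edges -/
def GE : List (ℕ × ℕ) := [(0,1),(1,2),(2,3),(3,4),(0,4),(0,5),(1,6),(2,7),(3,8),(5,7),(6,8),(5,8)]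
/-- number of used bits at gadget vertex `i` -/
def dgi (b : ℕ → Bool) (i : ℕ) : ℕ :=
  (b (INC.getD i (0,0,0)).1).toNat + (b (INC.getD i (0,0,0)).2.1).toNat + (b (INC.getD i (0,0,0)).2.2).toNat

/-- the fifteen values from the six free ones -/
def lst15 (a0 a1 a2 a3 a4 a9 : Bool) : List Bool :=
  let a5 := xor a0 a4
  let a6 := xor a0 a1
  let a7 := xor a1 a2
  let a8 := xor a2 a3
  let a11 := xor a5 a9
  let a10 := xor a8 a11
  [a0, a1, a2, a3, a4, a5, a6, a7, a8, a9, a10, a11, xor a3 a4, xor a6 a10, xor a7 a9]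

/-- the function of a list -/
def fnl (l : List Bool) (k : ℕ) : Bool := l.getD k false

theorem gl_fin : ∀ a0 a1 a2 a3 a4 a9 : Bool,
      (((fnl (lst15 a0 a1 a2 a3 a4 a9) 12).toNat + (fnl (lst15 a0 a1 a2 a3 a4 a9) 13).toNat + (fnl (lst15 a0 a1 a2 a3 a4 a9) 14).toNat = 0) ∨
       ((fnl (lst15 a0 a1 a2 a3 a4 a9) 12).toNat + (fnl (lst15 a0 a1 a2 a3 a4 a9) 13).toNat + (fnl (lst15 a0 a1 a2 a3 a4 a9) 14).toNat = 2 ∧
        ((∃ i < 9, dgi (fnl (lst15 a0 a1 a2 a3 a4 a9)) i = 0) ∨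
         ∃ m ∈ [313, 334, 428, 355, 167, 31], (∃ i < 9, Nat.testBit m i = true) ∧
           (∀ k < 12, fnl (lst15 a0 a1 a2 a3 a4 a9) k = true → Nat.testBit m (GE.getD k (0,0)).1 = Nat.testBit m (GE.getD k (0,0)).2) ∧
           (fnl (lst15 a0 a1 a2 a3 a4 a9) 12 = true → Nat.testBit m 4 = false) ∧
           (fnl (lst15 a0 a1 a2 a3 a4 a9) 13 = true → Nat.testBit m 6 = false) ∧
           (fnl (lst15 a0 a1 a2 a3 a4 a9) 14 = true → Nat.testBit m 7 = false)))) := by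
  decide +kernel

theorem xor3 : ∀ x y z : Bool, (x.toNat + y.toNat + z.toNat = 0 ∨ x.toNat + y.toNat + z.toNat = 2) →
    z = xor x y := by decide
theorem xor3b : ∀ x y z : Bool, (x.toNat + y.toNat + z.toNat = 0 ∨ x.toNat + y.toNat + z.toNat = 2) →
    y = xor x z := by decide

theorem gl_agree (b : ℕ → Bool) (h : ∀ i < 9, dgi b i = 0 ∨ dgi b i = 2) :
    ∀ k < 15, b k = fnl (lst15 (b 0) (b 1) (b 2) (b 3) (b 4) (b 9)) k := by
  have h0 : b 5 = xor (b 0) (b 4) := xor3 _ _ _ (h 0 (by norm_num))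
  have h1 : b 6 = xor (b 0) (b 1) := xor3 _ _ _ (h 1 (by norm_num))
  have h2 : b 7 = xor (b 1) (b 2) := xor3 _ _ _ (h 2 (by norm_num))
  have h3 : b 8 = xor (b 2) (b 3) := xor3 _ _ _ (h 3 (by norm_num))
  have h4 : b 12 = xor (b 3) (b 4) := xor3 _ _ _ (h 4 (by norm_num))
  have h5 : b 11 = xor (b 5) (b 9) := xor3 _ _ _ (h 5 (by norm_num))
  have h8 : b 10 = xor (b 8) (b 11) := xor3b _ _ _ (h 8 (by norm_num))
  have h6 : b 13 = xor (b 6) (b 10) := xor3 _ _ _ (h 6 (by norm_num))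
  have h7 : b 14 = xor (b 7) (b 9) := xor3 _ _ _ (h 7 (by norm_num))
  intro k hk
  interval_cases k
  · rfl
  · rfl
  · rfl
  · rfl
  · rfl
  · exact h0
  · exact h1
  · exact h2
  · exact h3
  · rfl
  · rw [h8, h3, h5, h0]; rfl
  · rw [h5, h0]; rfl
  · exact h4
  · rw [h6, h8, h3, h5, h0, h1]; rfl
  · rw [h7, h2]; rfl

theorem gl_dgi (b c : ℕ → Bool) (h : ∀ k < 15, b k = c k) (i : ℕ) (hi : i < 9) : dgi b i = dgi c i := by
  have h1 : (INC.getD i (0,0,0)).1 < 15 ∧ (INC.getD i (0,0,0)).2.1 < 15 ∧ (INC.getD i (0,0,0)).2.2 < 15 := by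
    revert i; decide
  unfold dgi
  rw [h _ h1.1, h _ h1.2.1, h _ h1.2.2]

theorem gadget_local : ∀ b : ℕ → Bool, (∀ i < 9, dgi b i = 0 ∨ dgi b i = 2) →
      ((b 12).toNat + (b 13).toNat + (b 14).toNat = 0 ∨
       ((b 12).toNat + (b 13).toNat + (b 14).toNat = 2 ∧
        ((∃ i < 9, dgi b i = 0) ∨
         ∃ X : ℕ → Bool, (∃ i < 9, X i = true) ∧
           (∀ k < 12, b k = true → X (GE.getD k (0,0)).1 = X (GE.getD k (0,0)).2) ∧
           (b 12 = true → X 4 = false) ∧ (b 13 = true → X 6 = false) ∧ (b 14 = true → X 7 = false)))) := by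
  intro b h
  have hA := gl_agree b h
  have hD := gl_dgi b _ hA
  rcases gl_fin (b 0) (b 1) (b 2) (b 3) (b 4) (b 9) with h1 | ⟨h1, h2⟩
  · left
    rw [hA 12 (by norm_num), hA 13 (by norm_num), hA 14 (by norm_num)]
    exact h1
  · right
    refine ⟨?_, ?_⟩
    · rw [hA 12 (by norm_num), hA 13 (by norm_num), hA 14 (by norm_num)]
      exact h1
    · rcases h2 with ⟨i, hi, h2⟩ | ⟨m, -, hm1, hm2, hm3, hm4, hm5⟩
      · left
        exact ⟨i, hi, by rw [hD i hi]; exact h2⟩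
      · right
        refine ⟨fun v => Nat.testBit m v, hm1, ?_, ?_, ?_, ?_⟩
        · intro k hk hb
          rw [hA k (by omega)] at hb
          exact hm2 k hk hb
        · intro hb
          rw [hA 12 (by norm_num)] at hb
          exact hm3 hb
        · intro hb
          rw [hA 13 (by norm_num)] at hb
          exact hm4 hb
        · intro hb
          rw [hA 14 (by norm_num)] at hb
          exact hm5 hb


end Pool.Agent.Helper231.LC.Gd
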