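import Pool.Agent.Helper231.LC.Defs

set_option autoImplicit false
set_option maxRecDepth 100000

namespace Pool.Agent.Helper231.LC.Nc

/-- neighbours in `H` -/
def nbh (v : ℕ) : List ℕ := if v < 72 then [vt (mt (he v 0)), vt (mt (he v 1)), vt (mt (he v 2))] else []

/-- the used edges other than the one of half edge `h0` -/
def fF (F : ℕ → Bool) (h0 u v : ℕ) : Bool :=
  decide (u < 72) && (List.range 3).any (fun p => F (he u p) && (vt (mt (he u p)) == v) &&
    (he u p / 2 != h0 / 2))

def visF (F : ℕ → Bool) (w : ℕ) : Bool := F (he w 0) || F (he w 1) || F (he w 2)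

/-- no column is a four-cycle -/
def NoCol (F : ℕ → Bool) : Prop := ∀ i < 3, ¬ (F (168 + 2 * i) = true ∧ F (174 + 2 * i) = true ∧
  F (204 + 2 * i) = true ∧ F (210 + 2 * i) = true)

def noColZ (i v : ℕ) : Bool := decide (v = i ∨ v = i + 3 ∨ v = 6 + i ∨ v = 9 + i)

theorem noCol_f1 : ∀ i < 3, ∀ h < 216, noColZ i (vt h) = true →
    noColZ i (vt (mt h)) = true ∨ h = 181 + 2 * i ∨ h = 187 + 2 * i ∨ h = 193 + 2 * i ∨
      h = 199 + 2 * i := by decide

theorem noCol_f2 : ∀ i < 3, he i 0 = 168 + 2 * i ∧ he i 1 = 181 + 2 * i ∧ he i 2 = 204 + 2 * i ∧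
    he (i + 3) 0 = 169 + 2 * i ∧ he (i + 3) 1 = 187 + 2 * i ∧ he (i + 3) 2 = 210 + 2 * i ∧
    he (6 + i) 0 = 174 + 2 * i ∧ he (6 + i) 1 = 193 + 2 * i ∧ he (6 + i) 2 = 205 + 2 * i ∧
    he (9 + i) 0 = 175 + 2 * i ∧ he (9 + i) 1 = 199 + 2 * i ∧ he (9 + i) 2 = 211 + 2 * i := by
  decide

theorem noCol_f3 : ∀ i < 3, mt (168 + 2 * i) = 169 + 2 * i ∧ mt (174 + 2 * i) = 175 + 2 * i ∧
    mt (204 + 2 * i) = 205 + 2 * i ∧ mt (210 + 2 * i) = 211 + 2 * i := by
  decide

theorem noCol_f4 : ∀ i < 3, ∀ w < 30, ∀ p < 3, he (12 + w) p < 216 ∧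
    noColZ i (vt (he (12 + w) p)) = false := by decide

theorem noCol_f5 : ∀ i < 3, noColZ i (vt (168 + 2 * i)) = true := by decide

theorem noCol (F : ℕ → Bool) (hm : ∀ h < 216, F (mt h) = F h)
    (hd : ∀ v < 72, (F (he v 0)).toNat + (F (he v 1)).toNat + (F (he v 2)).toNat = 0 ∨
      (F (he v 0)).toNat + (F (he v 1)).toNat + (F (he v 2)).toNat = 2)
    (hc : ∀ Z : ℕ → Bool, (∀ h < 216, F h = true → Z (vt h) = true → Z (vt (mt h)) = true) →
      (∃ h < 216, F h = true ∧ Z (vt h) = true) → ∀ h < 216, F h = true → Z (vt h) = true)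
    (hA : ∃ w < 30, visF F (12 + w) = true) : NoCol F := by
  rintro i hi ⟨h1, h2, h3, h4⟩
  obtain ⟨m1, m2, m3, m4⟩ := noCol_f3 i hi
  have g1 : F (169 + 2 * i) = true := by rw [← m1, hm _ (by omega), h1]
  have g2 : F (175 + 2 * i) = true := by rw [← m2, hm _ (by omega), h2]
  have g3 : F (205 + 2 * i) = true := by rw [← m3, hm _ (by omega), h3]
  have g4 : F (211 + 2 * i) = true := by rw [← m4, hm _ (by omega), h4]
  obtain ⟨a1, a2, a3, b1, b2, b3, c1, c2, c3, d1, d2, d3⟩ := noCol_f2 i hi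
  have e1 : F (181 + 2 * i) = false := by
    have := hd i (by omega)
    rw [a1, a2, a3, h1, h3] at this
    revert this
    cases F (181 + 2 * i) <;> simp
  have e2 : F (187 + 2 * i) = false := by
    have := hd (i + 3) (by omega)
    rw [b1, b2, b3, g1, h4] at this
    revert this
    cases F (187 + 2 * i) <;> simp
  have e3 : F (193 + 2 * i) = false := by
    have := hd (6 + i) (by omega)
    rw [c1, c2, c3, h2, g3] at this
    revert this
    cases F (193 + 2 * i) <;> simp
  have e4 : F (199 + 2 * i) = false := by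
    have := hd (9 + i) (by omega)
    rw [d1, d2, d3, g2, g4] at this
    revert this
    cases F (199 + 2 * i) <;> simp
  have hall := hc (noColZ i) (by
    intro h hh hF hZ
    rcases noCol_f1 i hi h hh hZ with k | k | k | k | k
    · exact k
    · rw [k, e1] at hF; exact absurd hF (by decide)
    · rw [k, e2] at hF; exact absurd hF (by decide)
    · rw [k, e3] at hF; exact absurd hF (by decide)
    · rw [k, e4] at hF; exact absurd hF (by decide))
    ⟨168 + 2 * i, by omega, h1, noCol_f5 i hi⟩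
  obtain ⟨w, hw, hvis⟩ := hA
  unfold visF at hvis
  have key : ∀ p < 3, F (he (12 + w) p) = false := by
    intro p hp
    obtain ⟨q1, q2⟩ := noCol_f4 i hi w hw p hp
    by_contra hne
    have hF : F (he (12 + w) p) = true := by
      cases hh : F (he (12 + w) p)
      · exact absurd hh hne
      · rfl
    have := hall _ q1 hF
    rw [q2] at this
    exact absurd this (by decide)
  rw [key 0 (by omega), key 1 (by omega), key 2 (by omega)] at hvis
  exact absurd hvis (by decide)


end Pool.Agent.Helper231.LC.Nc
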