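import Pool.Agent.Helper231.LC.Defs

set_option autoImplicit false
set_option maxRecDepth 100000

namespace Pool.Agent.Helper231.LC.Up

/-- incident bits of the gadget vertices: bits 0..11 gadget edges
`01,12,23,34,04,05,16,27,38,57,68,58`, bits 12,13,14 the three ports at `4,6,7`. -/
def INC : List (ℕ × ℕ × ℕ) := [(0,4,5),(0,1,6),(1,2,7),(2,3,8),(3,4,12),(5,9,11),(6,10,13),(7,9,14),(8,10,11)]
/-- ends of the gadget edges -/
def GE : List (ℕ × ℕ) := [(0,1),(1,2),(2,3),(3,4),(0,4),(0,5),(1,6),(2,7),(3,8),(5,7),(6,8),(5,8)]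
/-- number of used bits at gadget vertex `i` -/
def dgi (b : ℕ → Bool) (i : ℕ) : ℕ :=
  (b (INC.getD i (0,0,0)).1).toNat + (b (INC.getD i (0,0,0)).2.1).toNat + (b (INC.getD i (0,0,0)).2.2).toNat

/-- Statement of the local lemma on the gadget (proved elsewhere). -/
def GadgetLocal : Prop := ∀ b : ℕ → Bool, (∀ i < 9, dgi b i = 0 ∨ dgi b i = 2) →
      ((b 12).toNat + (b 13).toNat + (b 14).toNat = 0 ∨
       ((b 12).toNat + (b 13).toNat + (b 14).toNat = 2 ∧
        ((∃ i < 9, dgi b i = 0) ∨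
         ∃ X : ℕ → Bool, (∃ i < 9, X i = true) ∧
           (∀ k < 12, b k = true → X (GE.getD k (0,0)).1 = X (GE.getD k (0,0)).2) ∧
           (b 12 = true → X 4 = false) ∧ (b 13 = true → X 6 = false) ∧ (b 14 = true → X 7 = false))))
/-- Statement of the bound for `H` (proved elsewhere). -/
def HBound : Prop := ∀ (F : ℕ → Bool) (_ : ∀ h < 216, F (mt h) = F h)
    (_ : ∀ v < 72, (F (he v 0)).toNat + (F (he v 1)).toNat + (F (he v 2)).toNat = 0 ∨
      (F (he v 0)).toNat + (F (he v 1)).toNat + (F (he v 2)).toNat = 2)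
    (_ : ∀ Z : ℕ → Bool, (∀ h < 216, F h = true → Z (vt h) = true → Z (vt (mt h)) = true) →
      (∃ h < 216, F h = true ∧ Z (vt h) = true) → ∀ h < 216, F h = true → Z (vt h) = true),
    ∑ h ∈ Finset.range 216, (if F h = true then wt h else 0) ≤ 260
/-- Statement of the edge relation of a cycle (proved elsewhere). -/
def CycRel : Prop := ∀ (w : V) (d : G.Walk w w), d.IsCycle →
      ∃ (f : V → V → Bool) (S : Finset V),
      (∀ x y, f x y = f y x) ∧ (∀ x y, f x y = true → G.Adj x y) ∧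
      S.card = d.length ∧ S.Nonempty ∧
      (∀ x ∈ S, (Finset.univ.filter (fun y => f x y = true)).card = 2) ∧
      (∀ x, x ∉ S → ∀ y, f x y = false) ∧
      (∀ X : V → Prop, (∃ x ∈ S, X x) → (∀ x y, X x → f x y = true → X y) → ∀ x ∈ S, X x)

/-- the data of the edge relation of a cycle -/
structure UHc (f : V → V → Bool) (S : Finset V) : Prop where
  sy : ∀ x y, f x y = f y x
  ad : ∀ x y, f x y = true → G.Adj x y
  two : ∀ x ∈ S, (Finset.univ.filter (fun y => f x y = true)).card = 2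
  out : ∀ x, x ∉ S → ∀ y, f x y = false
  conn : ∀ X : V → Prop, (∃ x ∈ S, X x) → (∀ x y, X x → f x y = true → X y) → ∀ x ∈ S, X x

/-- the edge relation on half edges -/
def uF (f : V → V → Bool) (h : ℕ) : Bool := f (fv (vt h) (pv (pt h))) (ext h)

/-- the bits of a gadget -/
def ub (f : V → V → Bool) (v : ℕ) (k : ℕ) : Bool :=
  if k < 12 then f (fv v (GE.getD k (0,0)).1) (fv v (GE.getD k (0,0)).2) else uF f (he v (k - 12))

theorem uh_nodup : ∀ x : V, (nb x).Nodup := by decide +kernel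

theorem uh_T1 : ∀ h : Fin 216, he (vt h) (pt h) = h ∧ vt h < 72 ∧ pt h < 3 := by decide +kernel

theorem uh_T2 : ∀ v : Fin 72, ∀ p : Fin 3, he v p < 216 ∧ vt (he v p) = v ∧ pt (he v p) = p := by
  decide +kernel

theorem uh_nbt : ∀ h : Fin 180, nb (tv h 0) = [fv (vt h) (pv (pt h)), tv h 1] ∧
    nb (tv h 1) = [tv h 0, tv h 2] ∧ nb (tv h 2) = [tv h 1, tv h 3] ∧
    nb (tv h 3) = [tv h 2, tv (mt h) 3] := by decide +kernel

theorem uh_nbg0 : ∀ v : Fin 72, nb (fv v 0) = [fv v 1, fv v 4, fv v 5] := by decide +kernel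
theorem uh_nbg1 : ∀ v : Fin 72, nb (fv v 1) = [fv v 0, fv v 2, fv v 6] := by decide +kernel
theorem uh_nbg2 : ∀ v : Fin 72, nb (fv v 2) = [fv v 1, fv v 3, fv v 7] := by decide +kernel
theorem uh_nbg3 : ∀ v : Fin 72, nb (fv v 3) = [fv v 2, fv v 4, fv v 8] := by decide +kernel
theorem uh_nbg4 : ∀ v : Fin 72, nb (fv v 4) = [fv v 0, fv v 3, ext (he v 0)] := by decide +kernel
theorem uh_nbg5 : ∀ v : Fin 72, nb (fv v 5) = [fv v 0, fv v 7, fv v 8] := by decide +kernel
theorem uh_nbg6 : ∀ v : Fin 72, nb (fv v 6) = [fv v 1, fv v 8, ext (he v 1)] := by decide +kernel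
theorem uh_nbg7 : ∀ v : Fin 72, nb (fv v 7) = [fv v 2, fv v 5, ext (he v 2)] := by decide +kernel
theorem uh_nbg8 : ∀ v : Fin 72, nb (fv v 8) = [fv v 3, fv v 5, fv v 6] := by decide +kernel

theorem uh_nbg (v : Fin 72) : nb (fv v 0) = [fv v 1, fv v 4, fv v 5] ∧
    nb (fv v 1) = [fv v 0, fv v 2, fv v 6] ∧ nb (fv v 2) = [fv v 1, fv v 3, fv v 7] ∧
    nb (fv v 3) = [fv v 2, fv v 4, fv v 8] ∧ nb (fv v 4) = [fv v 0, fv v 3, ext (he v 0)] ∧
    nb (fv v 5) = [fv v 0, fv v 7, fv v 8] ∧ nb (fv v 6) = [fv v 1, fv v 8, ext (he v 1)] ∧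
    nb (fv v 7) = [fv v 2, fv v 5, ext (he v 2)] ∧ nb (fv v 8) = [fv v 3, fv v 5, fv v 6] :=
  ⟨uh_nbg0 v, uh_nbg1 v, uh_nbg2 v, uh_nbg3 v, uh_nbg4 v, uh_nbg5 v, uh_nbg6 v, uh_nbg7 v,
    uh_nbg8 v⟩

theorem uh_ge : ∀ i : Fin 9, ∀ j : Fin 9, j.val ∈ DN.getD i.val [] →
    ∃ k : Fin 12, GE.getD k (0,0) = (i.val, j.val) ∨ GE.getD k (0,0) = (j.val, i.val) := by
  decide +kernel

theorem uh_dn : ∀ i : Fin 9, ∀ j ∈ DN.getD i.val [], j < 9 := by
  decide +kernel

theorem uh_mtmt (h : ℕ) : mt (mt h) = h := by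
  unfold mt
  split_ifs <;> omega

theorem uh_mt180 (h : ℕ) (hh : h < 180) : mt h < 180 := by
  unfold mt
  split_ifs <;> omega

theorem uh_mt180' (h : ℕ) (hh : ¬ h < 180) : ¬ mt h < 180 := by
  unfold mt
  split_ifs <;> omega

theorem uh_fv (v : Fin 72) (i : Fin 9) : fv v.val i.val = Sum.inl (v, i) := by
  simp [fv]

theorem uh_tv (h : Fin 180) (j : Fin 4) : tv h.val j.val = Sum.inr (h, j) := by
  simp [tv]

theorem uh_deg {f : V → V → Bool} {S : Finset V} (U : UHc f S) (x : V) :
    ((nb x).map (fun y => (f x y).toNat)).sum = if x ∈ S then 2 else 0 := by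
  have h1 : ((nb x).map (fun y => (f x y).toNat)).sum =
      (Finset.univ.filter (fun y => f x y = true)).card := by
    rw [← List.sum_toFinset _ (uh_nodup x), Finset.card_filter,
      Finset.sum_subset (Finset.subset_univ _)]
    · refine Finset.sum_congr rfl fun y _ => ?_
      cases f x y <;> simp
    · intro y _ hy
      have : f x y = false := by
        by_contra h
        exact hy (List.mem_toFinset.2 (U.ad x y (by simpa using h)))
      simp [this]
  rw [h1]
  split_ifs with hx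
  · exact U.two x hx
  · rw [Finset.card_eq_zero, Finset.filter_eq_empty_iff]
    intro y _
    simp [U.out x hx y]

theorem uh_mem {f : V → V → Bool} {S : Finset V} (U : UHc f S) {x y : V} (h : f x y = true) :
    x ∈ S := by
  by_contra hx
  rw [U.out x hx y] at h
  exact absurd h (by simp)

theorem uh_pair {f : V → V → Bool} {S : Finset V} (U : UHc f S) (x A B : V)
    (h : nb x = [A, B]) : f x A = decide (x ∈ S) ∧ f x B = decide (x ∈ S) := by
  have h1 := uh_deg U x
  rw [h] at h1
  by_cases hx : x ∈ S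
  · rw [if_pos hx] at h1
    simp only [List.map_cons, List.map_nil, List.sum_cons, List.sum_nil] at h1
    rw [decide_eq_true hx]
    cases h2 : f x A <;> cases h3 : f x B <;> simp [h2, h3] at h1 ⊢
  · rw [U.out x hx, U.out x hx]
    simp [hx]

theorem uh_tail {f : V → V → Bool} {S : Finset V} (U : UHc f S) (h : ℕ) (hh : h < 180) :
    decide (tv h 0 ∈ S) = uF f h ∧ decide (tv h 1 ∈ S) = uF f h ∧ decide (tv h 2 ∈ S) = uF f h ∧
    decide (tv h 3 ∈ S) = uF f h ∧ f (tv h 3) (tv (mt h) 3) = uF f h := by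
  obtain ⟨n0, n1, n2, n3⟩ := uh_nbt ⟨h, hh⟩
  obtain ⟨a0, b0⟩ := uh_pair U _ _ _ n0
  obtain ⟨a1, b1⟩ := uh_pair U _ _ _ n1
  obtain ⟨a2, b2⟩ := uh_pair U _ _ _ n2
  obtain ⟨a3, b3⟩ := uh_pair U _ _ _ n3
  simp only at a0 b0 a1 b1 a2 b2 a3 b3
  have e : uF f h = decide (tv h 0 ∈ S) := by
    unfold uF ext
    rw [if_pos hh, U.sy]
    exact a0
  have e1 : decide (tv h 1 ∈ S) = decide (tv h 0 ∈ S) := by
    rw [← b0, ← a1]; exact U.sy _ _
  have e2 : decide (tv h 2 ∈ S) = decide (tv h 1 ∈ S) := by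
    rw [← b1, ← a2]; exact U.sy _ _
  have e3 : decide (tv h 3 ∈ S) = decide (tv h 2 ∈ S) := by
    rw [← b2, ← a3]; exact U.sy _ _
  refine ⟨e.symm, e1.trans e.symm, (e2.trans e1).trans e.symm, ((e3.trans e2).trans e1).trans e.symm,
    b3.trans (((e3.trans e2).trans e1).trans e.symm)⟩

theorem uh_mt {f : V → V → Bool} {S : Finset V} (U : UHc f S) (h : ℕ) :
    uF f (mt h) = uF f h := by
  by_cases hh : h < 180
  · obtain ⟨-, -, -, -, h1⟩ := uh_tail U h hh
    obtain ⟨-, -, -, -, h2⟩ := uh_tail U (mt h) (uh_mt180 h hh)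
    rw [uh_mtmt] at h2
    rw [← h1, ← h2]
    exact U.sy _ _
  · have h1 := uh_mt180' h hh
    unfold uF ext
    rw [if_neg hh, if_neg h1, uh_mtmt]
    exact U.sy _ _

theorem uh_port (f : V → V → Bool) (v : Fin 72) (p : Fin 3) :
    uF f (he v p) = f (fv v (pv p)) (ext (he v p)) := by
  unfold uF
  rw [(uh_T2 v p).2.1, (uh_T2 v p).2.2]

theorem uh_dgi {f : V → V → Bool} {S : Finset V} (U : UHc f S) (v : Fin 72) (i : ℕ)
    (hi : i < 9) : dgi (ub f v) i = if fv v i ∈ S then 2 else 0 := by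
  have p0 : uF f (he v 0) = f (fv v 4) (ext (he v 0)) := uh_port f v 0
  have p1 : uF f (he v 1) = f (fv v 6) (ext (he v 1)) := uh_port f v 1
  have p2 : uF f (he v 2) = f (fv v 7) (ext (he v 2)) := uh_port f v 2
  rw [← uh_deg U (fv v i)]
  obtain ⟨n0, n1, n2, n3, n4, n5, n6, n7, n8⟩ := uh_nbg v
  have s := U.sy
  interval_cases i
  · rw [n0]
    simp [dgi, INC, ub, GE]
    omega
  · rw [n1]
    simp [dgi, INC, ub, GE]
    rw [s (fv v 1) (fv v 0)]
    omega
  · rw [n2]
    simp [dgi, INC, ub, GE]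
    rw [s (fv v 2) (fv v 1)]
    omega
  · rw [n3]
    simp [dgi, INC, ub, GE]
    rw [s (fv v 3) (fv v 2)]
    omega
  · rw [n4]
    simp [dgi, INC, ub, GE, p0]
    rw [s (fv v 4) (fv v 0), s (fv v 4) (fv v 3)]
    omega
  · rw [n5]
    simp [dgi, INC, ub, GE]
    rw [s (fv v 5) (fv v 0)]
    omega
  · rw [n6]
    simp [dgi, INC, ub, GE, p1]
    rw [s (fv v 6) (fv v 1)]
    omega
  · rw [n7]
    simp [dgi, INC, ub, GE, p2]
    rw [s (fv v 7) (fv v 2), s (fv v 7) (fv v 5)]
    omega
  · rw [n8]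
    simp [dgi, INC, ub, GE]
    rw [s (fv v 8) (fv v 3), s (fv v 8) (fv v 5), s (fv v 8) (fv v 6)]
    omega

theorem uh_gcase {f : V → V → Bool} {S : Finset V} (U : UHc f S) (v : Fin 72) (i : Fin 9) (y : V)
    (h : f (Sum.inl (v, i)) y = true) :
    (∃ j : Fin 9, j.val ∈ DN.getD i.val [] ∧ y = Sum.inl (v, j)) ∨
      (∃ p : Fin 3, i.val = pv p ∧ uF f (he v p) = true ∧ y = ext (he v p)) := by
  have h1 : y ∈ nb (Sum.inl (v, i)) := U.ad _ _ h
  have key : ∀ p : Fin 3, i.val = pv p → y = ext (he v p) → uF f (he v p) = true := by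
    intro p hp hy
    rw [uh_port, ← hp, ← hy, uh_fv]
    exact h
  unfold nb at h1
  rw [List.mem_append] at h1
  rcases h1 with h1 | h1
  · left
    rw [List.mem_map] at h1
    obtain ⟨j, hj, rfl⟩ := h1
    refine ⟨⟨j, uh_dn i j hj⟩, hj, ?_⟩
    exact uh_fv v ⟨j, uh_dn i j hj⟩
  · right
    split_ifs at h1 with h4 h6 h7
    · rw [List.mem_singleton] at h1
      exact ⟨0, h4, key 0 h4 h1, h1⟩
    · rw [List.mem_singleton] at h1
      exact ⟨1, h6, key 1 h6 h1, h1⟩
    · rw [List.mem_singleton] at h1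
      exact ⟨2, h7, key 2 h7 h1, h1⟩
    · simp at h1

/-- a gadget without used ports is closed -/
theorem uh_closed {f : V → V → Bool} {S : Finset V} (U : UHc f S) (v : Fin 72)
    (hp : ∀ p : Fin 3, uF f (he v p) = false) (i : Fin 9) (hi : (Sum.inl (v, i) : V) ∈ S) :
    ∀ x ∈ S, ∃ j : Fin 9, x = Sum.inl (v, j) := by
  refine U.conn (fun x => ∃ j : Fin 9, x = Sum.inl (v, j)) ⟨_, hi, i, rfl⟩ ?_
  rintro x y ⟨j, rfl⟩ hxy
  rcases uh_gcase U v j y hxy with ⟨k, -, hk⟩ | ⟨p, -, hp1, -⟩
  · exact ⟨k, hk⟩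
  · rw [hp p] at hp1
    exact absurd hp1 (by simp)

/-- the terminal of a used half edge is in `S` -/
theorem uh_term {f : V → V → Bool} {S : Finset V} (U : UHc f S) (h : ℕ) (hF : uF f h = true) :
    fv (vt h) (pv (pt h)) ∈ S := uh_mem U hF

theorem uh_gadget {f : V → V → Bool} {S : Finset V} (U : UHc f S) (GLoc : GadgetLocal)
    (h0 : Fin 216) (hF0 : uF f h0 = true) (v : Fin 72) :
    ((uF f (he v 0)).toNat + (uF f (he v 1)).toNat + (uF f (he v 2)).toNat = 0 ∨
      (uF f (he v 0)).toNat + (uF f (he v 1)).toNat + (uF f (he v 2)).toNat = 2) ∧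
    (∑ i : Fin 9, if (Sum.inl (v, i) : V) ∈ S then 1 else 0) ≤
      4 * ((uF f (he v 0)).toNat + (uF f (he v 1)).toNat + (uF f (he v 2)).toNat) := by
  have hG := GLoc (ub f v) (fun i hi => by
    rw [uh_dgi U v i hi]
    split_ifs
    · exact Or.inr rfl
    · exact Or.inl rfl)
  have b0 : ub f v 12 = uF f (he v 0) := by simp [ub]
  have b1 : ub f v 13 = uF f (he v 1) := by simp [ub]
  have b2 : ub f v 14 = uF f (he v 2) := by simp [ub]
  rw [b0, b1, b2] at hG
  rcases hG with hG | ⟨hG, hG2⟩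
  · refine ⟨Or.inl hG, ?_⟩
    have hp : ∀ p : Fin 3, uF f (he v p) = false := by
      have q0 : uF f (he v 0) = false := by
        cases h : uF f (he v 0)
        · rfl
        · rw [h] at hG; simp at hG
      have q1 : uF f (he v 1) = false := by
        cases h : uF f (he v 1)
        · rfl
        · rw [h] at hG; simp at hG
      have q2 : uF f (he v 2) = false := by
        cases h : uF f (he v 2)
        · rfl
        · rw [h] at hG; simp at hG
      intro p
      fin_cases p
      · exact q0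
      · exact q1
      · exact q2
    have hnot : ∀ i : Fin 9, (Sum.inl (v, i) : V) ∉ S := by
      intro i hi
      obtain ⟨j, hj⟩ := uh_closed U v hp i hi _ (uh_term U h0 hF0)
      obtain ⟨t1, t2, t3⟩ := uh_T1 h0
      have e1 : (fv (vt h0) (pv (pt h0)) : V) = Sum.inl (⟨vt h0, t2⟩, Fin.ofNat 9 (pv (pt h0))) := by
        unfold fv
        congr 1
        rw [Prod.mk.injEq]
        exact ⟨Fin.ext (Nat.mod_eq_of_lt t2), rfl⟩
      rw [e1] at hj
      have e2 : (⟨vt h0, t2⟩ : Fin 72) = v := (Prod.mk.inj (Sum.inl.inj hj)).1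
      have e3 := hp ⟨pt h0, t3⟩
      have e4 : (v : ℕ) = vt h0 := (congrArg Fin.val e2).symm
      rw [e4] at e3
      simp only at e3
      rw [t1, hF0] at e3
      exact absurd e3 (by simp)
    rw [Finset.sum_eq_zero fun i _ => if_neg (hnot i)]
    exact Nat.zero_le _
  · refine ⟨Or.inr hG, ?_⟩
    rw [hG]
    have hex : ∃ i : Fin 9, (Sum.inl (v, i) : V) ∉ S := by
      rcases hG2 with ⟨i, hi, hd⟩ | ⟨X, ⟨i, hi, hXi⟩, hXc, hX4, hX6, hX7⟩
      · refine ⟨⟨i, hi⟩, fun hS => ?_⟩
        rw [uh_dgi U v i hi, uh_fv v ⟨i, hi⟩, if_pos hS] at hd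
        exact absurd hd (by norm_num)
      · by_contra hall
        push Not at hall
        have hXp : ∀ p : Fin 3, uF f (he v p) = true → X (pv p) = false := by
          intro p hp
          fin_cases p
          · exact hX4 hp
          · exact hX6 hp
          · exact hX7 hp
        have hcl := U.conn (fun x => ∃ j : Fin 9, x = Sum.inl (v, j) ∧ X j = true)
          ⟨Sum.inl (v, ⟨i, hi⟩), hall _, ⟨i, hi⟩, rfl, hXi⟩ (by
            rintro x y ⟨j, rfl, hXj⟩ hxy
            rcases uh_gcase U v j y hxy with ⟨k, hk, rfl⟩ | ⟨p, hjp, hp1, -⟩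
            · refine ⟨k, rfl, ?_⟩
              obtain ⟨m, hm⟩ := uh_ge j k hk
              have hm1 := hXc m m.2 (by
                rw [← uh_fv, ← uh_fv] at hxy
                have hlt : (m : ℕ) < 12 := m.2
                rcases hm with hm | hm
                · unfold ub
                  rw [if_pos hlt, hm]
                  exact hxy
                · unfold ub
                  rw [if_pos hlt, hm, U.sy]
                  exact hxy)
              rcases hm with hm | hm
              · rw [hm] at hm1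
                simp only at hm1
                rw [← hm1]; exact hXj
              · rw [hm] at hm1
                simp only at hm1
                rw [hm1]; exact hXj
            · have := hXp p hp1
              rw [← hjp, hXj] at this
              exact absurd this (by simp))
        have hp : ∃ p : Fin 3, uF f (he v p) = true := by
          by_contra hno
          push Not at hno
          have q0 : uF f (he v 0) = false := by simpa using hno 0
          have q1 : uF f (he v 1) = false := by simpa using hno 1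
          have q2 : uF f (he v 2) = false := by simpa using hno 2
          rw [q0, q1, q2] at hG
          simp at hG
        obtain ⟨p, hp⟩ := hp
        have hmem := hp
        rw [uh_port] at hmem
        obtain ⟨j, hj, hXj⟩ := hcl _ (uh_mem U hmem)
        have h9 : pv p < 9 := by
          unfold pv; split_ifs <;> omega
        have e1 := uh_fv v ⟨pv p, h9⟩
        simp only at e1
        rw [e1] at hj
        have e2 : (⟨pv p, h9⟩ : Fin 9) = j := (Prod.mk.inj (Sum.inl.inj hj)).2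
        have e3 := hXp p hp
        rw [← e2] at hXj
        simp only at hXj
        rw [e3] at hXj
        exact absurd hXj (by simp)
    obtain ⟨i, hi⟩ := hex
    rw [← Finset.card_filter]
    have := Finset.card_lt_univ_of_notMem (s := Finset.univ.filter
      (fun i : Fin 9 => (Sum.inl (v, i) : V) ∈ S)) (x := i) (by simp [hi])
    rw [Fintype.card_fin] at this
    omega

theorem uh_conn {f : V → V → Bool} {S : Finset V} (U : UHc f S) (Z : ℕ → Bool)
    (hZ : ∀ h < 216, uF f h = true → Z (vt h) = true → Z (vt (mt h)) = true)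
    (hex : ∃ h < 216, uF f h = true ∧ Z (vt h) = true) :
    ∀ h < 216, uF f h = true → Z (vt h) = true := by
  set X : V → Prop := fun x => match x with
    | Sum.inl (v, _) => Z v = true
    | Sum.inr (h, _) => Z (vt h) = true with hX
  have hfvX : ∀ v i, v < 72 → (X (fv v i) ↔ Z v = true) := by
    intro v i hv
    simp only [hX, fv, Fin.ofNat]
    rw [Nat.mod_eq_of_lt hv]
  have htvX : ∀ h j, h < 180 → (X (tv h j) ↔ Z (vt h) = true) := by
    intro h j hh
    simp only [hX, tv, Fin.ofNat]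
    rw [Nat.mod_eq_of_lt hh]
  have hcl : ∀ x y, X x → f x y = true → X y := by
    rintro (⟨v, i⟩ | ⟨h, j⟩) y hx hxy
    · have hx' : Z v = true := hx
      rcases uh_gcase U v i y hxy with ⟨k, -, rfl⟩ | ⟨p, -, hp1, rfl⟩
      · exact hx
      · obtain ⟨t1, t2, t3⟩ := uh_T2 v p
        unfold ext
        split_ifs with h1
        · rw [htvX _ _ h1, t2]
          exact hx'
        · have h2 := hZ (he v p) t1 hp1 (by rw [t2]; exact hx')
          have h3 : mt (he v p) < 216 := by
            unfold mt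
            split_ifs <;> omega
          rw [hfvX _ _ (uh_T1 ⟨_, h3⟩).2.1]
          exact h2
    · have hx' : Z (vt h) = true := hx
      have hS := uh_mem U hxy
      have hF : uF f h = true := by
        obtain ⟨q0, q1, q2, q3, -⟩ := uh_tail U h.val h.2
        rw [← uh_tv] at hS
        fin_cases j
        · rw [← q0]; exact decide_eq_true hS
        · rw [← q1]; exact decide_eq_true hS
        · rw [← q2]; exact decide_eq_true hS
        · rw [← q3]; exact decide_eq_true hS
      have hy : y ∈ nb (Sum.inr (h, j)) := U.ad _ _ hxy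
      unfold nb at hy
      have h216 : h.val < 216 := by omega
      rw [List.mem_cons, List.mem_singleton] at hy
      rcases hy with hy | hy
      · split_ifs at hy
        · rw [hy, hfvX _ _ (uh_T1 ⟨h.val, h216⟩).2.1]
          exact hx'
        · rw [hy, htvX _ _ h.2]
          exact hx'
      · split_ifs at hy
        · rw [hy, htvX _ _ (uh_mt180 _ h.2)]
          exact hZ h.val h216 hF hx'
        · rw [hy, htvX _ _ h.2]
          exact hx'
  obtain ⟨h1, h1l, hF1, hZ1⟩ := hex
  have hall := U.conn X ⟨_, uh_term U h1 hF1, (hfvX _ (pv (pt h1)) (uh_T1 ⟨h1, h1l⟩).2.1).2 hZ1⟩ hcl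
  intro h hl hF
  exact (hfvX _ (pv (pt h)) (uh_T1 ⟨h, hl⟩).2.1).1 (hall _ (uh_term U h hF))

theorem uh_reindex (F : ℕ → ℕ) : ∑ v : Fin 72, ∑ p : Fin 3, F (he v p) =
    ∑ h ∈ Finset.range 216, F h := by
  rw [← Fintype.sum_prod_type' (f := fun (v : Fin 72) (p : Fin 3) => F (he v p))]
  rw [← Fin.sum_univ_eq_sum_range]
  refine Finset.sum_bij' (fun (x : Fin 72 × Fin 3) _ => (⟨he x.1 x.2, (uh_T2 x.1 x.2).1⟩ : Fin 216))
    (fun (h : Fin 216) _ => ((⟨vt h, (uh_T1 h).2.1⟩ : Fin 72), (⟨pt h, (uh_T1 h).2.2⟩ : Fin 3)))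
    (fun _ _ => Finset.mem_univ _) (fun _ _ => Finset.mem_univ _) ?_ ?_ ?_
  · rintro ⟨v, p⟩ _
    obtain ⟨-, t2, t3⟩ := uh_T2 v p
    exact Prod.ext (Fin.ext t2) (Fin.ext t3)
  · intro h _
    exact Fin.ext (uh_T1 h).1
  · intro x _
    rfl

theorem uh_weight (F : ℕ → Bool) : ∑ h ∈ Finset.range 216, (if F h = true then wt h else 0) =
    (∑ h ∈ Finset.range 216, (F h).toNat) + ∑ h ∈ Finset.range 180, (F h).toNat := by
  have e1 : ∑ h ∈ Finset.range 180, (F h).toNat =
      ∑ h ∈ Finset.range 216, if h < 180 then (F h).toNat else 0 := by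
    rw [← Finset.sum_filter]
    refine Finset.sum_congr ?_ fun _ _ => rfl
    ext h
    simp only [Finset.mem_range, Finset.mem_filter]
    omega
  rw [e1, ← Finset.sum_add_distrib]
  refine Finset.sum_congr rfl fun h _ => ?_
  unfold wt
  cases F h <;> by_cases hh : h < 180 <;> simp [hh]

theorem upper_of_H (CR : CycRel) (GLoc : GadgetLocal) (HB : HBound) :
    ∀ (w : V) (d : G.Walk w w), d.IsCycle → d.length ≤ 1040 := by
  intro w d hd
  obtain ⟨f, S, sy, ad, hcard, hne, two, out, conn⟩ := CR w d hd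
  have U : UHc f S := ⟨sy, ad, two, out, conn⟩
  rw [← hcard]
  by_cases hF : ∃ h0 : Fin 216, uF f h0 = true
  · obtain ⟨h0, hF0⟩ := hF
    have hHB := HB (uF f) (fun h _ => uh_mt U h)
      (fun v hv => (uh_gadget U GLoc h0 hF0 ⟨v, hv⟩).1) (uh_conn U)
    rw [uh_weight] at hHB
    have hS : S.card = ∑ x : V, if x ∈ S then 1 else 0 := by simp
    rw [hS, Fintype.sum_sum_type, Fintype.sum_prod_type, Fintype.sum_prod_type]
    have g1 : ∑ v : Fin 72, ∑ i : Fin 9, (if (Sum.inl (v, i) : V) ∈ S then 1 else 0) ≤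
        4 * ∑ h ∈ Finset.range 216, (uF f h).toNat := by
      rw [← uh_reindex (fun h => (uF f h).toNat), Finset.mul_sum]
      refine Finset.sum_le_sum fun v _ => ?_
      refine (uh_gadget U GLoc h0 hF0 v).2.trans (le_of_eq ?_)
      rw [Fin.sum_univ_three]
      rfl
    have g2 : ∑ h : Fin 180, ∑ j : Fin 4, (if (Sum.inr (h, j) : V) ∈ S then 1 else 0) =
        4 * ∑ h ∈ Finset.range 180, (uF f h).toNat := by
      rw [← Fin.sum_univ_eq_sum_range, Finset.mul_sum]
      refine Finset.sum_congr rfl fun h _ => ?_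
      obtain ⟨q0, q1, q2, q3, -⟩ := uh_tail U h.val h.2
      have r0 := uh_tv h 0
      have r1 := uh_tv h 1
      have r2 := uh_tv h 2
      have r3 := uh_tv h 3
      have c : ∀ x : V, decide (x ∈ S) = uF f h → (if x ∈ S then 1 else 0) = (uF f h).toNat := by
        intro x hx
        rw [← hx]
        by_cases h1 : x ∈ S <;> simp [h1]
      rw [Fin.sum_univ_four, ← r0, ← r1, ← r2, ← r3]
      have z0 := c _ q0
      have z1 := c _ q1
      have z2 := c _ q2
      have z3 := c _ q3
      simp only [Fin.val_zero, Fin.val_one, Fin.val_two] at *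
      have v3 : ((3 : Fin 4) : ℕ) = 3 := rfl
      rw [v3, z0, z1, z2, z3]
      ring
    omega
  · push Not at hF
    obtain ⟨x0, hx0⟩ := hne
    have hF' : ∀ h < 216, uF f h = false := by
      intro h hh
      simpa using hF ⟨h, hh⟩
    rcases x0 with ⟨v, i⟩ | ⟨h, j⟩
    · have hcl := uh_closed U v (fun p => hF' _ (uh_T2 v p).1) i hx0
      have hsub : S ⊆ Finset.univ.image (fun j : Fin 9 => (Sum.inl (v, j) : V)) := by
        intro x hx
        obtain ⟨j, hj⟩ := hcl x hx
        rw [Finset.mem_image]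
        exact ⟨j, Finset.mem_univ _, hj.symm⟩
      have h1 := Finset.card_le_card hsub
      have h2 := Finset.card_image_le (s := (Finset.univ : Finset (Fin 9)))
        (f := fun j : Fin 9 => (Sum.inl (v, j) : V))
      rw [Finset.card_univ, Fintype.card_fin] at h2
      omega
    · exfalso
      obtain ⟨q0, q1, q2, q3, -⟩ := uh_tail U h.val h.2
      have hFh := hF' h.val (by omega)
      rw [hFh] at q0 q1 q2 q3
      rw [← uh_tv] at hx0
      fin_cases j
      · exact absurd hx0 (by simpa using q0)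
      · exact absurd hx0 (by simpa using q1)
      · exact absurd hx0 (by simpa using q2)
      · exact absurd hx0 (by simpa using q3)


end Pool.Agent.Helper231.LC.Up
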