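import Pool.Agent.Helper231.LC.HBound
import Pool.Agent.Helper231.LC.NoColP
import Pool.Agent.Helper231.LC.CSum
import Pool.Agent.Helper231.LC.Upper
import Pool.Agent.Helper231.LC.CycRel
import Pool.Agent.Helper231.LC.Gadget

set_option autoImplicit false
set_option maxRecDepth 100000

namespace Pool.Agent.Helper231.LC
open Sd

theorem mkI_append : ∀ (L1 L2 : List (ℕ × ℕ × ℕ × ℕ)), mkI (L1 ++ L2) = mkI L1 ++ mkI L2
  | [], _ => rfl
  | (0, h, cu, cn) :: L, L2 => by
    rw [List.cons_append, mkI, mkI, mkI_append L L2, List.cons_append]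
  | (n + 1, w, uw, z) :: L, L2 => by
    rw [List.cons_append, mkI, mkI, mkI_append L L2, List.cons_append]

theorem run_append (B : ℕ) : ∀ (L1 L2 : List Ins) (S : List (ℕ × ℕ)),
    run B (L1 ++ L2) S = run B L2 (run B L1 S)
  | [], _, _ => rfl
  | i :: L, L2, S => by
    rw [List.cons_append, run, run, run_append B L L2]

theorem csth_eq (F vis : ℕ → Bool) : ∀ L, csth F vis L = Cs.csth F vis L
  | [] => rfl
  | (0, h, cu, cn) :: L => by rw [csth, Cs.csth, csth_eq F vis L]
  | (n + 1, w, uw, z) :: L => by rw [csth, Cs.csth, csth_eq F vis L]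

theorem sumA (F : ℕ → Bool) : csth F (visF F) PA = Co.acost F := by
  rw [csth_eq]
  exact Cs.csth_A F

theorem sumB (F : ℕ → Bool) : csth F (visF F) PB = Co.bcost F := by
  rw [csth_eq]
  exact Cs.csth_B F

theorem sumF (F : ℕ → Bool) (j : ℕ) (hj : j < 6) (h1 : F (204 + 2 * j) = true)
    (h2 : visF F j = true) (h3 : visF F (6 + j) = true) :
    csth F (visF F) (PF j) + 2 = Co.qcost F := by
  rw [csth_eq]
  exact Cs.csth_F F j hj h1 h2 h3

theorem gadget : Up.GadgetLocal := Gd.gadget_local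

theorem cycrel : Up.CycRel := by
  intro w d hd
  obtain ⟨f, S, h1, h2, h3, h4, h5, h6, h7⟩ := Cr.cyc_rel G w d hd
  refine ⟨f, S, h1, h2, h3, h4, ?_, h6, h7⟩
  intro x hx
  have := h5 x hx
  convert this

theorem upper_of_runs (rA : run 28 (mkI PA) [(cA0, 0)] = TA)
    (rB : run 28 (mkI PB) [(cB0, 0)] = TB) (rF : ∀ j < 6, run 42 (mkI (PF j)) prodT = []) :
    ∀ (w : V) (d : G.Walk w w), d.IsCycle → d.length ≤ 1040 := by
  refine Up.upper_of_H cycrel gadget ?_
  exact H_bound_of rA rB rF (fun F hm hd hc hA => Nc.noCol F hm hd hc hA) sumA sumB sumF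

end Pool.Agent.Helper231.LC
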