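import Pool.Agent.Helper231.LC.Defs

set_option autoImplicit false
set_option maxRecDepth 100000

namespace Pool.Agent.Helper231.LC.Co

/-- neighbours in `H` -/
def nbh (v : ℕ) : List ℕ := if v < 72 then [vt (mt (he v 0)), vt (mt (he v 1)), vt (mt (he v 2))] else []

/-- the used edges other than the one of half edge `h0` -/
def fF (F : ℕ → Bool) (h0 u v : ℕ) : Bool :=
  decide (u < 72) && (List.range 3).any (fun p => F (he u p) && (vt (mt (he u p)) == v) &&
    (he u p / 2 != h0 / 2))

def visF (F : ℕ → Bool) (w : ℕ) : Bool := F (he w 0) || F (he w 1) || F (he w 2)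

/-- cost of the twelve middle vertices -/
def qcost (F : ℕ → Bool) : ℕ :=
  (∑ w ∈ Finset.range 12, (if visF F w = true then 0 else 6)) +
  (∑ j ∈ Finset.range 6, (if F (204 + 2 * j) = true then 2 else 0)) +
  (∑ j ∈ Finset.range 6, (if F (168 + 2 * j) = true then 0 else 2))

def acost (F : ℕ → Bool) : ℕ :=
  (∑ w ∈ Finset.range 30, (if visF F (12 + w) = true then 0 else 8)) +
  (∑ j ∈ Finset.range 6, (if F (180 + 2 * j) = true then 3 else 0))

def bcost (F : ℕ → Bool) : ℕ :=
  (∑ w ∈ Finset.range 30, (if visF F (42 + w) = true then 0 else 8)) +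
  (∑ j ∈ Finset.range 6, (if F (192 + 2 * j) = true then 3 else 0))


lemma sum_two_mul (g : ℕ → ℤ) (n : ℕ) : ∑ h ∈ Finset.range (2 * n), g h =
    ∑ e ∈ Finset.range n, (g (2 * e) + g (2 * e + 1)) := by
  induction n with
  | zero => simp
  | succ n ih => rw [show 2 * (n + 1) = 2 * n + 1 + 1 by ring, Finset.sum_range_succ, Finset.sum_range_succ, ih,
      Finset.sum_range_succ]; ring

lemma sum_three_mul (g : ℕ → ℤ) (n : ℕ) : ∑ h ∈ Finset.range (3 * n), g h =
    ∑ e ∈ Finset.range n, (g (3 * e) + g (3 * e + 1) + g (3 * e + 2)) := by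
  induction n with
  | zero => simp
  | succ n ih => rw [show 3 * (n + 1) = 3 * n + 1 + 1 + 1 by ring, Finset.sum_range_succ, Finset.sum_range_succ,
      Finset.sum_range_succ, ih, Finset.sum_range_succ]; ring

def g0 (k : ℕ) : ℕ := HE.getD k 0
def g1 (h : ℕ) : ℕ := 3 * vt h + pt h

lemma g0_lt : ∀ k < 216, g0 k < 216 ∧ g1 (g0 k) = k ∧ vt (g0 k) = k / 3 := by decide +kernel
lemma g1_lt : ∀ k < 216, g1 k < 216 ∧ g0 (g1 k) = k := by decide +kernel

lemma vsum (c : ℕ → ℤ) (X : ℕ → ℤ) :
    ∑ v ∈ Finset.range 72, c v * (X (he v 0) + X (he v 1) + X (he v 2)) =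
    ∑ h ∈ Finset.range 216, c (vt h) * X h := by
  have h1 : ∑ h ∈ Finset.range 216, c (vt h) * X h =
      ∑ k ∈ Finset.range 216, c (k / 3) * X (g0 k) := by
    symm
    apply Finset.sum_nbij' g0 g1
    · intro k hk; simp only [Finset.mem_range] at *; exact (g0_lt k hk).1
    · intro k hk; simp only [Finset.mem_range] at *; exact (g1_lt k hk).1
    · intro k hk; simp only [Finset.mem_range] at *; exact (g0_lt k hk).2.1
    · intro k hk; simp only [Finset.mem_range] at *; exact (g1_lt k hk).2
    · intro k hk; simp only [Finset.mem_range] at hk; rw [(g0_lt k hk).2.2]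
  rw [h1, show (216 : ℕ) = 3 * 72 by norm_num, sum_three_mul]
  apply Finset.sum_congr rfl
  intro v _
  have e0 : (3 * v) / 3 = v := by omega
  have e1 : (3 * v + 1) / 3 = v := by omega
  have e2 : (3 * v + 2) / 3 = v := by omega
  rw [e0, e1, e2]
  simp only [he, g0, Nat.add_zero]
  ring

def cc (v : ℕ) : ℤ := if v < 12 then 3 else 4
def DD (e : ℕ) : ℤ := if e < 84 then 0 else if e < 90 then -2 else if e < 102 then 3 else 2

lemma coef : ∀ e < 108, - cc (vt (2 * e)) - cc (vt (2 * e + 1)) + DD e + 2 * ((wt (2 * e) : ℤ) + wt (2 * e + 1)) = 0 := by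
  decide +kernel

lemma vis_b (a b d : Bool) (c : ℕ)
    (hd : a.toNat + b.toNat + d.toNat = 0 ∨ a.toNat + b.toNat + d.toNat = 2) :
    (((if (a || b || d) = true then 0 else 2 * c : ℕ)) : ℤ) =
      2 * c - c * ((a.toNat : ℤ) + b.toNat + d.toNat) := by
  cases a <;> cases b <;> cases d <;> simp at hd ⊢
  all_goals ring

lemma vis_eq (F : ℕ → Bool) (v : ℕ) (c : ℕ)
    (hd : (F (he v 0)).toNat + (F (he v 1)).toNat + (F (he v 2)).toNat = 0 ∨
      (F (he v 0)).toNat + (F (he v 1)).toNat + (F (he v 2)).toNat = 2) :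
    (((if visF F v = true then 0 else 2 * c : ℕ)) : ℤ) =
      2 * c - c * (((F (he v 0)).toNat : ℤ) + (F (he v 1)).toNat + (F (he v 2)).toNat) :=
  vis_b _ _ _ c hd

lemma DDsum (Y : ℕ → ℤ) : ∑ e ∈ Finset.range 108, DD e * Y (2 * e) =
    3 * (∑ j ∈ Finset.range 6, Y (180 + 2 * j)) + 3 * (∑ j ∈ Finset.range 6, Y (192 + 2 * j)) +
    2 * (∑ j ∈ Finset.range 6, Y (204 + 2 * j)) - 2 * (∑ j ∈ Finset.range 6, Y (168 + 2 * j)) := by
  rw [show (108 : ℕ) = 84 + 24 by norm_num, Finset.sum_range_add]
  have h0 : ∑ x ∈ Finset.range 84, DD x * Y (2 * x) = 0 := by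
    apply Finset.sum_eq_zero
    intro x hx
    simp only [Finset.mem_range] at hx
    simp [DD, hx]
  rw [h0]
  simp only [Finset.sum_range_succ, Finset.sum_range_zero, DD]
  norm_num
  ring

theorem cost_identity (F : ℕ → Bool) (hm : ∀ h < 216, F (mt h) = F h)
    (hd : ∀ v < 72, (F (he v 0)).toNat + (F (he v 1)).toNat + (F (he v 2)).toNat = 0 ∨
      (F (he v 0)).toNat + (F (he v 1)).toNat + (F (he v 2)).toNat = 2) :
    acost F + bcost F + qcost F + 2 * (∑ h ∈ Finset.range 216, (if F h = true then wt h else 0)) = 564 := by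
  set X : ℕ → ℤ := fun h => ((F h).toNat : ℤ) with hX
  have hXm : ∀ e < 108, X (2 * e + 1) = X (2 * e) := by
    intro e he'
    have := hm (2 * e) (by omega)
    simp only [mt, show (2 * e) % 2 = 0 by omega, if_true] at this
    simp only [hX, this]
  have hA : (acost F : ℤ) = ∑ w ∈ Finset.range 30, (8 - 4 * (X (he (12 + w) 0) + X (he (12 + w) 1) + X (he (12 + w) 2)))
      + 3 * ∑ j ∈ Finset.range 6, X (180 + 2 * j) := by
    unfold acost
    push_cast
    congr 1
    · apply Finset.sum_congr rfl
      intro w hw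
      simp only [Finset.mem_range] at hw
      have := vis_eq F (12 + w) 4 (hd _ (by omega))
      push_cast at this
      simpa [hX] using this
    · rw [Finset.mul_sum]
      apply Finset.sum_congr rfl
      intro j _
      simp only [hX]
      cases F (180 + 2 * j) <;> simp
  have hB : (bcost F : ℤ) = ∑ w ∈ Finset.range 30, (8 - 4 * (X (he (42 + w) 0) + X (he (42 + w) 1) + X (he (42 + w) 2)))
      + 3 * ∑ j ∈ Finset.range 6, X (192 + 2 * j) := by
    unfold bcost
    push_cast
    congr 1
    · apply Finset.sum_congr rfl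
      intro w hw
      simp only [Finset.mem_range] at hw
      have := vis_eq F (42 + w) 4 (hd _ (by omega))
      push_cast at this
      simpa [hX] using this
    · rw [Finset.mul_sum]
      apply Finset.sum_congr rfl
      intro j _
      simp only [hX]
      cases F (192 + 2 * j) <;> simp
  have hQ : (qcost F : ℤ) = ∑ w ∈ Finset.range 12, (6 - 3 * (X (he w 0) + X (he w 1) + X (he w 2)))
      + 2 * ∑ j ∈ Finset.range 6, X (204 + 2 * j) + ∑ j ∈ Finset.range 6, (2 - 2 * X (168 + 2 * j)) := by
    unfold qcost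
    push_cast
    congr 1
    · congr 1
      · apply Finset.sum_congr rfl
        intro w hw
        simp only [Finset.mem_range] at hw
        have := vis_eq F w 3 (hd _ (by omega))
        push_cast at this
        simpa [hX] using this
      · rw [Finset.mul_sum]
        apply Finset.sum_congr rfl
        intro j _
        simp only [hX]
        cases F (204 + 2 * j) <;> simp
    · apply Finset.sum_congr rfl
      intro j _
      simp only [hX]
      cases F (168 + 2 * j) <;> simp
  have hW : ((∑ h ∈ Finset.range 216, (if F h = true then wt h else 0) : ℕ) : ℤ) =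
      ∑ h ∈ Finset.range 216, (wt h : ℤ) * X h := by
    push_cast
    apply Finset.sum_congr rfl
    intro h _
    simp only [hX]
    cases F h <;> simp
  have hV := vsum cc X
  have hVl : ∑ v ∈ Finset.range 72, cc v * (X (he v 0) + X (he v 1) + X (he v 2)) =
      3 * (∑ w ∈ Finset.range 12, (X (he w 0) + X (he w 1) + X (he w 2))) +
      4 * (∑ w ∈ Finset.range 30, (X (he (12 + w) 0) + X (he (12 + w) 1) + X (he (12 + w) 2))) +
      4 * (∑ w ∈ Finset.range 30, (X (he (42 + w) 0) + X (he (42 + w) 1) + X (he (42 + w) 2))) := by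
    rw [show (72 : ℕ) = 42 + 30 by norm_num, Finset.sum_range_add, show (42 : ℕ) = 12 + 30 by norm_num,
      Finset.sum_range_add, Finset.mul_sum, Finset.mul_sum, Finset.mul_sum]
    refine congrArg₂ (· + ·) (congrArg₂ (· + ·) ?_ ?_) ?_
    · apply Finset.sum_congr rfl
      intro w hw
      simp only [Finset.mem_range] at hw
      simp only [cc, hw, if_true]
    · apply Finset.sum_congr rfl
      intro w hw
      have : ¬ (12 + w < 12) := by omega
      simp only [cc, this, if_false]
    · apply Finset.sum_congr rfl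
      intro w hw
      have : ¬ (12 + 30 + w < 12) := by omega
      simp only [cc, this, if_false]
  have hD := DDsum X
  have hC : ∑ h ∈ Finset.range 216, cc (vt h) * X h = ∑ e ∈ Finset.range 108, (cc (vt (2 * e)) + cc (vt (2 * e + 1))) * X (2 * e) := by
    rw [show (216 : ℕ) = 2 * 108 by norm_num, sum_two_mul]
    apply Finset.sum_congr rfl
    intro e he'
    simp only [Finset.mem_range] at he'
    rw [hXm e he']; ring
  have hW2 : ∑ h ∈ Finset.range 216, (wt h : ℤ) * X h = ∑ e ∈ Finset.range 108, ((wt (2 * e) : ℤ) + wt (2 * e + 1)) * X (2 * e) := by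
    rw [show (216 : ℕ) = 2 * 108 by norm_num, sum_two_mul]
    apply Finset.sum_congr rfl
    intro e he'
    simp only [Finset.mem_range] at he'
    rw [hXm e he']; ring
  have hz : ∑ e ∈ Finset.range 108, (- (cc (vt (2 * e)) + cc (vt (2 * e + 1))) * X (2 * e) + DD e * X (2 * e)
      + 2 * (((wt (2 * e) : ℤ) + wt (2 * e + 1)) * X (2 * e))) = 0 := by
    apply Finset.sum_eq_zero
    intro e he'
    simp only [Finset.mem_range] at he'
    have := coef e he'
    linear_combination (X (2 * e)) * this
  rw [Finset.sum_add_distrib, Finset.sum_add_distrib, ← Finset.mul_sum] at hz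
  have hneg : ∑ e ∈ Finset.range 108, (- (cc (vt (2 * e)) + cc (vt (2 * e + 1))) * X (2 * e)) =
      - ∑ e ∈ Finset.range 108, (cc (vt (2 * e)) + cc (vt (2 * e + 1))) * X (2 * e) := by
    rw [← Finset.sum_neg_distrib]; apply Finset.sum_congr rfl; intro e _; ring
  rw [hneg, ← hC, ← hV, hVl, hD, ← hW2] at hz
  have key : (acost F : ℤ) + bcost F + qcost F + 2 * ((∑ h ∈ Finset.range 216, (if F h = true then wt h else 0) : ℕ) : ℤ) = 564 := by
    rw [hA, hB, hQ, hW]
    simp only [Finset.sum_sub_distrib, ← Finset.mul_sum, Finset.sum_const, Finset.card_range]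
    simp only [nsmul_eq_mul]
    push_cast
    linarith
  exact_mod_cast key

/-- the local inequality at one column -/
lemma column (hA hB a a' b b' l l' : Bool)
    (h1 : hA.toNat + a.toNat + l.toNat = 0 ∨ hA.toNat + a.toNat + l.toNat = 2)
    (h2 : hA.toNat + a'.toNat + l'.toNat = 0 ∨ hA.toNat + a'.toNat + l'.toNat = 2)
    (h3 : hB.toNat + b.toNat + l.toNat = 0 ∨ hB.toNat + b.toNat + l.toNat = 2)
    (h4 : hB.toNat + b'.toNat + l'.toNat = 0 ∨ hB.toNat + b'.toNat + l'.toNat = 2)
    (hc : ¬ (hA = true ∧ hB = true ∧ l = true ∧ l' = true)) :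
    5 + (if (b.toNat + b'.toNat) % 2 = 0 then 1 else 0) ≤
    (if (hA || a || l) = true then 0 else 6) + (if (hA || a' || l') = true then 0 else 6) +
    (if (hB || b || l) = true then 0 else 6) + (if (hB || b' || l') = true then 0 else 6) +
    (if l = true then 2 else 0) + (if l' = true then 2 else 0) + (if hA = true then 0 else 2) + (if hB = true then 0 else 2)
    + (if b = true then 3 else 0) + (if b' = true then 3 else 0) := by
  revert h1 h2 h3 h4 hc
  revert hA hB a a' b b' l l'
  decide

lemma parity (F : ℕ → Bool) (hm : ∀ h < 216, F (mt h) = F h)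
    (hd : ∀ v < 72, (F (he v 0)).toNat + (F (he v 1)).toNat + (F (he v 2)).toNat = 0 ∨
      (F (he v 0)).toNat + (F (he v 1)).toNat + (F (he v 2)).toNat = 2)
    (c : ℕ → ℤ) (T : ℕ → ℤ) (hcT : ∀ e < 108, ∃ k, c (vt (2 * e)) + c (vt (2 * e + 1)) = T e + 2 * k) :
    (2 : ℤ) ∣ ∑ e ∈ Finset.range 108, T e * ((F (2 * e)).toNat : ℤ) := by
  set X : ℕ → ℤ := fun h => ((F h).toNat : ℤ) with hX
  have hXm : ∀ e < 108, X (2 * e + 1) = X (2 * e) := by
    intro e he'
    have := hm (2 * e) (by omega)
    simp only [mt, show (2 * e) % 2 = 0 by omega, if_true] at this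
    simp only [hX, this]
  have hV := vsum c X
  have h1 : (2 : ℤ) ∣ ∑ v ∈ Finset.range 72, c v * (X (he v 0) + X (he v 1) + X (he v 2)) := by
    apply Finset.dvd_sum
    intro v hv
    simp only [Finset.mem_range] at hv
    apply Dvd.dvd.mul_left
    rcases hd v hv with h | h
    · have : X (he v 0) + X (he v 1) + X (he v 2) = 0 := by simp only [hX]; exact_mod_cast h
      rw [this]; exact dvd_zero _
    · have : X (he v 0) + X (he v 1) + X (he v 2) = 2 := by simp only [hX]; exact_mod_cast h
      rw [this]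
  have hC : ∑ h ∈ Finset.range 216, c (vt h) * X h = ∑ e ∈ Finset.range 108, (c (vt (2 * e)) + c (vt (2 * e + 1))) * X (2 * e) := by
    rw [show (216 : ℕ) = 2 * 108 by norm_num, sum_two_mul]
    apply Finset.sum_congr rfl
    intro e he'
    simp only [Finset.mem_range] at he'
    rw [hXm e he']; ring
  have h2 : (2 : ℤ) ∣ ∑ e ∈ Finset.range 108, ((c (vt (2 * e)) + c (vt (2 * e + 1))) * X (2 * e) - T e * X (2 * e)) := by
    apply Finset.dvd_sum
    intro e he'
    simp only [Finset.mem_range] at he'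
    obtain ⟨k, hk⟩ := hcT e he'
    exact ⟨k * X (2 * e), by rw [hk]; ring⟩
  rw [Finset.sum_sub_distrib, ← hC, ← hV] at h2
  have := dvd_sub h1 h2
  simpa using this

def cB (v : ℕ) : ℤ := if v < 42 then 0 else 1
def cA (v : ℕ) : ℤ := if v < 12 then 0 else if v < 42 then 1 else 0
def TB (e : ℕ) : ℤ := if e < 96 then 0 else if e < 102 then 1 else 0
def TA (e : ℕ) : ℤ := if e < 90 then 0 else if e < 96 then 1 else 0

lemma cTB' : ∀ e < 108, (cB (vt (2 * e)) + cB (vt (2 * e + 1)) - TB e) % 2 = 0 := by decide +kernel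
lemma cTA' : ∀ e < 108, (cA (vt (2 * e)) + cA (vt (2 * e + 1)) - TA e) % 2 = 0 := by decide +kernel

lemma parB (F : ℕ → Bool) (hm : ∀ h < 216, F (mt h) = F h)
    (hd : ∀ v < 72, (F (he v 0)).toNat + (F (he v 1)).toNat + (F (he v 2)).toNat = 0 ∨
      (F (he v 0)).toNat + (F (he v 1)).toNat + (F (he v 2)).toNat = 2) :
    ((F 192).toNat + (F 194).toNat + (F 196).toNat + (F 198).toNat + (F 200).toNat + (F 202).toNat) % 2 = 0 := by
  have h := parity F hm hd cB TB (fun e he' => ⟨(cB (vt (2 * e)) + cB (vt (2 * e + 1)) - TB e) / 2, by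
    have := cTB' e he'; omega⟩)
  have h2 : ∑ e ∈ Finset.range 108, TB e * ((F (2 * e)).toNat : ℤ) =
      ((F 192).toNat + (F 194).toNat + (F 196).toNat + (F 198).toNat + (F 200).toNat + (F 202).toNat : ℕ) := by
    rw [show (108 : ℕ) = 96 + 12 by norm_num, Finset.sum_range_add]
    have h0 : ∑ x ∈ Finset.range 96, TB x * ((F (2 * x)).toNat : ℤ) = 0 := by
      apply Finset.sum_eq_zero
      intro x hx
      simp only [Finset.mem_range] at hx
      simp [TB, hx]
    rw [h0]
    simp only [Finset.sum_range_succ, Finset.sum_range_zero, TB]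
    norm_num
  rw [h2] at h
  omega

lemma parA (F : ℕ → Bool) (hm : ∀ h < 216, F (mt h) = F h)
    (hd : ∀ v < 72, (F (he v 0)).toNat + (F (he v 1)).toNat + (F (he v 2)).toNat = 0 ∨
      (F (he v 0)).toNat + (F (he v 1)).toNat + (F (he v 2)).toNat = 2) :
    ((F 180).toNat + (F 182).toNat + (F 184).toNat + (F 186).toNat + (F 188).toNat + (F 190).toNat) % 2 = 0 := by
  have h := parity F hm hd cA TA (fun e he' => ⟨(cA (vt (2 * e)) + cA (vt (2 * e + 1)) - TA e) / 2, by
    have := cTA' e he'; omega⟩)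
  have h2 : ∑ e ∈ Finset.range 108, TA e * ((F (2 * e)).toNat : ℤ) =
      ((F 180).toNat + (F 182).toNat + (F 184).toNat + (F 186).toNat + (F 188).toNat + (F 190).toNat : ℕ) := by
    rw [show (108 : ℕ) = 90 + 18 by norm_num, Finset.sum_range_add]
    have h0 : ∑ x ∈ Finset.range 90, TA x * ((F (2 * x)).toNat : ℤ) = 0 := by
      apply Finset.sum_eq_zero
      intro x hx
      simp only [Finset.mem_range] at hx
      simp [TA, hx]
    rw [h0]
    simp only [Finset.sum_range_succ, Finset.sum_range_zero, TA]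
    norm_num
  rw [h2] at h
  omega

lemma qcost_eq (F : ℕ → Bool) (hm : ∀ h < 216, F (mt h) = F h) : qcost F =
    ((if (F 168 || F 180 || F 204) = true then 0 else 6) + (if (F 168 || F 186 || F 210) = true then 0 else 6) +
     (if (F 174 || F 192 || F 204) = true then 0 else 6) + (if (F 174 || F 198 || F 210) = true then 0 else 6) +
     (if F 204 = true then 2 else 0) + (if F 210 = true then 2 else 0) + (if F 168 = true then 0 else 2) + (if F 174 = true then 0 else 2)) +
    ((if (F 170 || F 182 || F 206) = true then 0 else 6) + (if (F 170 || F 188 || F 212) = true then 0 else 6) +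
     (if (F 176 || F 194 || F 206) = true then 0 else 6) + (if (F 176 || F 200 || F 212) = true then 0 else 6) +
     (if F 206 = true then 2 else 0) + (if F 212 = true then 2 else 0) + (if F 170 = true then 0 else 2) + (if F 176 = true then 0 else 2)) +
    ((if (F 172 || F 184 || F 208) = true then 0 else 6) + (if (F 172 || F 190 || F 214) = true then 0 else 6) +
     (if (F 178 || F 196 || F 208) = true then 0 else 6) + (if (F 178 || F 202 || F 214) = true then 0 else 6) +
     (if F 208 = true then 2 else 0) + (if F 214 = true then 2 else 0) + (if F 172 = true then 0 else 2) + (if F 178 = true then 0 else 2)) := by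
  have m : ∀ e, e < 108 → F (2 * e + 1) = F (2 * e) := by
    intro e he'
    have := hm (2 * e) (by omega)
    simpa only [mt, show (2 * e) % 2 = 0 by omega, if_true] using this
  have v0 : visF F 0 = (F 168 || F 180 || F 204) := by
    show (F 168 || F 181 || F 204) = _
    rw [show F 181 = F 180 from m 90 (by norm_num)]
  have v1 : visF F 1 = (F 170 || F 182 || F 206) := by
    show (F 170 || F 183 || F 206) = _
    rw [show F 183 = F 182 from m 91 (by norm_num)]
  have v2 : visF F 2 = (F 172 || F 184 || F 208) := by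
    show (F 172 || F 185 || F 208) = _
    rw [show F 185 = F 184 from m 92 (by norm_num)]
  have v3 : visF F 3 = (F 168 || F 186 || F 210) := by
    show (F 169 || F 187 || F 210) = _
    rw [show F 187 = F 186 from m 93 (by norm_num), show F 169 = F 168 from m 84 (by norm_num)]
  have v4 : visF F 4 = (F 170 || F 188 || F 212) := by
    show (F 171 || F 189 || F 212) = _
    rw [show F 189 = F 188 from m 94 (by norm_num), show F 171 = F 170 from m 85 (by norm_num)]
  have v5 : visF F 5 = (F 172 || F 190 || F 214) := by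
    show (F 173 || F 191 || F 214) = _
    rw [show F 191 = F 190 from m 95 (by norm_num), show F 173 = F 172 from m 86 (by norm_num)]
  have v6 : visF F 6 = (F 174 || F 192 || F 204) := by
    show (F 174 || F 193 || F 205) = _
    rw [show F 193 = F 192 from m 96 (by norm_num), show F 205 = F 204 from m 102 (by norm_num)]
  have v7 : visF F 7 = (F 176 || F 194 || F 206) := by
    show (F 176 || F 195 || F 207) = _
    rw [show F 195 = F 194 from m 97 (by norm_num), show F 207 = F 206 from m 103 (by norm_num)]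
  have v8 : visF F 8 = (F 178 || F 196 || F 208) := by
    show (F 178 || F 197 || F 209) = _
    rw [show F 197 = F 196 from m 98 (by norm_num), show F 209 = F 208 from m 104 (by norm_num)]
  have v9 : visF F 9 = (F 174 || F 198 || F 210) := by
    show (F 175 || F 199 || F 211) = _
    rw [show F 199 = F 198 from m 99 (by norm_num), show F 211 = F 210 from m 105 (by norm_num), show F 175 = F 174 from m 87 (by norm_num)]
  have v10 : visF F 10 = (F 176 || F 200 || F 212) := by
    show (F 177 || F 201 || F 213) = _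
    rw [show F 201 = F 200 from m 100 (by norm_num), show F 213 = F 212 from m 106 (by norm_num), show F 177 = F 176 from m 88 (by norm_num)]
  have v11 : visF F 11 = (F 178 || F 202 || F 214) := by
    show (F 179 || F 203 || F 215) = _
    rw [show F 203 = F 202 from m 101 (by norm_num), show F 215 = F 214 from m 107 (by norm_num), show F 179 = F 178 from m 89 (by norm_num)]
  unfold qcost
  simp only [Finset.sum_range_succ, Finset.sum_range_zero, v0, v1, v2, v3, v4, v5, v6, v7, v8, v9, v10, v11,
    show 204 + 2 * 0 = 204 from rfl, show 204 + 2 * 1 = 206 from rfl, show 204 + 2 * 2 = 208 from rfl,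
    show 204 + 2 * 3 = 210 from rfl, show 204 + 2 * 4 = 212 from rfl, show 204 + 2 * 5 = 214 from rfl,
    show 168 + 2 * 0 = 168 from rfl, show 168 + 2 * 1 = 170 from rfl, show 168 + 2 * 2 = 172 from rfl,
    show 168 + 2 * 3 = 174 from rfl, show 168 + 2 * 4 = 176 from rfl, show 168 + 2 * 5 = 178 from rfl]
  ring

/-- degrees at the middle vertices -/
lemma degs (F : ℕ → Bool) (hm : ∀ h < 216, F (mt h) = F h)
    (hd : ∀ v < 72, (F (he v 0)).toNat + (F (he v 1)).toNat + (F (he v 2)).toNat = 0 ∨
      (F (he v 0)).toNat + (F (he v 1)).toNat + (F (he v 2)).toNat = 2) (i : ℕ) (hi : i < 3) :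
    ((F (168 + 2 * i)).toNat + (F (180 + 2 * i)).toNat + (F (204 + 2 * i)).toNat = 0 ∨
      (F (168 + 2 * i)).toNat + (F (180 + 2 * i)).toNat + (F (204 + 2 * i)).toNat = 2) ∧
    ((F (168 + 2 * i)).toNat + (F (186 + 2 * i)).toNat + (F (210 + 2 * i)).toNat = 0 ∨
      (F (168 + 2 * i)).toNat + (F (186 + 2 * i)).toNat + (F (210 + 2 * i)).toNat = 2) ∧
    ((F (174 + 2 * i)).toNat + (F (192 + 2 * i)).toNat + (F (204 + 2 * i)).toNat = 0 ∨
      (F (174 + 2 * i)).toNat + (F (192 + 2 * i)).toNat + (F (204 + 2 * i)).toNat = 2) ∧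
    ((F (174 + 2 * i)).toNat + (F (198 + 2 * i)).toNat + (F (210 + 2 * i)).toNat = 0 ∨
      (F (174 + 2 * i)).toNat + (F (198 + 2 * i)).toNat + (F (210 + 2 * i)).toNat = 2) := by
  have m : ∀ e, e < 108 → F (2 * e + 1) = F (2 * e) := by
    intro e he'
    have := hm (2 * e) (by omega)
    simpa only [mt, show (2 * e) % 2 = 0 by omega, if_true] using this
  have m1 : F (181 + 2 * i) = F (180 + 2 * i) := by
    have := m (90 + i) (by omega); rwa [show 2 * (90 + i) + 1 = 181 + 2 * i by ring, show 2 * (90 + i) = 180 + 2 * i by ring] at this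
  have m2 : F (187 + 2 * i) = F (186 + 2 * i) := by
    have := m (93 + i) (by omega); rwa [show 2 * (93 + i) + 1 = 187 + 2 * i by ring, show 2 * (93 + i) = 186 + 2 * i by ring] at this
  have m3 : F (169 + 2 * i) = F (168 + 2 * i) := by
    have := m (84 + i) (by omega); rwa [show 2 * (84 + i) + 1 = 169 + 2 * i by ring, show 2 * (84 + i) = 168 + 2 * i by ring] at this
  have m4 : F (175 + 2 * i) = F (174 + 2 * i) := by
    have := m (87 + i) (by omega); rwa [show 2 * (87 + i) + 1 = 175 + 2 * i by ring, show 2 * (87 + i) = 174 + 2 * i by ring] at this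
  have m5 : F (193 + 2 * i) = F (192 + 2 * i) := by
    have := m (96 + i) (by omega); rwa [show 2 * (96 + i) + 1 = 193 + 2 * i by ring, show 2 * (96 + i) = 192 + 2 * i by ring] at this
  have m6 : F (199 + 2 * i) = F (198 + 2 * i) := by
    have := m (99 + i) (by omega); rwa [show 2 * (99 + i) + 1 = 199 + 2 * i by ring, show 2 * (99 + i) = 198 + 2 * i by ring] at this
  have m7 : F (205 + 2 * i) = F (204 + 2 * i) := by
    have := m (102 + i) (by omega); rwa [show 2 * (102 + i) + 1 = 205 + 2 * i by ring, show 2 * (102 + i) = 204 + 2 * i by ring] at this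
  have m8 : F (211 + 2 * i) = F (210 + 2 * i) := by
    have := m (105 + i) (by omega); rwa [show 2 * (105 + i) + 1 = 211 + 2 * i by ring, show 2 * (105 + i) = 210 + 2 * i by ring] at this
  have e0 := hd i (by omega)
  have e1 := hd (3 + i) (by omega)
  have e2 := hd (6 + i) (by omega)
  have e3 := hd (9 + i) (by omega)
  have t0 : he i 0 = 168 + 2 * i ∧ he i 1 = 181 + 2 * i ∧ he i 2 = 204 + 2 * i := by
    interval_cases i <;> decide
  have t1 : he (3 + i) 0 = 169 + 2 * i ∧ he (3 + i) 1 = 187 + 2 * i ∧ he (3 + i) 2 = 210 + 2 * i := by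
    interval_cases i <;> decide
  have t2 : he (6 + i) 0 = 174 + 2 * i ∧ he (6 + i) 1 = 193 + 2 * i ∧ he (6 + i) 2 = 205 + 2 * i := by
    interval_cases i <;> decide
  have t3 : he (9 + i) 0 = 175 + 2 * i ∧ he (9 + i) 1 = 199 + 2 * i ∧ he (9 + i) 2 = 211 + 2 * i := by
    interval_cases i <;> decide
  rw [t0.1, t0.2.1, t0.2.2, m1] at e0
  rw [t1.1, t1.2.1, t1.2.2, m2, m3] at e1
  rw [t2.1, t2.2.1, t2.2.2, m5, m7] at e2
  rw [t3.1, t3.2.1, t3.2.2, m4, m6, m8] at e3
  exact ⟨e0, e1, e2, e3⟩

/-- no column is a four-cycle -/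
def NoCol (F : ℕ → Bool) : Prop := ∀ i < 3, ¬ (F (168 + 2 * i) = true ∧ F (174 + 2 * i) = true ∧
  F (204 + 2 * i) = true ∧ F (210 + 2 * i) = true)

theorem bq_low (F : ℕ → Bool) (hm : ∀ h < 216, F (mt h) = F h)
    (hd : ∀ v < 72, (F (he v 0)).toNat + (F (he v 1)).toNat + (F (he v 2)).toNat = 0 ∨
      (F (he v 0)).toNat + (F (he v 1)).toNat + (F (he v 2)).toNat = 2) (hc : NoCol F) : 16 ≤ bcost F + qcost F := by
  have hb : (∑ j ∈ Finset.range 6, (if F (192 + 2 * j) = true then 3 else 0)) ≤ bcost F := by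
    unfold bcost; exact Nat.le_add_left _ _
  simp only [Finset.sum_range_succ, Finset.sum_range_zero] at hb
  norm_num at hb
  rw [qcost_eq F hm]
  have p := parB F hm hd
  obtain ⟨a0, a1, a2, a3⟩ := degs F hm hd 0 (by norm_num)
  obtain ⟨b0, b1, b2, b3⟩ := degs F hm hd 1 (by norm_num)
  obtain ⟨c0, c1, c2, c3⟩ := degs F hm hd 2 (by norm_num)
  have C0 := column (F 168) (F 174) (F 180) (F 186) (F 192) (F 198) (F 204) (F 210) a0 a1 a2 a3 (hc 0 (by norm_num))
  have C1 := column (F 170) (F 176) (F 182) (F 188) (F 194) (F 200) (F 206) (F 212) b0 b1 b2 b3 (hc 1 (by norm_num))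
  have C2 := column (F 172) (F 178) (F 184) (F 190) (F 196) (F 202) (F 208) (F 214) c0 c1 c2 c3 (hc 2 (by norm_num))
  have key : 16 ≤ (5 + (if ((F 192).toNat + (F 198).toNat) % 2 = 0 then 1 else 0)) +
      (5 + (if ((F 194).toNat + (F 200).toNat) % 2 = 0 then 1 else 0)) +
      (5 + (if ((F 196).toNat + (F 202).toNat) % 2 = 0 then 1 else 0)) := by
    split_ifs <;> omega
  refine le_trans key ?_
  refine le_trans (add_le_add (add_le_add C0 C1) C2) ?_
  refine le_trans (le_of_eq ?_) (add_le_add_left hb _)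
  ring

theorem aq_low (F : ℕ → Bool) (hm : ∀ h < 216, F (mt h) = F h)
    (hd : ∀ v < 72, (F (he v 0)).toNat + (F (he v 1)).toNat + (F (he v 2)).toNat = 0 ∨
      (F (he v 0)).toNat + (F (he v 1)).toNat + (F (he v 2)).toNat = 2) (hc : NoCol F) : 16 ≤ acost F + qcost F := by
  have hb : (∑ j ∈ Finset.range 6, (if F (180 + 2 * j) = true then 3 else 0)) ≤ acost F := by
    unfold acost; exact Nat.le_add_left _ _
  simp only [Finset.sum_range_succ, Finset.sum_range_zero] at hb
  norm_num at hb
  rw [qcost_eq F hm]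
  have p := parA F hm hd
  obtain ⟨a0, a1, a2, a3⟩ := degs F hm hd 0 (by norm_num)
  obtain ⟨b0, b1, b2, b3⟩ := degs F hm hd 1 (by norm_num)
  obtain ⟨c0, c1, c2, c3⟩ := degs F hm hd 2 (by norm_num)
  have h0 := hc 0 (by norm_num)
  have h1 := hc 1 (by norm_num)
  have h2 := hc 2 (by norm_num)
  have C0 := column (F 174) (F 168) (F 192) (F 198) (F 180) (F 186) (F 204) (F 210) a2 a3 a0 a1
    (fun h => h0 ⟨h.2.1, h.1, h.2.2.1, h.2.2.2⟩)
  have C1 := column (F 176) (F 170) (F 194) (F 200) (F 182) (F 188) (F 206) (F 212) b2 b3 b0 b1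
    (fun h => h1 ⟨h.2.1, h.1, h.2.2.1, h.2.2.2⟩)
  have C2 := column (F 178) (F 172) (F 196) (F 202) (F 184) (F 190) (F 208) (F 214) c2 c3 c0 c1
    (fun h => h2 ⟨h.2.1, h.1, h.2.2.1, h.2.2.2⟩)
  have key : 16 ≤ (5 + (if ((F 180).toNat + (F 186).toNat) % 2 = 0 then 1 else 0)) +
      (5 + (if ((F 182).toNat + (F 188).toNat) % 2 = 0 then 1 else 0)) +
      (5 + (if ((F 184).toNat + (F 190).toNat) % 2 = 0 then 1 else 0)) := by
    split_ifs <;> omega
  refine le_trans key ?_
  refine le_trans (add_le_add (add_le_add C0 C1) C2) ?_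
  refine le_trans (le_of_eq ?_) (add_le_add_left hb _)
  ring

/-- if no block-A vertex or no block-B vertex is used, the cost is large -/
theorem acost_big (F : ℕ → Bool)
    (h : ∀ w < 30, visF F (12 + w) = false) : 240 ≤ acost F := by
  have : ∑ w ∈ Finset.range 30, (if visF F (12 + w) = true then 0 else 8) = 240 := by
    rw [Finset.sum_congr rfl (g := fun _ => 8)]
    · simp
    · intro w hw
      simp only [Finset.mem_range] at hw
      simp [h w hw]
  unfold acost
  rw [this]; exact Nat.le_add_right _ _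

theorem bcost_big (F : ℕ → Bool)
    (h : ∀ w < 30, visF F (42 + w) = false) : 240 ≤ bcost F := by
  have : ∑ w ∈ Finset.range 30, (if visF F (42 + w) = true then 0 else 8) = 240 := by
    rw [Finset.sum_congr rfl (g := fun _ => 8)]
    · simp
    · intro w hw
      simp only [Finset.mem_range] at hw
      simp [h w hw]
  unfold bcost
  rw [this]; exact Nat.le_add_right _ _


end Pool.Agent.Helper231.LC.Co
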