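import Mathlib

set_option autoImplicit false

namespace Pool.Agent.Helper231.LC


def mask : List ℕ → ℕ
  | [] => 0
  | h :: Z => mask Z ||| 2 ^ (h / 2)

def AVc (e : ℕ) : List ℕ → ℕ
  | [] => 0
  | m :: ms => 2 * AVc e ms + (if m.testBit e = true then 0 else 1)

def allC (x : ℕ) : List ℕ → Bool
  | [] => true
  | c :: l => !(Nat.beq (Nat.land x c) 0) && allC x l

def allB (a : ℕ) : List ℕ → Bool
  | [] => true
  | b :: l => allC (Nat.land a b) (b :: l) && allB a l

def allA : List ℕ → Bool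
  | [] => true
  | a :: l => allB a (a :: l) && allA l

theorem cv_C (x : ℕ) : ∀ l : List ℕ, allC x l = true → ∀ c ∈ l, x &&& c ≠ 0
  | [], _, c, hc => by simp at hc
  | c0 :: l, h, c, hc => by
    rw [allC, Bool.and_eq_true] at h
    rcases List.mem_cons.1 hc with rfl | hc
    · intro h0
      have h1 := h.1
      have h2 : Nat.land x c = 0 := h0
      rw [h2] at h1
      simp at h1
    · exact cv_C x l h.2 c hc

theorem cv_B (a : ℕ) : ∀ l : List ℕ, allB a l = true → ∀ b ∈ l, ∀ c ∈ l, (a &&& b) &&& c ≠ 0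
  | [], _, b, hb, c, hc => by simp at hc
  | b0 :: l, h, b, hb, c, hc => by
    rw [allB, Bool.and_eq_true] at h
    have h1 : ∀ c ∈ b0 :: l, (a &&& b0) &&& c ≠ 0 := cv_C _ _ h.1
    rcases List.mem_cons.1 hb with rfl | hb'
    · exact h1 c hc
    · rcases List.mem_cons.1 hc with rfl | hc'
      · have := h1 b hb
        rwa [Nat.and_right_comm] at this
      · exact cv_B a l h.2 b hb' c hc'

theorem cv_A : ∀ l : List ℕ, allA l = true → ∀ a ∈ l, ∀ b ∈ l, ∀ c ∈ l, (a &&& b) &&& c ≠ 0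
  | [], _, a, ha, b, hb, c, hc => by simp at hc
  | a0 :: l, h, a, ha, b, hb, c, hc => by
    rw [allA, Bool.and_eq_true] at h
    have h1 := cv_B a0 (a0 :: l) h.1
    rcases List.mem_cons.1 ha with rfl | ha'
    · exact h1 b hb c hc
    · rcases List.mem_cons.1 hb with rfl | hb'
      · have := h1 a ha c hc
        rwa [Nat.and_comm b a] at this
      · rcases List.mem_cons.1 hc with rfl | hc'
        · have := h1 a ha b hb
          rwa [Nat.and_assoc, Nat.and_comm] at this
        · exact cv_A l h.2 a ha' b hb' c hc'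

theorem cv_AVc (e : ℕ) : ∀ (ms : List ℕ) (z : ℕ), (AVc e ms).testBit z = true →
    ∃ m, ms[z]? = some m ∧ m.testBit e = false
  | [], z, h => by simp [AVc] at h
  | m :: ms, 0, h => by
    refine ⟨m, by simp, ?_⟩
    by_contra hc
    have hc' : m.testBit e = true := by simpa using hc
    rw [AVc, if_pos hc', Nat.testBit_zero] at h
    simp at h
  | m :: ms, z + 1, h => by
    have h1 : (AVc e ms).testBit z = true := by
      rw [AVc, Nat.testBit_succ] at h
      have h2 : (2 * AVc e ms + (if m.testBit e = true then 0 else 1)) / 2 = AVc e ms := by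
        split_ifs <;> omega
      rwa [h2] at h
    obtain ⟨m', h2, h3⟩ := cv_AVc e ms z h1
    exact ⟨m', by simpa using h2, h3⟩

theorem cv_mask (e : ℕ) : ∀ Z : List ℕ, (mask Z).testBit e = false → ∀ h ∈ Z, h / 2 ≠ e
  | [], _, h, hh => by simp at hh
  | h0 :: Z, hm, h, hh => by
    rw [mask, Nat.testBit_or, Bool.or_eq_false_iff] at hm
    rcases List.mem_cons.1 hh with rfl | hh
    · intro he
      have h2 := hm.2
      rw [he] at h2
      simp at h2
    · exact cv_mask e Z hm.1 h hh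

theorem cover_of (FAM : List (List ℕ)) (AVL : List ℕ)
    (h1 : (List.range 108).map (fun e => AVc e (FAM.map mask)) = AVL) (h2 : allA AVL = true) :
    ∀ a < 108, ∀ b < 108, ∀ c < 108, ∃ Z ∈ FAM, ∀ h ∈ Z, h / 2 ≠ a ∧ h / 2 ≠ b ∧ h / 2 ≠ c := by
  intro a ha b hb c hc
  have hmem : ∀ e < 108, AVc e (FAM.map mask) ∈ AVL := by
    intro e he
    rw [← h1]
    exact List.mem_map.2 ⟨e, List.mem_range.2 he, rfl⟩
  have h3 := cv_A AVL h2 _ (hmem a ha) _ (hmem b hb) _ (hmem c hc)
  obtain ⟨z, hz⟩ := Nat.exists_testBit_of_ne_zero h3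
  rw [Nat.testBit_and, Nat.testBit_and, Bool.and_eq_true, Bool.and_eq_true] at hz
  obtain ⟨ma, ga, ta⟩ := cv_AVc a _ z hz.1.1
  obtain ⟨mb, gb, tb⟩ := cv_AVc b _ z hz.1.2
  obtain ⟨mc, gc, tc⟩ := cv_AVc c _ z hz.2
  rw [ga] at gb gc
  obtain rfl : ma = mb := Option.some.inj gb
  obtain rfl : ma = mc := Option.some.inj gc
  rw [List.getElem?_map, Option.map_eq_some_iff] at ga
  obtain ⟨Z, hZ, rfl⟩ := ga
  exact ⟨Z, List.mem_of_getElem? hZ, fun h hh => ⟨cv_mask a Z ta h hh, cv_mask b Z tb h hh, cv_mask c Z tc h hh⟩⟩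


end Pool.Agent.Helper231.LC
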