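import Mathlib

set_option autoImplicit false
set_option maxRecDepth 100000

namespace Pool.Agent.Helper231.LC

/-! The cubic graph `H` (72 vertices, 108 edges, half edges `0..215`, mates `2k`,`2k+1`;
edges with half edges `< 180` have weight 2, the others weight 1). -/

/-- vertex of a half edge -/
def VT : List ℕ := [18, 28, 19, 29, 20, 24, 21, 25, 22, 26, 23, 27, 18, 15, 19, 16, 20, 17, 21, 12, 22, 13, 23, 14, 24, 14, 25, 15, 26, 16, 27, 17, 28, 12, 29, 13, 12, 34, 13, 35, 14, 30, 15, 31, 16, 32, 17, 33, 30, 35, 31, 30, 32, 31, 33, 32, 34, 33, 35, 34, 36, 21, 37, 22, 38, 23, 39, 18, 40, 19, 41, 20, 36, 37, 37, 38, 38, 39, 39, 40, 40, 41, 41, 36, 48, 58, 49, 59, 50, 54, 51, 55, 52, 56, 53, 57, 48, 45, 49, 46, 50, 47, 51, 42, 52, 43, 53, 44, 54, 44, 55, 45, 56, 46, 57, 47, 58, 42, 59, 43, 42, 64, 43, 65, 44, 60, 45, 61, 46, 62, 47, 63, 60, 65, 61, 60, 62, 61, 63, 62,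 64, 63, 65, 64, 66, 51, 67, 52, 68, 53, 69, 48, 70, 49, 71, 50, 66, 67, 67, 68, 68, 69, 69, 70, 70, 71, 71, 66, 0, 3, 1, 4, 2, 5, 6, 9, 7, 10, 8, 11, 24, 0, 25, 1, 26, 2, 27, 3, 28, 4, 29, 5, 54, 6, 55, 7, 56, 8, 57, 9, 58, 10, 59, 11, 0, 6, 1, 7, 2, 8, 3, 9, 4, 10, 5, 11]
/-- port of a half edge -/
def PT : List ℕ := [0, 0, 0, 0, 0, 0, 0, 0, 0, 0, 0, 0, 1, 0, 1, 0, 1, 0, 1, 0, 1, 0, 1, 0, 1, 1, 1, 1, 1, 1, 1, 1, 1, 1, 1, 1, 2, 0, 2, 0, 2, 0, 2, 0, 2, 0, 2, 0, 1, 1, 1, 2, 1, 2, 1, 2, 1, 2, 2, 2, 0, 2, 0, 2, 0, 2, 0, 2, 0, 2, 0, 2, 1, 1, 2, 1, 2, 1, 2, 1, 2, 1, 2, 2, 0, 0, 0, 0, 0, 0, 0, 0, 0, 0, 0, 0, 1, 0, 1, 0, 1, 0, 1, 0, 1, 0, 1, 0, 1, 1, 1, 1, 1, 1, 1, 1, 1, 1, 1, 1, 2, 0, 2, 0, 2, 0, 2, 0, 2, 0, 2, 0, 1, 1, 1, 2, 1, 2, 1, 2, 1, 2, 2, 2, 0, 2, 0, 2, 0, 2, 0, 2, 0, 2, 0, 2, 1, 1, 2, 1, 2, 1, 2, 1, 2, 1, 2, 2, 0, 0, 0, 0, 0, 0, 0, 0, 0, 0, 0, 0, 2, 1, 2, 1, 2, 1,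 2, 1, 2, 1, 2, 1, 2, 1, 2, 1, 2, 1, 2, 1, 2, 1, 2, 1, 2, 2, 2, 2, 2, 2, 2, 2, 2, 2, 2, 2]
/-- half edge at vertex `v`, port `p`, at index `3*v+p` -/
def HE : List ℕ := [168, 181, 204, 170, 183, 206, 172, 185, 208, 169, 187, 210, 171, 189, 212, 173, 191, 214, 174, 193, 205, 176, 195, 207, 178, 197, 209, 175, 199, 211, 177, 201, 213, 179, 203, 215, 19, 33, 36, 21, 35, 38, 23, 25, 40, 13, 27, 42, 15, 29, 44, 17, 31, 46, 0, 12, 67, 2, 14, 69, 4, 16, 71, 6, 18, 61, 8, 20, 63, 10, 22, 65, 5, 24, 180, 7, 26, 182, 9, 28, 184, 11, 30, 186, 1, 32, 188, 3, 34, 190, 41, 48, 51, 43, 50, 53, 45, 52, 55, 47, 54, 57, 37, 56, 59, 39, 49, 58, 60, 72, 83, 62, 73, 74, 64, 75, 76, 66, 77, 78, 68, 79, 80, 70, 81, 82, 103, 117, 120, 105, 119, 122, 107, 109, 124, 97, 111, 126, 99, 113, 128, 101, 115, 130, 84, 96, 151, 86, 98, 153, 88, 100, 155, 90, 102, 145, 92, 104, 147, 94, 106, 149, 89,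 108, 192, 91, 110, 194, 93, 112, 196, 95, 114, 198, 85, 116, 200, 87, 118, 202, 125, 132, 135, 127, 134, 137, 129, 136, 139, 131, 138, 141, 121, 140, 143, 123, 133, 142, 144, 156, 167, 146, 157, 158, 148, 159, 160, 150, 161, 162, 152, 163, 164, 154, 165, 166]

def vt (h : ℕ) : ℕ := VT.getD h 0
def pt (h : ℕ) : ℕ := PT.getD h 0
def he (v p : ℕ) : ℕ := HE.getD (3 * v + p) 0
/-- mate of a half edge -/
def mt (h : ℕ) : ℕ := if h % 2 = 0 then h + 1 else h - 1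
/-- weight of a half edge -/
def wt (h : ℕ) : ℕ := if h < 180 then 2 else 1

/-- neighbour lists of the 9-vertex gadget (Petersen graph minus a vertex) -/
def DN : List (List ℕ) := [[1,4,5],[0,2,6],[1,3,7],[2,4,8],[0,3],[0,7,8],[1,8],[2,5],[3,5,6]]
/-- the terminal of port `p` -/
def pv (p : ℕ) : ℕ := if p = 0 then 4 else if p = 1 then 6 else 7

/-- vertices of `G` : gadget vertices and tail vertices -/
abbrev V : Type := (Fin 72 × Fin 9) ⊕ (Fin 180 × Fin 4)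

def fv (v i : ℕ) : V := Sum.inl (Fin.ofNat 72 v, Fin.ofNat 9 i)
def tv (h j : ℕ) : V := Sum.inr (Fin.ofNat 180 h, Fin.ofNat 4 j)

/-- first vertex outside the gadget along half edge `h` -/
def ext (h : ℕ) : V := if h < 180 then tv h 0 else fv (vt (mt h)) (pv (pt (mt h)))

def nb : V → List V
  | Sum.inl (v, i) => (DN.getD i.val []).map (fv v.val) ++
      (if i.val = 4 then [ext (he v.val 0)] else if i.val = 6 then [ext (he v.val 1)]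
        else if i.val = 7 then [ext (he v.val 2)] else [])
  | Sum.inr (h, j) => [if j.val = 0 then fv (vt h.val) (pv (pt h.val)) else tv h.val (j.val - 1),
      if j.val = 3 then tv (mt h.val) 3 else tv h.val (j.val + 1)]

def nbOK (x : V) : Bool := (nb x).all (fun y => !(decide (y = x)) && (nb y).any (fun z => decide (z = x)))

theorem nbOK_all : ∀ x : V, nbOK x = true := by decide +kernel

theorem nb_symm {x y : V} (h : y ∈ nb x) : x ∈ nb y := by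
  have h1 := nbOK_all x
  unfold nbOK at h1
  rw [List.all_eq_true] at h1
  have h2 := h1 y h
  rw [Bool.and_eq_true] at h2
  have h3 := h2.2
  rw [List.any_eq_true] at h3
  obtain ⟨z, hz, hzx⟩ := h3
  rw [of_decide_eq_true hzx] at hz
  exact hz

theorem nb_irrefl {x : V} (h : x ∈ nb x) : False := by
  have h1 := nbOK_all x
  unfold nbOK at h1
  rw [List.all_eq_true] at h1
  have h2 := h1 x h
  rw [Bool.and_eq_true] at h2
  have h3 := h2.1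
  rw [decide_eq_true rfl] at h3
  exact absurd h3 (by decide)

/-- the graph `G` -/
def G : SimpleGraph V where
  Adj x y := y ∈ nb x
  symm := ⟨fun _ _ h => nb_symm h⟩
  loopless := ⟨fun _ h => nb_irrefl h⟩

end Pool.Agent.Helper231.LC
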