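import Mathlib

set_option autoImplicit false
set_option maxRecDepth 100000

namespace Pool.Agent.Helper231.LC.Sd


/-! Frontier dynamic program on vertex labels `< 72`; a state is a number with 10-bit fields
`4 * mate' + deg` (`mate' = mate + 1`, or `0` for no information). -/

def fld (c x : ℕ) : ℕ := (c >>> (10 * x)) % 1024

def setf (c x a : ℕ) : ℕ := c ^^^ ((fld c x ^^^ a) <<< (10 * x))

inductive Ins
  | edge (u v cu cn : ℕ)
  | drop (w uw : ℕ)

/-- new code after using the edge `u v` -/
def updC (c u v : ℕ) : ℕ :=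
  let du := fld c u % 4
  let dv := fld c v % 4
  let mu := fld c u / 4
  let mv := fld c v / 4
  let c1 := if du = 0 ∨ mu = 0 then c else setf c (mu - 1) (4 * mv + fld c (mu - 1) % 4)
  let c2 := if dv = 0 ∨ mv = 0 then c1 else setf c1 (mv - 1) (4 * mu + fld c (mv - 1) % 4)
  let c3 := setf c2 u (4 * (if du = 0 then mv else 0) + (du + 1))
  setf c3 v (4 * (if dv = 0 then mu else 0) + (dv + 1))

def edgeStep (B u v cu cn : ℕ) : List (ℕ × ℕ) → List (ℕ × ℕ)
  | [] => []
  | s :: S =>
    let R := edgeStep B u v cu cn S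
    let R1 := if fld s.1 u % 4 < 2 ∧ fld s.1 v % 4 < 2 ∧ fld s.1 u / 4 ≠ v + 1 ∧ s.2 + cu < B
      then (updC s.1 u v, s.2 + cu) :: R else R
    if s.2 + cn < B then (s.1, s.2 + cn) :: R1 else R1

def dropStep (B w uw : ℕ) : List (ℕ × ℕ) → List (ℕ × ℕ)
  | [] => []
  | s :: S =>
    let R := dropStep B w uw S
    if fld s.1 w % 4 = 1 then R
    else if fld s.1 w % 4 = 0 then
      (if s.2 + uw < B then (setf s.1 w 0, s.2 + uw) :: R else R)
    else (if s.2 < B then (setf s.1 w 0, s.2) :: R else R)

/-- merging two lists sorted by code, keeping the smaller cost for equal codes -/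
def mrgAux (x : ℕ × ℕ) (xs : List (ℕ × ℕ)) (rec : List (ℕ × ℕ) → List (ℕ × ℕ)) :
    List (ℕ × ℕ) → List (ℕ × ℕ)
  | [] => x :: xs
  | y :: ys => if x.1 < y.1 then x :: rec (y :: ys)
      else if x.1 = y.1 then (x.1, if x.2 ≤ y.2 then x.2 else y.2) :: rec ys
      else y :: mrgAux x xs rec ys

def mrg : List (ℕ × ℕ) → List (ℕ × ℕ) → List (ℕ × ℕ)
  | [] => fun ys => ys
  | x :: xs => mrgAux x xs (mrg xs)

def pairUp : List (List (ℕ × ℕ)) → List (List (ℕ × ℕ))
  | a :: b :: t => mrg a b :: pairUp t
  | l => l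

def rounds : ℕ → List (List (ℕ × ℕ)) → List (List (ℕ × ℕ))
  | 0, l => l
  | n + 1, l => rounds n (pairUp l)

def norm (S : List (ℕ × ℕ)) : List (ℕ × ℕ) := (rounds 16 (S.map (fun s => [s]))).flatten

def stepI (B : ℕ) : Ins → List (ℕ × ℕ) → List (ℕ × ℕ)
  | .edge u v cu cn, S => edgeStep B u v cu cn S
  | .drop w uw, S => norm (dropStep B w uw S)

def run (B : ℕ) : List Ins → List (ℕ × ℕ) → List (ℕ × ℕ)
  | [], S => S
  | i :: L, S => run B L (stepI B i S)

/-- the edge `u v` occurs in `P` -/
def pres (P : List (ℕ × ℕ)) (u v : ℕ) : Bool :=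
  P.any (fun e => (e.1 == u && e.2 == v) || (e.1 == v && e.2 == u))

def afterP : List Ins → List (ℕ × ℕ) → List (ℕ × ℕ)
  | [], P => P
  | .edge u v _ _ :: L, P => afterP L ((u, v) :: P)
  | .drop _ _ :: L, P => afterP L P

def afterX : List Ins → List ℕ → List ℕ
  | [], X => X
  | .edge _ _ _ _ :: L, X => afterX L X
  | .drop w _ :: L, X => afterX L (X.filter (fun x => x != w))

/-- static well-formedness of a program -/
def wf (nbh : ℕ → List ℕ) : List Ins → List (ℕ × ℕ) → List ℕ → Bool
  | [], _, _ => true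
  | .edge u v _ _ :: L, P, X => (u != v) && !(pres P u v) && ((nbh u).count v == 1) &&
      ((nbh v).count u == 1) && X.contains u && X.contains v && wf nbh L ((u, v) :: P) X
  | .drop w _ :: L, P, X => X.contains w && (nbh w).all (fun x => pres P w x) &&
      wf nbh L P (X.filter (fun x => x != w))

/-- number of used processed edges at `w` -/
def dg (nbh : ℕ → List ℕ) (f : ℕ → ℕ → Bool) (P : List (ℕ × ℕ)) (w : ℕ) : ℕ :=
  (nbh w).countP (fun x => pres P w x && f w x)

/-- connected through used processed edges -/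
def Rch (f : ℕ → ℕ → Bool) (P : List (ℕ × ℕ)) (u v : ℕ) : Prop :=
  Relation.ReflTransGen (fun x y => pres P x y = true ∧ f x y = true) u v

def Inv (nbh : ℕ → List ℕ) (f : ℕ → ℕ → Bool) (P : List (ℕ × ℕ)) (X : List ℕ) (c : ℕ) : Prop :=
  ∀ x ∈ X, fld c x % 4 = dg nbh f P x ∧ ∀ m, fld c x / 4 = m + 1 → Rch f P x m

/-- cost of a solution along the program -/
def cst (f : ℕ → ℕ → Bool) (vis : ℕ → Bool) : List Ins → ℕ
  | [] => 0
  | .edge u v cu cn :: L => (if f u v = true then cu else cn) + cst f vis L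
  | .drop w uw :: L => (if vis w = true then 0 else uw) + cst f vis L

theorem fld_setf (FS : ∀ (c x a y : ℕ), a < 1024 → fld (setf c x a) y = if y = x then a else fld c y)
    (c x a y : ℕ) (ha : a < 1024) :
    fld (setf c x a) y = if y = x then a else fld c y := FS c x a y ha

theorem mem_mrgAux (x : ℕ × ℕ) (xs : List (ℕ × ℕ)) (rec : List (ℕ × ℕ) → List (ℕ × ℕ))
    (hrec : ∀ ys c k, ((c, k) ∈ xs ∨ (c, k) ∈ ys) → ∃ k', k' ≤ k ∧ (c, k') ∈ rec ys) :
    ∀ ys c k, ((c, k) ∈ x :: xs ∨ (c, k) ∈ ys) → ∃ k', k' ≤ k ∧ (c, k') ∈ mrgAux x xs rec ys := by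
  intro ys
  induction ys with
  | nil =>
    intro c k h
    rcases h with h | h
    · exact ⟨k, le_rfl, h⟩
    · simp at h
  | cons y ys ih =>
    intro c k h
    unfold mrgAux
    by_cases h1 : x.1 < y.1
    · rw [if_pos h1]
      rcases h with h | h
      · rw [List.mem_cons] at h
        rcases h with h | h
        · exact ⟨k, le_rfl, by rw [h]; exact List.mem_cons_self⟩
        · obtain ⟨k', hk, hm⟩ := hrec (y :: ys) c k (Or.inl h)
          exact ⟨k', hk, List.mem_cons_of_mem _ hm⟩
      · obtain ⟨k', hk, hm⟩ := hrec (y :: ys) c k (Or.inr h)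
        exact ⟨k', hk, List.mem_cons_of_mem _ hm⟩
    · rw [if_neg h1]
      by_cases h2 : x.1 = y.1
      · rw [if_pos h2]
        have key : ∀ (c k : ℕ), ((c, k) = x ∨ (c, k) = y) →
            c = x.1 ∧ (if x.2 ≤ y.2 then x.2 else y.2) ≤ k := by
          intro c k hh
          rcases hh with hh | hh
          · have e1 : x.1 = c := by rw [← hh]
            have e2 : x.2 = k := by rw [← hh]
            refine ⟨e1.symm, ?_⟩
            split_ifs <;> omega
          · have e1 : y.1 = c := by rw [← hh]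
            have e2 : y.2 = k := by rw [← hh]
            refine ⟨by omega, ?_⟩
            split_ifs <;> omega
        rcases h with h | h
        · rw [List.mem_cons] at h
          rcases h with h | h
          · obtain ⟨e1, e2⟩ := key c k (Or.inl h)
            exact ⟨_, e2, by rw [e1]; exact List.mem_cons_self⟩
          · obtain ⟨k', hk, hm⟩ := hrec ys c k (Or.inl h)
            exact ⟨k', hk, List.mem_cons_of_mem _ hm⟩
        · rw [List.mem_cons] at h
          rcases h with h | h
          · obtain ⟨e1, e2⟩ := key c k (Or.inr h)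
            exact ⟨_, e2, by rw [e1]; exact List.mem_cons_self⟩
          · obtain ⟨k', hk, hm⟩ := hrec ys c k (Or.inr h)
            exact ⟨k', hk, List.mem_cons_of_mem _ hm⟩
      · rw [if_neg h2]
        rcases h with h | h
        · obtain ⟨k', hk, hm⟩ := ih c k (Or.inl h)
          exact ⟨k', hk, List.mem_cons_of_mem _ hm⟩
        · rw [List.mem_cons] at h
          rcases h with h | h
          · exact ⟨k, le_rfl, by rw [h]; exact List.mem_cons_self⟩
          · obtain ⟨k', hk, hm⟩ := ih c k (Or.inr h)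
            exact ⟨k', hk, List.mem_cons_of_mem _ hm⟩

theorem mem_mrg : ∀ xs ys c k, ((c, k) ∈ xs ∨ (c, k) ∈ ys) → ∃ k', k' ≤ k ∧ (c, k') ∈ mrg xs ys := by
  intro xs
  induction xs with
  | nil =>
    intro ys c k h
    rcases h with h | h
    · simp at h
    · exact ⟨k, le_rfl, h⟩
  | cons x xs ih =>
    intro ys c k h
    exact mem_mrgAux x xs (mrg xs) ih ys c k h

theorem mem_pairUp : ∀ (l : List (List (ℕ × ℕ))) (c k : ℕ), (∃ a ∈ l, (c, k) ∈ a) →
    ∃ a ∈ pairUp l, ∃ k', k' ≤ k ∧ (c, k') ∈ a
  | [], c, k, h => by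
    obtain ⟨a, ha, _⟩ := h
    simp at ha
  | [b], c, k, h => by
    obtain ⟨a, ha, hm⟩ := h
    exact ⟨a, ha, k, le_rfl, hm⟩
  | a :: b :: t, c, k, h => by
    obtain ⟨a', ha, hm⟩ := h
    rw [List.mem_cons, List.mem_cons] at ha
    show ∃ a' ∈ mrg a b :: pairUp t, ∃ k', k' ≤ k ∧ (c, k') ∈ a'
    rcases ha with ha | ha | ha
    · obtain ⟨k', hk, h2⟩ := mem_mrg a b c k (Or.inl (ha ▸ hm))
      exact ⟨_, List.mem_cons_self, k', hk, h2⟩
    · obtain ⟨k', hk, h2⟩ := mem_mrg a b c k (Or.inr (ha ▸ hm))
      exact ⟨_, List.mem_cons_self, k', hk, h2⟩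
    · obtain ⟨a2, h1, k', hk, h2⟩ := mem_pairUp t c k ⟨a', ha, hm⟩
      exact ⟨a2, List.mem_cons_of_mem _ h1, k', hk, h2⟩

theorem mem_rounds : ∀ (n : ℕ) (l : List (List (ℕ × ℕ))) (c k : ℕ), (∃ a ∈ l, (c, k) ∈ a) →
    ∃ a ∈ rounds n l, ∃ k', k' ≤ k ∧ (c, k') ∈ a := by
  intro n
  induction n with
  | zero =>
    intro l c k h
    obtain ⟨a, ha, hm⟩ := h
    exact ⟨a, ha, k, le_rfl, hm⟩
  | succ n ih =>
    intro l c k h
    obtain ⟨a, ha, k', hk, hm⟩ := mem_pairUp l c k h
    obtain ⟨a2, ha2, k2, hk2, hm2⟩ := ih (pairUp l) c k' ⟨a, ha, hm⟩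
    exact ⟨a2, ha2, k2, hk2.trans hk, hm2⟩

theorem mem_norm (S : List (ℕ × ℕ)) (s : ℕ × ℕ) (hs : s ∈ S) : ∃ k, k ≤ s.2 ∧ (s.1, k) ∈ norm S := by
  obtain ⟨a, ha, k, hk, hm⟩ := mem_rounds 16 (S.map (fun s => [s])) s.1 s.2
    ⟨[s], List.mem_map.2 ⟨s, hs, rfl⟩, List.mem_singleton.2 rfl⟩
  exact ⟨k, hk, List.mem_flatten.2 ⟨a, ha, hm⟩⟩

theorem mem_edge_used {B u v cu cn : ℕ} {S : List (ℕ × ℕ)} {s : ℕ × ℕ} (hs : s ∈ S)
    (h : fld s.1 u % 4 < 2 ∧ fld s.1 v % 4 < 2 ∧ fld s.1 u / 4 ≠ v + 1 ∧ s.2 + cu < B) :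
    (updC s.1 u v, s.2 + cu) ∈ edgeStep B u v cu cn S := by
  induction S with
  | nil => simp at hs
  | cons a S ih =>
    rw [List.mem_cons] at hs
    unfold edgeStep
    simp only
    rcases hs with hs | hs
    · subst hs
      rw [if_pos h]
      split_ifs
      · exact List.mem_cons_of_mem _ List.mem_cons_self
      · exact List.mem_cons_self
    · have := ih hs
      split_ifs
      · exact List.mem_cons_of_mem _ (List.mem_cons_of_mem _ this)
      · exact List.mem_cons_of_mem _ this
      · exact List.mem_cons_of_mem _ this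
      · exact this

theorem mem_edge_unused {B u v cu cn : ℕ} {S : List (ℕ × ℕ)} {s : ℕ × ℕ} (hs : s ∈ S)
    (h : s.2 + cn < B) :
    (s.1, s.2 + cn) ∈ edgeStep B u v cu cn S := by
  induction S with
  | nil => simp at hs
  | cons a S ih =>
    rw [List.mem_cons] at hs
    unfold edgeStep
    simp only
    rcases hs with hs | hs
    · subst hs
      rw [if_pos h]
      exact List.mem_cons_self
    · have := ih hs
      split_ifs
      · exact List.mem_cons_of_mem _ (List.mem_cons_of_mem _ this)
      · exact List.mem_cons_of_mem _ this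
      · exact List.mem_cons_of_mem _ this
      · exact this

theorem mem_drop0 {B w uw : ℕ} {S : List (ℕ × ℕ)} {s : ℕ × ℕ} (hs : s ∈ S)
    (h0 : fld s.1 w % 4 = 0) (h : s.2 + uw < B) :
    (setf s.1 w 0, s.2 + uw) ∈ dropStep B w uw S := by
  induction S with
  | nil => simp at hs
  | cons a S ih =>
    rw [List.mem_cons] at hs
    unfold dropStep
    simp only
    rcases hs with hs | hs
    · subst hs
      rw [if_neg (by omega), if_pos h0, if_pos h]
      exact List.mem_cons_self
    · have := ih hs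
      split_ifs <;> first | exact this | exact List.mem_cons_of_mem _ this

theorem mem_drop2 {B w uw : ℕ} {S : List (ℕ × ℕ)} {s : ℕ × ℕ} (hs : s ∈ S)
    (h0 : fld s.1 w % 4 = 2) (h : s.2 < B) :
    (setf s.1 w 0, s.2) ∈ dropStep B w uw S := by
  induction S with
  | nil => simp at hs
  | cons a S ih =>
    rw [List.mem_cons] at hs
    unfold dropStep
    simp only
    rcases hs with hs | hs
    · subst hs
      rw [if_neg (by omega), if_neg (by omega), if_pos h]
      exact List.mem_cons_self
    · have := ih hs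
      split_ifs <;> first | exact this | exact List.mem_cons_of_mem _ this

theorem pres_cons (P : List (ℕ × ℕ)) (u v a b : ℕ) : pres ((u, v) :: P) a b =
    (((u == a && v == b) || (u == b && v == a)) || pres P a b) := rfl

theorem pres_symm (P : List (ℕ × ℕ)) (a b : ℕ) : pres P a b = pres P b a := by
  unfold pres
  congr 1
  funext e
  rw [Bool.or_comm]

theorem pres_mono {P : List (ℕ × ℕ)} {u v a b : ℕ} (h : pres P a b = true) :
    pres ((u, v) :: P) a b = true := by
  rw [pres_cons, h, Bool.or_true]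

theorem Rch_mono {f : ℕ → ℕ → Bool} {P : List (ℕ × ℕ)} {u v a b : ℕ} (h : Rch f P a b) :
    Rch f ((u, v) :: P) a b := by
  unfold Rch at *
  induction h with
  | refl => exact Relation.ReflTransGen.refl
  | tail _ h2 ih => exact ih.tail ⟨pres_mono h2.1, h2.2⟩

theorem Rch_symm {f : ℕ → ℕ → Bool} (hf : ∀ x y, f x y = f y x) {P : List (ℕ × ℕ)} {a b : ℕ}
    (h : Rch f P a b) : Rch f P b a := by
  unfold Rch at *
  induction h with
  | refl => exact Relation.ReflTransGen.refl
  | tail _ h2 ih =>
    refine Relation.ReflTransGen.trans (Relation.ReflTransGen.single ⟨?_, ?_⟩) ih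
    · rw [pres_symm]; exact h2.1
    · rw [hf]; exact h2.2

theorem Rch_edge {f : ℕ → ℕ → Bool} {P : List (ℕ × ℕ)} {u v : ℕ} (h : f u v = true) :
    Rch f ((u, v) :: P) u v := by
  refine Relation.ReflTransGen.single ⟨?_, h⟩
  rw [pres_cons]
  simp

theorem countP_add (p q : ℕ → Bool) (v : ℕ) (l : List ℕ) (h1 : ∀ x, x ≠ v → q x = p x)
    (h2 : p v = false) (h3 : q v = true) : l.countP q = l.countP p + l.count v := by
  induction l with
  | nil => simp
  | cons x l ih =>
    rw [List.countP_cons, List.countP_cons, List.count_cons, ih]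
    by_cases hx : x = v
    · subst hx
      simp [h2, h3]
      omega
    · rw [h1 x hx]
      have : (x == v) = false := by simpa using hx
      rw [this]
      simp
      omega

theorem dg_unused {nbh : ℕ → List ℕ} {f : ℕ → ℕ → Bool} (hf : ∀ x y, f x y = f y x)
    {P : List (ℕ × ℕ)} {u v : ℕ} (h : f u v = false) (w : ℕ) :
    dg nbh f ((u, v) :: P) w = dg nbh f P w := by
  unfold dg
  apply List.countP_congr
  intro x _
  rw [pres_cons]
  simp only [Bool.and_eq_true, Bool.or_eq_true, beq_iff_eq]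
  constructor
  · rintro ⟨(⟨h1, h2⟩ | ⟨h1, h2⟩) | h1, h3⟩
    · rw [← h1, ← h2, h] at h3; exact absurd h3 (by simp)
    · rw [← h1, ← h2, hf, h] at h3; exact absurd h3 (by simp)
    · exact ⟨h1, h3⟩
  · rintro ⟨h1, h3⟩
    exact ⟨Or.inr h1, h3⟩

theorem dg_other {nbh : ℕ → List ℕ} {f : ℕ → ℕ → Bool}
    {P : List (ℕ × ℕ)} {u v : ℕ} (w : ℕ) (hu : w ≠ u) (hv : w ≠ v) :
    dg nbh f ((u, v) :: P) w = dg nbh f P w := by
  unfold dg
  apply List.countP_congr
  intro x _
  rw [pres_cons]
  simp only [Bool.and_eq_true, Bool.or_eq_true, beq_iff_eq]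
  constructor
  · rintro ⟨(⟨h1, h2⟩ | ⟨h1, h2⟩) | h1, h3⟩
    · exact absurd h1.symm hu
    · exact absurd h2.symm hv
    · exact ⟨h1, h3⟩
  · rintro ⟨h1, h3⟩
    exact ⟨Or.inr h1, h3⟩

theorem dg_left {nbh : ℕ → List ℕ} {f : ℕ → ℕ → Bool}
    {P : List (ℕ × ℕ)} {u v : ℕ} (huv : u ≠ v) (hf : f u v = true) (hp : pres P u v = false)
    (hc : (nbh u).count v = 1) :
    dg nbh f ((u, v) :: P) u = dg nbh f P u + 1 := by
  unfold dg
  rw [← hc]
  apply countP_add
  · intro x hx
    rw [pres_cons]
    have h1 : (v == x) = false := by simpa using (Ne.symm hx)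
    have h2 : (v == u) = false := by simpa using (Ne.symm huv)
    rw [h1, h2]
    simp
  · rw [hp]; simp
  · rw [pres_cons, hf]; simp

theorem dg_right {nbh : ℕ → List ℕ} {f : ℕ → ℕ → Bool} (hs : ∀ x y, f x y = f y x)
    {P : List (ℕ × ℕ)} {u v : ℕ} (huv : u ≠ v) (hf : f u v = true) (hp : pres P u v = false)
    (hc : (nbh v).count u = 1) :
    dg nbh f ((u, v) :: P) v = dg nbh f P v + 1 := by
  unfold dg
  rw [← hc]
  apply countP_add
  · intro x hx
    rw [pres_cons]
    have h1 : (u == x) = false := by simpa using (Ne.symm hx)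
    have h2 : (u == v) = false := by simpa using huv
    rw [h1, h2]
    simp
  · rw [pres_symm, hp]; simp
  · rw [pres_cons, hs, hf]; simp

theorem dg_le {nbh : ℕ → List ℕ} {f : ℕ → ℕ → Bool} (P : List (ℕ × ℕ)) (w : ℕ) :
    dg nbh f P w ≤ (nbh w).countP (f w) := by
  unfold dg
  apply List.countP_mono_left
  intro x _ h
  rw [Bool.and_eq_true] at h
  exact h.2

theorem fld_lt (c x : ℕ) : fld c x < 1024 := Nat.mod_lt _ (by norm_num)

theorem Inv_upd (FS : ∀ (c x a y : ℕ), a < 1024 → fld (setf c x a) y = if y = x then a else fld c y)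
    {nbh : ℕ → List ℕ} {f : ℕ → ℕ → Bool} (hs : ∀ x y, f x y = f y x)
    (h2 : ∀ w, (nbh w).countP (f w) ≤ 2) {P : List (ℕ × ℕ)} {X : List ℕ} {c u v : ℕ}
    (huv : u ≠ v) (hf : f u v = true) (hp : pres P u v = false)
    (hc1 : (nbh u).count v = 1) (hc2 : (nbh v).count u = 1) (hu : u ∈ X) (hv : v ∈ X)
    (hI : Inv nbh f P X c) : Inv nbh f ((u, v) :: P) X (updC c u v) := by
  obtain ⟨hu1, hu2⟩ := hI u hu
  obtain ⟨hv1, hv2⟩ := hI v hv
  have du1 : dg nbh f P u + 1 ≤ 2 := by
    rw [← dg_left huv hf hp hc1]; exact (dg_le _ _).trans (h2 u)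
  have dv1 : dg nbh f P v + 1 ≤ 2 := by
    rw [← dg_right hs huv hf hp hc2]; exact (dg_le _ _).trans (h2 v)
  have hfu := fld_lt c u
  have hfv := fld_lt c v
  have Euv : Rch f ((u, v) :: P) u v := Rch_edge hf
  have Evu : Rch f ((u, v) :: P) v u := Rch_symm hs Euv
  intro x hx
  obtain ⟨hx1, hx2⟩ := hI x hx
  unfold updC
  simp only
  rw [FS _ v _ _ (by split_ifs <;> omega)]
  by_cases hxv : x = v
  · subst hxv
    rw [if_pos rfl, dg_right hs huv hf hp hc2]
    refine ⟨by omega, ?_⟩
    intro m hm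
    by_cases hd : fld c x % 4 = 0
    · rw [if_pos hd] at hm
      have : fld c u / 4 = m + 1 := by omega
      exact Relation.ReflTransGen.trans Evu (Rch_mono (hu2 m this))
    · rw [if_neg hd] at hm
      omega
  · rw [if_neg hxv, FS _ u _ _ (by split_ifs <;> omega)]
    by_cases hxu : x = u
    · subst hxu
      rw [if_pos rfl, dg_left huv hf hp hc1]
      refine ⟨by omega, ?_⟩
      intro m hm
      by_cases hd : fld c x % 4 = 0
      · rw [if_pos hd] at hm
        have : fld c v / 4 = m + 1 := by omega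
        exact Relation.ReflTransGen.trans Euv (Rch_mono (hv2 m this))
      · rw [if_neg hd] at hm
        omega
    · rw [if_neg hxu, dg_other x hxu hxv]
      -- the field of c1
      have hc1f : ∀ c1, c1 = (if fld c u % 4 = 0 ∨ fld c u / 4 = 0 then c else
          setf c (fld c u / 4 - 1) (4 * (fld c v / 4) + fld c (fld c u / 4 - 1) % 4)) →
          fld c1 x % 4 = dg nbh f P x ∧ ∀ m, fld c1 x / 4 = m + 1 → Rch f ((u, v) :: P) x m := by
        intro c1 hc1
        by_cases hcond : fld c u % 4 = 0 ∨ fld c u / 4 = 0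
        · rw [if_pos hcond] at hc1
          rw [hc1]
          exact ⟨hx1, fun m hm => Rch_mono (hx2 m hm)⟩
        · rw [if_neg hcond] at hc1
          rw [hc1, FS _ _ _ _ (by omega)]
          by_cases hxm : x = fld c u / 4 - 1
          · rw [if_pos hxm, ← hxm]
            refine ⟨by omega, ?_⟩
            intro m hm
            have e1 : fld c v / 4 = m + 1 := by omega
            have e2 : fld c u / 4 = x + 1 := by omega
            exact Relation.ReflTransGen.trans (Rch_mono (Rch_symm hs (hu2 x e2)))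
              (Relation.ReflTransGen.trans Euv (Rch_mono (hv2 m e1)))
          · rw [if_neg hxm]
            exact ⟨hx1, fun m hm => Rch_mono (hx2 m hm)⟩
      by_cases hcond : fld c v % 4 = 0 ∨ fld c v / 4 = 0
      · rw [if_pos hcond]
        exact hc1f _ rfl
      · rw [if_neg hcond, FS _ _ _ _ (by omega)]
        by_cases hxm : x = fld c v / 4 - 1
        · rw [if_pos hxm, ← hxm]
          refine ⟨by omega, ?_⟩
          intro m hm
          have e1 : fld c u / 4 = m + 1 := by omega
          have e2 : fld c v / 4 = x + 1 := by omega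
          exact Relation.ReflTransGen.trans (Rch_mono (Rch_symm hs (hv2 x e2)))
            (Relation.ReflTransGen.trans Evu (Rch_mono (hu2 m e1)))
        · rw [if_neg hxm]
          exact hc1f _ rfl

/-- soundness of the frontier dynamic program -/
theorem run_sound (FS : ∀ (c x a y : ℕ), a < 1024 → fld (setf c x a) y = if y = x then a else fld c y) :
    ∀ (nbh : ℕ → List ℕ) (f : ℕ → ℕ → Bool) (vis : ℕ → Bool)
    (_ : ∀ x y, f x y = f y x)
    (_ : ∀ w, (nbh w).countP (f w) ≤ 2)
    (_ : ∀ (P : List (ℕ × ℕ)) (u v : ℕ), f u v = true → pres P u v = false → ¬ Rch f P u v)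
    (B : ℕ) (L : List Ins) (P : List (ℕ × ℕ)) (X : List ℕ) (S : List (ℕ × ℕ)) (K : ℕ)
    (_ : wf nbh L P X = true)
    (_ : ∀ w uw, Ins.drop w uw ∈ L → (nbh w).countP (f w) = if vis w = true then 2 else 0)
    (_ : ∃ s ∈ S, Inv nbh f P X s.1 ∧ s.2 ≤ K),
    B ≤ K + cst f vis L ∨
    ∃ s ∈ run B L S, Inv nbh f (afterP L P) (afterX L X) s.1 ∧ s.2 ≤ K + cst f vis L := by
  intro nbh f vis hs h2 hac B L
  induction L with
  | nil =>
    intro P X S K _ _ hS
    right
    obtain ⟨s, h1, h3, h4⟩ := hS
    exact ⟨s, h1, h3, by simpa [cst] using h4⟩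
  | cons i L ih =>
    intro P X S K hwf hdr hS
    obtain ⟨s, hsS, hI, hK⟩ := hS
    cases i with
    | edge u v cu cn =>
      have hwf' : (((((((u != v) && !(pres P u v)) && ((nbh u).count v == 1)) &&
        ((nbh v).count u == 1)) && X.contains u) && X.contains v) && wf nbh L ((u, v) :: P) X) = true :=
        hwf
      simp only [Bool.and_eq_true, bne_iff_ne, ne_eq, Bool.not_eq_true', beq_iff_eq,
        List.contains_iff_mem] at hwf'
      obtain ⟨⟨⟨⟨⟨⟨huv, hp⟩, hc1⟩, hc2⟩, hu⟩, hv⟩, hwfL⟩ := hwf'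
      have hdr' : ∀ w uw, Ins.drop w uw ∈ L →
          (nbh w).countP (f w) = if vis w = true then 2 else 0 :=
        fun w uw h => hdr w uw (List.mem_cons_of_mem _ h)
      show B ≤ K + ((if f u v = true then cu else cn) + cst f vis L) ∨
        ∃ s ∈ run B L (edgeStep B u v cu cn S),
          Inv nbh f (afterP L ((u, v) :: P)) (afterX L X) s.1 ∧
            s.2 ≤ K + ((if f u v = true then cu else cn) + cst f vis L)
      by_cases hf : f u v = true
      · rw [if_pos hf]
        by_cases hB : s.2 + cu < B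
        · have hcond : fld s.1 u % 4 < 2 ∧ fld s.1 v % 4 < 2 ∧ fld s.1 u / 4 ≠ v + 1 ∧
              s.2 + cu < B := by
            refine ⟨?_, ?_, ?_, hB⟩
            · rw [(hI u hu).1]
              have : dg nbh f P u + 1 ≤ 2 := by
                rw [← dg_left huv hf hp hc1]; exact (dg_le _ _).trans (h2 u)
              omega
            · rw [(hI v hv).1]
              have : dg nbh f P v + 1 ≤ 2 := by
                rw [← dg_right hs huv hf hp hc2]; exact (dg_le _ _).trans (h2 v)
              omega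
            · intro hm
              exact hac P u v hf hp ((hI u hu).2 v hm)
          have := ih ((u, v) :: P) X (edgeStep B u v cu cn S) (K + cu) hwfL hdr'
            ⟨_, mem_edge_used hsS hcond, Inv_upd FS hs h2 huv hf hp hc1 hc2 hu hv hI, by
              show s.2 + cu ≤ K + cu
              omega⟩
          rw [← Nat.add_assoc]
          exact this
        · left; omega
      · rw [if_neg hf]
        have hf' : f u v = false := by simpa using hf
        by_cases hB : s.2 + cn < B
        · have hI' : Inv nbh f ((u, v) :: P) X s.1 := by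
            intro x hx
            rw [dg_unused hs hf']
            exact ⟨(hI x hx).1, fun m hm => Rch_mono ((hI x hx).2 m hm)⟩
          have := ih ((u, v) :: P) X (edgeStep B u v cu cn S) (K + cn) hwfL hdr'
            ⟨_, mem_edge_unused hsS hB, hI', by
              show s.2 + cn ≤ K + cn
              omega⟩
          rw [← Nat.add_assoc]
          exact this
        · left; omega
    | drop w uw =>
      have hwf' : ((X.contains w && (nbh w).all (fun x => pres P w x)) &&
        wf nbh L P (X.filter (fun x => x != w))) = true := hwf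
      simp only [Bool.and_eq_true, List.all_eq_true, List.contains_iff_mem] at hwf'
      obtain ⟨⟨hwX, hall⟩, hwfL⟩ := hwf'
      have hdr' : ∀ w uw, Ins.drop w uw ∈ L →
          (nbh w).countP (f w) = if vis w = true then 2 else 0 :=
        fun w uw h => hdr w uw (List.mem_cons_of_mem _ h)
      have hcount := hdr w uw List.mem_cons_self
      have hdg : dg nbh f P w = (nbh w).countP (f w) := by
        unfold dg
        apply List.countP_congr
        intro x hx
        rw [hall x hx]
        simp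
      have hfw : fld s.1 w % 4 = if vis w = true then 2 else 0 := by
        rw [(hI w hwX).1, hdg, hcount]
      have hI' : Inv nbh f P (X.filter (fun x => x != w)) (setf s.1 w 0) := by
        intro x hx
        rw [List.mem_filter, bne_iff_ne] at hx
        rw [FS _ _ _ _ (by norm_num), if_neg hx.2]
        exact hI x hx.1
      show B ≤ K + ((if vis w = true then 0 else uw) + cst f vis L) ∨
        ∃ s ∈ run B L (norm (dropStep B w uw S)),
          Inv nbh f (afterP L P) (afterX L (X.filter (fun x => x != w))) s.1 ∧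
            s.2 ≤ K + ((if vis w = true then 0 else uw) + cst f vis L)
      by_cases hvis : vis w = true
      · rw [if_pos hvis] at hfw ⊢
        by_cases hB : s.2 < B
        · obtain ⟨k, hk, hm⟩ := mem_norm _ _ (mem_drop2 (uw := uw) hsS hfw hB)
          have := ih P (X.filter (fun x => x != w)) (norm (dropStep B w uw S)) K hwfL hdr'
            ⟨_, hm, hI', hk.trans hK⟩
          rw [Nat.zero_add]
          exact this
        · left; omega
      · rw [if_neg hvis] at hfw ⊢
        by_cases hB : s.2 + uw < B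
        · obtain ⟨k, hk, hm⟩ := mem_norm _ _ (mem_drop0 hsS hfw hB)
          have := ih P (X.filter (fun x => x != w)) (norm (dropStep B w uw S)) (K + uw) hwfL hdr'
            ⟨_, hm, hI', by
              have h5 : k ≤ s.2 + uw := hk
              show k ≤ K + uw
              omega⟩
          rw [← Nat.add_assoc]
          exact this
        · left; omega


end Pool.Agent.Helper231.LC.Sd
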