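import Pool.Agent.Helper231.LC.Cover
import Pool.Agent.Helper231.LC.FamData

set_option autoImplicit false
set_option maxRecDepth 1000000

namespace Pool.Agent.Helper231.LC

theorem avl_ok : (List.range 108).map (fun e => AVc e (FAM.map mask)) = AVL := by decide +kernel

theorem allA_ok : allA AVL = true := by decide +kernel

theorem fam_cover : ∀ a < 108, ∀ b < 108, ∀ c < 108,
    ∃ Z ∈ FAM, ∀ h ∈ Z, h / 2 ≠ a ∧ h / 2 ≠ b ∧ h / 2 ≠ c :=
  cover_of FAM AVL avl_ok allA_ok

end Pool.Agent.Helper231.LC
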