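import Pool.Agent.Helper231.LC.LowerOf
import Pool.Agent.Helper231.LC.FamData

set_option autoImplicit false
set_option maxRecDepth 1000000

namespace Pool.Agent.Helper231.LC

theorem fam_all2 : ((FAM.drop 144).take 72).all (fun Z => Lo.okZ Z) = true := by decide +kernel

end Pool.Agent.Helper231.LC
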