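import Pool.Agent.Helper231.LC.FamOK0
import Pool.Agent.Helper231.LC.FamOK1
import Pool.Agent.Helper231.LC.FamOK2
import Pool.Agent.Helper231.LC.FamOK3
import Pool.Agent.Helper231.LC.FamOK4
import Pool.Agent.Helper231.LC.FamOK5

set_option autoImplicit false
set_option maxRecDepth 1000000

namespace Pool.Agent.Helper231.LC

theorem all_step {α : Type} (p : α → Bool) (l : List α) (a b : ℕ)
    (h1 : ((l.drop a).take b).all p = true) (h2 : (l.drop (a + b)).all p = true) :
    (l.drop a).all p = true := by
  have e : l.drop a = (l.drop a).take b ++ l.drop (a + b) := by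
    rw [← List.drop_drop, List.take_append_drop]
  rw [e, List.all_append, h1, h2]
  rfl

theorem fam_len : FAM.length = 431 := by decide +kernel

theorem fam_all : FAM.all (fun Z => Lo.okZ Z) = true := by
  have h6 : (FAM.drop 432).all (fun Z => Lo.okZ Z) = true := by
    rw [List.drop_eq_nil_of_le (by rw [fam_len]; decide)]
    rfl
  have h5 := all_step (fun Z => Lo.okZ Z) FAM 360 72 fam_all5 h6
  have h4 := all_step (fun Z => Lo.okZ Z) FAM 288 72 fam_all4 h5
  have h3 := all_step (fun Z => Lo.okZ Z) FAM 216 72 fam_all3 h4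
  have h2 := all_step (fun Z => Lo.okZ Z) FAM 144 72 fam_all2 h3
  have h1 := all_step (fun Z => Lo.okZ Z) FAM 72 72 fam_all1 h2
  have h0 := all_step (fun Z => Lo.okZ Z) FAM 0 72 fam_all0 h1
  rw [List.drop_zero] at h0
  exact h0

theorem fam_ok : ∀ Z ∈ FAM, Lo.okZ Z = true := by
  have h := fam_all
  rw [List.all_eq_true] at h
  exact h

end Pool.Agent.Helper231.LC
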