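import Pool.Agent.Helper231.LC.ProgB
import Pool.Agent.Helper231.LC.TabB3
import Pool.Agent.Helper231.LC.TabB4

set_option autoImplicit false
set_option maxRecDepth 1000000

namespace Pool.Agent.Helper231.LC
open Sd

theorem runB4 : run 28 (mkI PB4) TB3 = TB4 := by decide +kernel

end Pool.Agent.Helper231.LC
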