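import Pool.Agent.Helper231.LC.Data

set_option autoImplicit false
set_option maxRecDepth 100000

namespace Pool.Agent.Helper231.LC
open Sd

theorem runF1 : run 42 (mkI (PF 1)) prodT = [] := by decide +kernel

end Pool.Agent.Helper231.LC
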