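import Pool.Agent.Helper231.LC.RunA1
import Pool.Agent.Helper231.LC.RunA2
import Pool.Agent.Helper231.LC.RunA3
import Pool.Agent.Helper231.LC.RunA4
import Pool.Agent.Helper231.LC.RunA5
import Pool.Agent.Helper231.LC.RunB1
import Pool.Agent.Helper231.LC.RunB2
import Pool.Agent.Helper231.LC.RunB3
import Pool.Agent.Helper231.LC.RunB4
import Pool.Agent.Helper231.LC.RunB5
import Pool.Agent.Helper231.LC.RunF0
import Pool.Agent.Helper231.LC.RunF1
import Pool.Agent.Helper231.LC.RunF2
import Pool.Agent.Helper231.LC.RunF3
import Pool.Agent.Helper231.LC.RunF4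
import Pool.Agent.Helper231.LC.RunF5
import Pool.Agent.Helper231.LC.Assembly

set_option autoImplicit false
set_option maxRecDepth 100000

namespace Pool.Agent.Helper231.LC
open Sd

theorem runA : run 28 (mkI PA) [(cA0, 0)] = TA := by
  rw [PA_split, mkI_append, mkI_append, mkI_append, mkI_append, run_append, run_append, run_append,
    run_append, runA1, runA2, runA3, runA4, runA5]

theorem runB : run 28 (mkI PB) [(cB0, 0)] = TB := by
  rw [PB_split, mkI_append, mkI_append, mkI_append, mkI_append, run_append, run_append, run_append,
    run_append, runB1, runB2, runB3, runB4, runB5]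

theorem runF : ∀ j < 6, run 42 (mkI (PF j)) prodT = [] := by
  intro j hj
  interval_cases j
  · exact runF0
  · exact runF1
  · exact runF2
  · exact runF3
  · exact runF4
  · exact runF5

theorem upper : ∀ (w : V) (d : G.Walk w w), d.IsCycle → d.length ≤ 1040 :=
  upper_of_runs runA runB runF

end Pool.Agent.Helper231.LC
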