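import Mathlib

set_option autoImplicit false
set_option maxRecDepth 100000

namespace Pool.Agent.Helper231.LC.Fd


def fld (c x : ℕ) : ℕ := (c >>> (10 * x)) % 1024

def setf (c x a : ℕ) : ℕ := c ^^^ ((fld c x ^^^ a) <<< (10 * x))

theorem fld_tb (c y i : ℕ) : (fld c y).testBit i = (decide (i < 10) && c.testBit (10 * y + i)) := by
  unfold fld
  rw [show (1024 : ℕ) = 2 ^ 10 from rfl, Nat.testBit_mod_two_pow, Nat.testBit_shiftRight]

theorem tb_big (a i : ℕ) (ha : a < 1024) (hi : 10 ≤ i) : a.testBit i = false := by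
  apply Nat.testBit_eq_false_of_lt
  exact lt_of_lt_of_le ha (by
    calc (1024 : ℕ) = 2 ^ 10 := rfl
      _ ≤ 2 ^ i := Nat.pow_le_pow_right (by norm_num) hi)

theorem fld_setf (c x a y : ℕ) (ha : a < 1024) :
    fld (setf c x a) y = if y = x then a else fld c y := by
  apply Nat.eq_of_testBit_eq
  intro i
  rw [fld_tb]
  unfold setf
  rw [Nat.testBit_xor, Nat.testBit_shiftLeft, Nat.testBit_xor, fld_tb]
  by_cases hi : i < 10
  · by_cases hyx : y = x
    · subst hyx
      rw [if_pos rfl]
      have e : 10 * y + i - 10 * y = i := by omega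
      rw [e]
      simp [hi]
    · rw [if_neg hyx, fld_tb]
      rcases lt_or_gt_of_ne hyx with h | h
      · have h1 : ¬ (10 * y + i ≥ 10 * x) := by omega
        simp [h1]
      · have h2 : ¬ (10 * y + i - 10 * x < 10) := by omega
        have h3 : a.testBit (10 * y + i - 10 * x) = false := tb_big a _ ha (by omega)
        simp [h2, h3]
  · have h4 : a.testBit i = false := tb_big a i ha (by omega)
    by_cases hyx : y = x
    · rw [if_pos hyx]
      simp [hi, h4]
    · rw [if_neg hyx, fld_tb]
      simp [hi]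

theorem fld_xor (c c' y : ℕ) : fld (c ^^^ c') y = fld c y ^^^ fld c' y := by
  apply Nat.eq_of_testBit_eq
  intro i
  rw [Nat.testBit_xor, fld_tb, fld_tb, fld_tb, Nat.testBit_xor]
  by_cases hi : i < 10 <;> simp [hi]

theorem fld_lt (c y : ℕ) : fld c y < 1024 := Nat.mod_lt _ (by norm_num)


end Pool.Agent.Helper231.LC.Fd
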