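import Pool.Agent.Helper231.LC.Defs

set_option autoImplicit false
set_option maxRecDepth 100000

namespace Pool.Agent.Helper231.LC.Gl

/-! 8-vertex passes through the gadget from the terminal of port `p` to that of port `q`,
missing the vertex `m` when that is possible. -/
def base01 (m : ℕ) : List ℕ := if m = 1 then [4,0,5,7,2,3,8,6] else if m = 3 then [4,0,1,2,7,5,8,6]
  else if m = 7 then [4,0,5,8,3,2,1,6] else if m = 8 then [4,3,2,7,5,0,1,6] else [4,3,8,5,7,2,1,6]
def base02 (m : ℕ) : List ℕ := if m = 2 then [4,3,8,6,1,0,5,7] else if m = 3 then [4,0,5,8,6,1,2,7]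
  else if m = 5 then [4,0,1,6,8,3,2,7] else if m = 6 then [4,0,1,2,3,8,5,7] else [4,3,2,1,6,8,5,7]
def base12 (m : ℕ) : List ℕ := if m = 1 then [6,8,5,0,4,3,2,7] else if m = 2 then [6,1,0,4,3,8,5,7]
  else if m = 4 then [6,8,3,2,1,0,5,7] else if m = 5 then [6,8,3,4,0,1,2,7] else [6,1,2,3,4,0,5,7]
def gp (p q m : ℕ) : List ℕ :=
  if p = 0 ∧ q = 1 then base01 m else if p = 1 ∧ q = 0 then (base01 m).reverse
  else if p = 0 ∧ q = 2 then base02 m else if p = 2 ∧ q = 0 then (base02 m).reverse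
  else if p = 1 ∧ q = 2 then base12 m else (base12 m).reverse

/-- block of the cycle of `G` for consecutive outgoing half edges `a`, `b` -/
def blk (a b m : ℕ) : List V := (gp (pt (mt a)) (pt b) m).map (fv (vt b)) ++
  (if b < 180 then [tv b 0, tv b 1, tv b 2, tv b 3, tv (mt b) 3, tv (mt b) 2, tv (mt b) 1, tv (mt b) 0]
    else [])

/-- cyclically consecutive pairs -/
def prv (Z : List ℕ) : List (ℕ × ℕ) := (Z.getLast?.getD 0 :: Z.dropLast).zip Z

def glist (Z : List ℕ) (μ : ℕ → ℕ) : List V := (prv Z).flatMap (fun p => blk p.1 p.2 (μ (vt p.2)))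

/-- `Z` lists the outgoing half edges of a cycle of `H` of weight 130 -/
def okZ (Z : List ℕ) : Bool :=
  decide (3 ≤ Z.length) && Z.all (fun h => decide (h < 216)) && decide (Z.map vt).Nodup &&
  (prv Z).all (fun p => decide (vt (mt p.1) = vt p.2) && decide (mt p.1 ≠ p.2)) &&
  decide ((Z.map (fun b => 8 + (if b < 180 then 8 else 0))).sum = 1040)

/-- a closed list of distinct vertices gives a cycle (proved elsewhere) -/
def ListCyc : Prop := ∀ (l : List V), 3 ≤ l.length → l.Nodup → List.IsChain G.Adj l →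
    (∀ x ∈ l.getLast?, ∀ y ∈ l.head?, G.Adj x y) →
    ∃ (u : V) (c : G.Walk u u), c.IsCycle ∧ c.length = l.length ∧ ∀ x ∈ c.support, x ∈ l

/-- tail part of a block -/
def hSeg (b : ℕ) : List V := if b < 180 then [tv b 0, tv b 1, tv b 2, tv b 3, tv (mt b) 3,
  tv (mt b) 2, tv (mt b) 1, tv (mt b) 0] else []

def hCh : List V → Bool
  | [] => true
  | [_] => true
  | x :: y :: l => (nb x).any (fun z => decide (z = y)) && hCh (y :: l)

def hChN : List ℕ → Bool
  | [] => true
  | [_] => true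
  | x :: y :: l => (DN.getD x []).any (fun z => decide (z = y)) && hChN (y :: l)

def hOk (p q : ℕ) (l : List ℕ) : Bool :=
  decide (l.length = 8) && decide l.Nodup && l.all (fun x => decide (x < 9)) &&
    decide (l.head? = some (pv p)) && decide (l.getLast? = some (pv q)) && hChN l

theorem hCh_chain : ∀ l : List V, hCh l = true → List.IsChain G.Adj l
  | [], _ => by simp
  | [_], _ => by simp
  | x :: y :: l, h => by
    unfold hCh at h
    rw [Bool.and_eq_true, List.any_eq_true] at h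
    obtain ⟨⟨z, hz, hzy⟩, h2⟩ := h
    rw [of_decide_eq_true hzy] at hz
    rw [List.isChain_cons_cons]
    exact ⟨hz, hCh_chain (y :: l) h2⟩

theorem hChN_chain : ∀ l : List ℕ, hChN l = true →
    List.IsChain (fun i j => j ∈ DN.getD i []) l
  | [], _ => by simp
  | [_], _ => by simp
  | x :: y :: l, h => by
    unfold hChN at h
    rw [Bool.and_eq_true, List.any_eq_true] at h
    obtain ⟨⟨z, hz, hzy⟩, h2⟩ := h
    rw [of_decide_eq_true hzy] at hz
    rw [List.isChain_cons_cons]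
    exact ⟨hz, hChN_chain (y :: l) h2⟩

theorem h_base01 (m : ℕ) : base01 m = base01 (min m 9) := by
  rcases lt_or_ge m 9 with h | h
  · rw [min_eq_left (by omega)]
  · rw [min_eq_right h]; unfold base01
    rw [if_neg (by omega), if_neg (by omega), if_neg (by omega), if_neg (by omega)]
    rfl

theorem h_base02 (m : ℕ) : base02 m = base02 (min m 9) := by
  rcases lt_or_ge m 9 with h | h
  · rw [min_eq_left (by omega)]
  · rw [min_eq_right h]; unfold base02
    rw [if_neg (by omega), if_neg (by omega), if_neg (by omega), if_neg (by omega)]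
    rfl

theorem h_base12 (m : ℕ) : base12 m = base12 (min m 9) := by
  rcases lt_or_ge m 9 with h | h
  · rw [min_eq_left (by omega)]
  · rw [min_eq_right h]; unfold base12
    rw [if_neg (by omega), if_neg (by omega), if_neg (by omega), if_neg (by omega)]
    rfl

theorem h_gp (p q m : ℕ) : gp p q m = gp p q (min m 9) := by
  unfold gp
  rw [h_base01 m, h_base02 m, h_base12 m]

theorem hOk_tab : ∀ p < 3, ∀ q < 3, p ≠ q → ∀ m < 10, hOk p q (gp p q m) = true := by
  decide +kernel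

theorem hOk_all (p q m : ℕ) (hp : p < 3) (hq : q < 3) (hpq : p ≠ q) :
    hOk p q (gp p q m) = true := by
  rw [h_gp]
  exact hOk_tab p hp q hq hpq _ (by have := min_le_right m 9; omega)

theorem h_tab1 : ∀ b < 216, vt b < 72 ∧ pt b < 3 ∧ mt b < 216 ∧ mt (mt b) = b ∧
    (b < 180 → mt b < 180) ∧ he (vt b) (pt b) = b := by
  decide +kernel

theorem h_tab2 : ∀ b < 216, hCh (fv (vt b) (pv (pt b)) :: (hSeg b ++
    [fv (vt (mt b)) (pv (pt (mt b)))])) = true := by
  decide +kernel

theorem h_tab3 : ∀ b < 216, (hSeg b).Nodup := by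
  decide +kernel

theorem h_seg_len (b : ℕ) : (hSeg b).length = if b < 180 then 8 else 0 := by
  unfold hSeg
  split_ifs <;> rfl

theorem h_seg_mem (b : ℕ) (hb : b < 216) (x : V) (hx : x ∈ hSeg b) :
    ∃ h j, x = Sum.inr (h, j) ∧ b < 180 ∧ (h.val = b ∨ h.val = mt b) := by
  unfold hSeg at hx
  split_ifs at hx with h1
  · have h2 := (h_tab1 b hb).2.2.2.2.1 h1
    have e1 : (Fin.ofNat 180 b).val = b := Nat.mod_eq_of_lt h1
    have e2 : (Fin.ofNat 180 (mt b)).val = mt b := Nat.mod_eq_of_lt h2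
    simp only [List.mem_cons, List.not_mem_nil, or_false, tv] at hx
    rcases hx with h | h | h | h | h | h | h | h <;>
      exact ⟨_, _, h, h1, by simp only [e1, e2]; tauto⟩
  · simp at hx

theorem h_gp_facts (p q m : ℕ) (hp : p < 3) (hq : q < 3) (hpq : p ≠ q) :
    (gp p q m).length = 8 ∧ (gp p q m).Nodup ∧ (∀ x ∈ gp p q m, x < 9) ∧
    (gp p q m).head? = some (pv p) ∧ (gp p q m).getLast? = some (pv q) ∧
    List.IsChain (fun i j => j ∈ DN.getD i []) (gp p q m) := by
  have h := hOk_all p q m hp hq hpq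
  unfold hOk at h
  simp only [Bool.and_eq_true, decide_eq_true_eq, List.all_eq_true] at h
  obtain ⟨⟨⟨⟨⟨h1, h2⟩, h3⟩, h4⟩, h5⟩, h6⟩ := h
  exact ⟨h1, h2, h3, h4, h5, hChN_chain _ h6⟩

theorem h_DN_adj (v i j : ℕ) (hv : v < 72) (hi : i < 9) (h : j ∈ DN.getD i []) :
    G.Adj (fv v i) (fv v j) := by
  show fv v j ∈ nb (Sum.inl (Fin.ofNat 72 v, Fin.ofNat 9 i))
  have e1 : (Fin.ofNat 72 v).val = v := Nat.mod_eq_of_lt hv
  have e2 : (Fin.ofNat 9 i).val = i := Nat.mod_eq_of_lt hi
  unfold nb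
  simp only [e1, e2]
  apply List.mem_append_left
  exact List.mem_map_of_mem h

theorem h_chain_mem : ∀ (l : List ℕ) (R S : ℕ → ℕ → Prop), (∀ x ∈ l, ∀ y, R x y → S x y) →
    List.IsChain R l → List.IsChain S l
  | [], _, _, _, _ => by simp
  | [_], _, _, _, _ => by simp
  | x :: y :: l, R, S, h, hc => by
    rw [List.isChain_cons_cons] at hc ⊢
    exact ⟨h x (by simp) y hc.1, h_chain_mem (y :: l) R S
      (fun z hz w => h z (List.mem_cons_of_mem _ hz) w) hc.2⟩

/-- good pair -/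
def hGood (p : ℕ × ℕ) : Prop := p.1 < 216 ∧ p.2 < 216 ∧ vt (mt p.1) = vt p.2 ∧ mt p.1 ≠ p.2

theorem h_good_port (p : ℕ × ℕ) (h : hGood p) :
    pt (mt p.1) < 3 ∧ pt p.2 < 3 ∧ pt (mt p.1) ≠ pt p.2 ∧ vt p.2 < 72 := by
  obtain ⟨h1, h2, h3, h4⟩ := h
  have a1 := h_tab1 p.1 h1
  have a2 := h_tab1 _ a1.2.2.1
  have a3 := h_tab1 p.2 h2
  refine ⟨a2.2.1, a3.2.1, ?_, a3.1⟩
  intro h5
  apply h4
  rw [← a2.2.2.2.2.2, ← a3.2.2.2.2.2, h3, h5]

theorem h_blk (a b m : ℕ) : blk a b m = (gp (pt (mt a)) (pt b) m).map (fv (vt b)) ++ hSeg b := rfl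

theorem h_blk_head (p : ℕ × ℕ) (h : hGood p) (m : ℕ) :
    (blk p.1 p.2 m).head? = some (fv (vt p.2) (pv (pt (mt p.1)))) := by
  obtain ⟨h1, h2, h3, h4⟩ := h_good_port p h
  have := (h_gp_facts _ _ m h1 h2 h3).2.2.2.1
  rw [h_blk, List.head?_append, List.head?_map, this]
  rfl

theorem h_blk_last (p : ℕ × ℕ) (h : hGood p) (m : ℕ) :
    ∀ x ∈ (blk p.1 p.2 m).getLast?, G.Adj x (fv (vt (mt p.2)) (pv (pt (mt p.2)))) := by
  intro x hx
  obtain ⟨h1, h2, h3, h4⟩ := h_good_port p h
  have e1 := (h_gp_facts _ _ m h1 h2 h3).2.2.2.2.1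
  have h5 := hCh_chain _ (h_tab2 p.2 h.2.1)
  rw [← List.cons_append, List.isChain_append] at h5
  apply h5.2.2 x _ _ (by simp)
  rw [h_blk, List.getLast?_append, List.getLast?_map, e1] at hx
  by_cases h6 : hSeg p.2 = []
  · rw [h6] at hx ⊢
    simpa using hx
  · obtain ⟨y, l, hl⟩ := List.exists_cons_of_ne_nil h6
    rw [hl] at hx ⊢
    have e : (y :: l).getLast? = some ((y :: l).getLast (by simp)) :=
      List.getLast?_eq_some_getLast _
    rw [List.getLast?_cons_cons]
    rw [e] at hx ⊢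
    simpa using hx

theorem h_blk_chain (p : ℕ × ℕ) (h : hGood p) (m : ℕ) :
    List.IsChain G.Adj (blk p.1 p.2 m) := by
  obtain ⟨h1, h2, h3, h4⟩ := h_good_port p h
  obtain ⟨f1, f2, f3, f4, f5, f6⟩ := h_gp_facts _ _ m h1 h2 h3
  have h5 := hCh_chain _ (h_tab2 p.2 h.2.1)
  rw [h_blk, List.isChain_append]
  refine ⟨?_, ?_, ?_⟩
  · rw [List.isChain_map]
    exact h_chain_mem _ _ _ (fun x hx y hxy => h_DN_adj _ _ _ h4 (f3 x hx) hxy) f6
  · have h6 : List.IsChain G.Adj (hSeg p.2 ++ [fv (vt (mt p.2)) (pv (pt (mt p.2)))]) := h5.tail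
    rw [List.isChain_append] at h6
    exact h6.1
  · intro x hx y hy
    rw [List.getLast?_map, f5] at hx
    have hx' : fv (vt p.2) (pv (pt p.2)) = x := by simpa using hx
    obtain ⟨l, hl⟩ : ∃ l, hSeg p.2 = y :: l := by
      cases hS : hSeg p.2 with
      | nil => rw [hS] at hy; simp at hy
      | cons z l => rw [hS] at hy; simp at hy; exact ⟨l, by rw [hy]⟩
    rw [hl, List.cons_append, List.isChain_cons_cons] at h5
    rw [← hx']
    exact h5.1

theorem h_blk_len (p : ℕ × ℕ) (h : hGood p) (m : ℕ) :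
    (blk p.1 p.2 m).length = 8 + (if p.2 < 180 then 8 else 0) := by
  obtain ⟨h1, h2, h3, h4⟩ := h_good_port p h
  obtain ⟨f1, f2, f3, f4, f5, f6⟩ := h_gp_facts _ _ m h1 h2 h3
  rw [h_blk, List.length_append, List.length_map, f1, h_seg_len]

theorem h_blk_mem (p : ℕ × ℕ) (h : hGood p) (m : ℕ) (x : V) (hx : x ∈ blk p.1 p.2 m) :
    (∃ v i, x = Sum.inl (v, i) ∧ v.val = vt p.2 ∧ i.val ∈ gp (pt (mt p.1)) (pt p.2) m) ∨
    (∃ h j, x = Sum.inr (h, j) ∧ p.2 < 180 ∧ (h.val = p.2 ∨ h.val = mt p.2)) := by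
  obtain ⟨h1, h2, h3, h4⟩ := h_good_port p h
  obtain ⟨f1, f2, f3, f4, f5, f6⟩ := h_gp_facts _ _ m h1 h2 h3
  rw [h_blk, List.mem_append] at hx
  rcases hx with hx | hx
  · left
    rw [List.mem_map] at hx
    obtain ⟨i, hi, rfl⟩ := hx
    refine ⟨_, _, rfl, Nat.mod_eq_of_lt h4, ?_⟩
    have : (Fin.ofNat 9 i).val = i := Nat.mod_eq_of_lt (f3 i hi)
    rw [this]
    exact hi
  · right
    exact h_seg_mem p.2 h.2.1 x hx

theorem h_blk_nodup (p : ℕ × ℕ) (h : hGood p) (m : ℕ) : (blk p.1 p.2 m).Nodup := by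
  obtain ⟨h1, h2, h3, h4⟩ := h_good_port p h
  obtain ⟨f1, f2, f3, f4, f5, f6⟩ := h_gp_facts _ _ m h1 h2 h3
  rw [h_blk, List.nodup_append]
  refine ⟨?_, h_tab3 p.2 h.2.1, ?_⟩
  · apply List.Nodup.map_on _ f2
    intro x hx y hy hxy
    unfold fv at hxy
    have h5 : Fin.ofNat 9 x = Fin.ofNat 9 y := by
      have := Sum.inl.inj hxy
      exact (Prod.mk.inj this).2
    have h6 := congrArg Fin.val h5
    have e1 : (Fin.ofNat 9 x).val = x := Nat.mod_eq_of_lt (f3 x hx)
    have e2 : (Fin.ofNat 9 y).val = y := Nat.mod_eq_of_lt (f3 y hy)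
    rw [e1, e2] at h6
    exact h6
  · intro x hx y hy hxy
    rw [List.mem_map] at hx
    obtain ⟨i, hi, rfl⟩ := hx
    obtain ⟨h, j, hj, -⟩ := h_seg_mem p.2 h.2.1 y hy
    rw [hj] at hxy
    unfold fv at hxy
    exact absurd hxy (by simp)

theorem h_zip_chain : ∀ (Z : List ℕ) (x : ℕ),
    List.IsChain (fun p q : ℕ × ℕ => q.1 = p.2) ((x :: Z.dropLast).zip Z)
  | [], x => by simp
  | [z], x => by simp
  | z :: w :: Z, x => by
    have ih := h_zip_chain (w :: Z) z
    rw [List.dropLast_cons_cons] 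
    rw [List.zip_cons_cons]
    cases hZ : (z :: (w :: Z).dropLast).zip (w :: Z) with
    | nil => simp
    | cons p l =>
      rw [hZ] at ih
      rw [List.isChain_cons_cons]
      refine ⟨?_, ih⟩
      rw [List.zip_cons_cons] at hZ
      have := (List.cons.inj hZ).1
      rw [← this]


theorem h_chain_mem2 {α : Type} : ∀ (l : List α) (R S : α → α → Prop),
    (∀ x ∈ l, ∀ y ∈ l, R x y → S x y) → List.IsChain R l → List.IsChain S l
  | [], _, _, _, _ => by simp
  | [_], _, _, _, _ => by simp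
  | x :: y :: l, R, S, h, hc => by
    rw [List.isChain_cons_cons] at hc ⊢
    exact ⟨h x (by simp) y (by simp) hc.1, h_chain_mem2 (y :: l) R S
      (fun z hz w hw => h z (List.mem_cons_of_mem _ hz) w (List.mem_cons_of_mem _ hw)) hc.2⟩

theorem h_join (p q : ℕ × ℕ) (hp : hGood p) (hq : hGood q) (h : q.1 = p.2) (m m' : ℕ) :
    ∀ x ∈ (blk p.1 p.2 m).getLast?, ∀ y ∈ (blk q.1 q.2 m').head?, G.Adj x y := by
  intro x hx y hy
  have h1 := h_blk_last p hp m x hx
  rw [h_blk_head q hq m'] at hy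
  have h2 : fv (vt q.2) (pv (pt (mt q.1))) = y := by simpa using hy
  rw [← h2, ← hq.2.2.1, h]
  exact h1

theorem h_blk_ne (p : ℕ × ℕ) (h : hGood p) (m : ℕ) : blk p.1 p.2 m ≠ [] := by
  intro h0
  have := h_blk_len p h m
  rw [h0, List.length_nil] at this
  split_ifs at this <;> omega

theorem glist_cycle (LCy : ListCyc) : ∀ (Z : List ℕ) (μ : ℕ → ℕ), okZ Z = true →
    (∀ p ∈ prv Z, μ (vt p.2) < 9 → μ (vt p.2) ∉ gp (pt (mt p.1)) (pt p.2) (μ (vt p.2))) →
    ∃ (u : V) (c : G.Walk u u), c.IsCycle ∧ c.length = 1040 ∧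
      (∀ v i, (Sum.inl (v, i) : V) ∈ c.support → (∃ h ∈ Z, vt h = v.val) ∧ μ v.val ≠ i.val) ∧
      (∀ h j, (Sum.inr (h, j) : V) ∈ c.support → ∃ b ∈ Z, h.val / 2 = b / 2) := by
  intro Z μ hok hμ
  unfold okZ at hok
  simp only [Bool.and_eq_true, decide_eq_true_eq, List.all_eq_true] at hok
  obtain ⟨⟨⟨⟨h1, h2⟩, h3⟩, h4⟩, h5⟩ := hok
  have hne : Z ≠ [] := by rintro rfl; simp at h1
  have hlast : Z.getLast? = some (Z.getLast hne) := List.getLast?_eq_some_getLast hne
  have hgetD : Z.getLast?.getD 0 = Z.getLast hne := by rw [hlast]; rfl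
  have hfst : (prv Z).map Prod.fst = Z.getLast?.getD 0 :: Z.dropLast :=
    List.map_fst_zip (by simp; omega)
  have hsnd : (prv Z).map Prod.snd = Z := List.map_snd_zip (by simp; omega)
  have hmemfst : ∀ p ∈ prv Z, p.1 ∈ Z := by
    intro p hp
    have : p.1 ∈ (prv Z).map Prod.fst := List.mem_map_of_mem hp
    rw [hfst, hgetD, List.mem_cons] at this
    rcases this with h | h
    · rw [h]; exact List.getLast_mem hne
    · exact List.mem_of_mem_dropLast h
  have hmemsnd : ∀ p ∈ prv Z, p.2 ∈ Z := by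
    intro p hp
    have : p.2 ∈ (prv Z).map Prod.snd := List.mem_map_of_mem hp
    rwa [hsnd] at this
  have hsucc : ∀ b ∈ Z, ∃ c, (b, c) ∈ prv Z := by
    intro b hb
    have h6 : b ∈ (prv Z).map Prod.fst := by
      rw [hfst, hgetD, List.mem_cons]
      have h7 : Z.dropLast ++ [Z.getLast hne] = Z := List.dropLast_append_getLast hne
      rw [← h7, List.mem_append, List.mem_singleton] at hb
      tauto
    rw [List.mem_map] at h6
    obtain ⟨p, hp, hpb⟩ := h6
    exact ⟨p.2, by rw [← hpb]; exact hp⟩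
  have hgood : ∀ p ∈ prv Z, hGood p := fun p hp =>
    ⟨h2 _ (hmemfst p hp), h2 _ (hmemsnd p hp), (h4 p hp).1, (h4 p hp).2⟩
  have hchainP : List.IsChain (fun p q : ℕ × ℕ => q.1 = p.2) (prv Z) := h_zip_chain Z _
  have hinj : ∀ x ∈ Z, ∀ y ∈ Z, vt x = vt y → x = y := fun x hx y hy hxy =>
    List.inj_on_of_nodup_map h3 hx hy hxy
  have hPne : prv Z ≠ [] := by
    intro h0
    rw [h0] at hsnd
    exact hne hsnd.symm
  -- length
  have hlen : (glist Z μ).length = 1040 := by
    unfold glist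
    rw [List.length_flatMap]
    have e1 : (prv Z).map (fun p => (blk p.1 p.2 (μ (vt p.2))).length)
        = ((prv Z).map Prod.snd).map (fun b => 8 + (if b < 180 then 8 else 0)) := by
      rw [List.map_map]
      apply List.map_congr_left
      intro p hp
      exact h_blk_len p (hgood p hp) _
    rw [e1, hsnd, h5]
  -- chain
  have hchain : List.IsChain G.Adj (glist Z μ) := by
    unfold glist
    rw [List.flatMap_def, List.isChain_flatten]
    · refine ⟨?_, ?_⟩
      · intro l hl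
        rw [List.mem_map] at hl
        obtain ⟨p, hp, rfl⟩ := hl
        exact h_blk_chain p (hgood p hp) _
      · rw [List.isChain_map]
        exact h_chain_mem2 _ _ _ (fun p hp q hq hpq =>
          h_join p q (hgood p hp) (hgood q hq) hpq _ _) hchainP
    · intro h0
      rw [List.mem_map] at h0
      obtain ⟨p, hp, hp0⟩ := h0
      exact h_blk_ne p (hgood p hp) _ hp0
  -- closing
  have hclose : ∀ x ∈ (glist Z μ).getLast?, ∀ y ∈ (glist Z μ).head?, G.Adj x y := by
    intro x hx y hy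
    obtain ⟨p0, P', hP'⟩ := List.exists_cons_of_ne_nil hPne
    obtain ⟨pl, hPl⟩ : ∃ pl, (prv Z).dropLast ++ [pl] = prv Z :=
      ⟨_, List.dropLast_append_getLast hPne⟩
    have hp0 : p0 ∈ prv Z := by rw [hP']; simp
    have hpl : pl ∈ prv Z := by rw [← hPl]; simp
    have e0 : p0.1 = Z.getLast hne := by
      have := hfst
      rw [hP', List.map_cons, hgetD] at this
      exact (List.cons.inj this).1
    have el : pl.2 = Z.getLast hne := by
      have h7 := hsnd
      rw [← hPl, List.map_append, List.map_cons, List.map_nil] at h7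
      have h8 : Z.getLast? = some pl.2 := by
        rw [← h7]; simp
      rw [hlast] at h8
      exact (Option.some.inj h8).symm
    have hy' : y ∈ (blk p0.1 p0.2 (μ (vt p0.2))).head? := by
      unfold glist at hy
      rw [hP', List.flatMap_cons] at hy
      obtain ⟨a, l, hal⟩ := List.exists_cons_of_ne_nil (h_blk_ne p0 (hgood p0 hp0) (μ (vt p0.2)))
      rw [hal] at hy ⊢
      simpa using hy
    have hx' : x ∈ (blk pl.1 pl.2 (μ (vt pl.2))).getLast? := by
      unfold glist at hx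
      rw [← hPl, List.flatMap_append, List.flatMap_cons, List.flatMap_nil, List.append_nil,
        List.getLast?_append] at hx
      have h9 := List.getLast?_eq_some_getLast (h_blk_ne pl (hgood pl hpl) (μ (vt pl.2)))
      rw [h9] at hx ⊢
      simpa using hx
    exact h_join pl p0 (hgood pl hpl) (hgood p0 hp0) (by rw [e0, el]) _ _ x hx' y hy'
  -- nodup
  have hnodup : (glist Z μ).Nodup := by
    unfold glist
    rw [List.nodup_flatMap]
    refine ⟨fun p hp => h_blk_nodup p (hgood p hp) _, ?_⟩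
    have h6 : List.Pairwise (fun p q : ℕ × ℕ => vt p.2 ≠ vt q.2) (prv Z) := by
      have h7 : (((prv Z).map Prod.snd).map vt).Nodup := by rw [hsnd]; exact h3
      unfold List.Nodup at h7
      rw [List.pairwise_map, List.pairwise_map] at h7
      exact h7
    refine List.Pairwise.imp_of_mem ?_ h6
    intro p q hp hq hpq x hx hy
    have key : ∀ p q : ℕ × ℕ, p ∈ prv Z → q ∈ prv Z → p.2 ≠ mt q.2 := by
      intro p q hp hq h8
      obtain ⟨c, hc⟩ := hsucc q.2 (hmemsnd q hq)
      have h9 := h4 _ hc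
      apply h9.2
      show mt q.2 = c
      rw [← h8]
      apply hinj _ (hmemsnd p hp) _ (hmemsnd _ hc)
      rw [h8]
      exact h9.1
    rcases h_blk_mem p (hgood p hp) _ x hx with ⟨v, i, ex, hv, hi⟩ | ⟨a, j, ex, ha, ha'⟩ <;>
    rcases h_blk_mem q (hgood q hq) _ x hy with ⟨v', i', ex', hv', hi'⟩ | ⟨a', j', ex', hb, hb'⟩
    · rw [ex] at ex'
      have := (Prod.mk.inj (Sum.inl.inj ex')).1
      apply hpq
      rw [← hv, ← hv', this]
    · rw [ex] at ex'
      exact absurd ex' (by simp)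
    · rw [ex] at ex'
      exact absurd ex' (by simp)
    · rw [ex] at ex'
      have h10 := (Prod.mk.inj (Sum.inr.inj ex')).1
      rw [← h10] at hb'
      rcases ha' with h11 | h11 <;> rcases hb' with h12 | h12
      · exact hpq (by rw [← h11, ← h12])
      · exact key p q hp hq (by rw [← h11, ← h12])
      · exact key q p hq hp (by rw [← h11, ← h12])
      · have a1 := (h_tab1 p.2 (hgood p hp).2.1).2.2.2.1
        have a2 := (h_tab1 q.2 (hgood q hq).2.1).2.2.2.1
        apply hpq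
        rw [← a1, ← a2, ← h11, ← h12]
  obtain ⟨u, c, hc1, hc2, hc3⟩ := LCy (glist Z μ) (by rw [hlen]; norm_num) hnodup hchain hclose
  refine ⟨u, c, hc1, by rw [hc2, hlen], ?_, ?_⟩
  · intro v i hvi
    have h6 := hc3 _ hvi
    unfold glist at h6
    rw [List.mem_flatMap] at h6
    obtain ⟨p, hp, hp'⟩ := h6
    rcases h_blk_mem p (hgood p hp) _ _ hp' with ⟨v', i', ex, hv, hi⟩ | ⟨a, j, ex, ha, ha'⟩
    · have h7 := Prod.mk.inj (Sum.inl.inj ex)
      rw [← h7.1] at hv
      rw [← h7.2] at hi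
      refine ⟨⟨p.2, hmemsnd p hp, hv.symm⟩, ?_⟩
      intro h8
      have h9 : μ (vt p.2) = i.val := by rw [← hv]; exact h8
      apply hμ p hp (by rw [h9]; exact i.2)
      rw [h9] at hi ⊢
      exact hi
    · exact absurd ex (by simp)
  · intro h j hhj
    have h6 := hc3 _ hhj
    unfold glist at h6
    rw [List.mem_flatMap] at h6
    obtain ⟨p, hp, hp'⟩ := h6
    rcases h_blk_mem p (hgood p hp) _ _ hp' with ⟨v', i', ex, hv, hi⟩ | ⟨a, j', ex, ha, ha'⟩
    · exact absurd ex (by simp)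
    · have h7 := Prod.mk.inj (Sum.inr.inj ex)
      rw [← h7.1] at ha'
      refine ⟨p.2, hmemsnd p hp, ?_⟩
      rcases ha' with h8 | h8
      · rw [h8]
      · rw [h8]
        unfold mt
        split_ifs <;> omega


end Pool.Agent.Helper231.LC.Gl
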