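import Pool.Agent.Helper231.LC.Defs

set_option autoImplicit false
set_option maxRecDepth 100000

namespace Pool.Agent.Helper231.LC.Lk

/-- neighbours in `H` -/
def nbh (v : ℕ) : List ℕ := if v < 72 then [vt (mt (he v 0)), vt (mt (he v 1)), vt (mt (he v 2))] else []

/-- the used edges other than the one of half edge `h0` -/
def fF (F : ℕ → Bool) (h0 u v : ℕ) : Bool :=
  decide (u < 72) && (List.range 3).any (fun p => F (he u p) && (vt (mt (he u p)) == v) &&
    (he u p / 2 != h0 / 2))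

def visF (F : ℕ → Bool) (w : ℕ) : Bool := F (he w 0) || F (he w 1) || F (he w 2)

/-- the first side -/
def ZL (v : ℕ) : Bool := decide (v < 6) || (decide (12 ≤ v) && decide (v < 42))

theorem ZL_closed : ∀ h < 216, ZL (vt h) = true → ZL (vt (mt h)) = false →
    ∃ j < 6, h = 204 + 2 * j := by decide +kernel

theorem ZL_A : ∀ w < 30, ∀ p < 3, he (12 + w) p < 216 ∧ ZL (vt (he (12 + w) p)) = true := by
  decide +kernel

theorem ZL_B : ∀ w < 30, ∀ p < 3, he (42 + w) p < 216 ∧ ZL (vt (he (42 + w) p)) = false := by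
  decide +kernel

theorem visF_elim (F : ℕ → Bool) (w : ℕ) (h : visF F w = true) : ∃ p < 3, F (he w p) = true := by
  unfold visF at h
  rw [Bool.or_eq_true, Bool.or_eq_true] at h
  rcases h with (h | h) | h
  · exact ⟨0, by norm_num, h⟩
  · exact ⟨1, by norm_num, h⟩
  · exact ⟨2, by norm_num, h⟩

/-- a cycle using both blocks uses a link edge -/
theorem exists_link (F : ℕ → Bool) (hm : ∀ h < 216, F (mt h) = F h)
    (hd : ∀ v < 72, (F (he v 0)).toNat + (F (he v 1)).toNat + (F (he v 2)).toNat = 0 ∨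
      (F (he v 0)).toNat + (F (he v 1)).toNat + (F (he v 2)).toNat = 2)
    (hc : ∀ Z : ℕ → Bool, (∀ h < 216, F h = true → Z (vt h) = true → Z (vt (mt h)) = true) →
      (∃ h < 216, F h = true ∧ Z (vt h) = true) → ∀ h < 216, F h = true → Z (vt h) = true)
    (hA : ∃ w < 30, visF F (12 + w) = true) (hB : ∃ w < 30, visF F (42 + w) = true) :
    ∃ j < 6, F (204 + 2 * j) = true := by

  by_contra hcon
  push Not at hcon
  obtain ⟨w, hw, hvA⟩ := hA
  obtain ⟨w', hw', hvB⟩ := hB
  obtain ⟨p, hp, hF⟩ := visF_elim F _ hvA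
  obtain ⟨p', hp', hF'⟩ := visF_elim F _ hvB
  have h1 := hc ZL ?_ ⟨he (12 + w) p, (ZL_A w hw p hp).1, hF, (ZL_A w hw p hp).2⟩
    (he (42 + w') p') (ZL_B w' hw' p' hp').1 hF'
  · rw [(ZL_B w' hw' p' hp').2] at h1
    exact Bool.false_ne_true h1
  · intro h hh hFh hZ
    by_contra hne
    have hne' : ZL (vt (mt h)) = false := by simpa using hne
    obtain ⟨j, hj, rfl⟩ := ZL_closed h hh hZ hne'
    exact hcon j hj hFh


end Pool.Agent.Helper231.LC.Lk
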