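import Pool.Agent.Helper231.LC.Data
import Pool.Agent.Helper231.LC.Fld
import Pool.Agent.Helper231.LC.AcycA
import Pool.Agent.Helper231.LC.AcycB
import Pool.Agent.Helper231.LC.Link
import Pool.Agent.Helper231.LC.Cost

set_option autoImplicit false
set_option maxRecDepth 100000

namespace Pool.Agent.Helper231.LC
open Sd

def csth (F : ℕ → Bool) (vis : ℕ → Bool) : List (ℕ × ℕ × ℕ × ℕ) → ℕ
  | [] => 0
  | (0, h, cu, cn) :: L => (if F h = true then cu else cn) + csth F vis L
  | (_ + 1, w, uw, _) :: L => (if vis w = true then 0 else uw) + csth F vis L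

def edgesOK (e0 : ℕ) : List (ℕ × ℕ × ℕ × ℕ) → Bool
  | [] => true
  | (0, h, _, _) :: L => decide (h < 216) && (decide (h / 2 ≠ e0) && edgesOK e0 L)
  | (_ + 1, _, _, _) :: L => edgesOK e0 L

def dropsOK (a b : ℕ) : List (ℕ × ℕ × ℕ × ℕ) → Bool
  | [] => true
  | (0, _, _, _) :: L => dropsOK a b L
  | (_ + 1, w, _, _) :: L => decide (w < 72) && (decide (w ≠ a) && (decide (w ≠ b) && dropsOK a b L))

theorem cst_mkI (f : ℕ → ℕ → Bool) (F vis : ℕ → Bool) (e0 : ℕ)
    (hf : ∀ h < 216, h / 2 ≠ e0 → f (vt h) (vt (mt h)) = F h) :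
    ∀ L, edgesOK e0 L = true → cst f vis (mkI L) = csth F vis L
  | [], _ => rfl
  | (0, h, cu, cn) :: L, hL => by
    unfold edgesOK at hL
    rw [Bool.and_eq_true, Bool.and_eq_true] at hL
    obtain ⟨h1, h2, h3⟩ := hL
    have h1' := of_decide_eq_true h1
    have h2' := of_decide_eq_true h2
    rw [mkI, cst, csth, hf h h1' h2', cst_mkI f F vis e0 hf L h3]
  | (n + 1, w, uw, z) :: L, hL => by
    rw [mkI, cst, csth, cst_mkI f F vis e0 hf L (by simpa [edgesOK] using hL)]

theorem mem_drops (a b : ℕ) : ∀ L, dropsOK a b L = true → ∀ w uw, Ins.drop w uw ∈ mkI L →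
    w < 72 ∧ w ≠ a ∧ w ≠ b
  | [], _, w, uw, h => by simp [mkI] at h
  | (0, h, cu, cn) :: L, hL, w, uw, hm => by
    rw [mkI, List.mem_cons] at hm
    rcases hm with hm | hm
    · exact absurd hm (by simp)
    · exact mem_drops a b L (by simpa [dropsOK] using hL) w uw hm
  | (n + 1, w', uw', z) :: L, hL, w, uw, hm => by
    rw [mkI, List.mem_cons] at hm
    unfold dropsOK at hL
    rw [Bool.and_eq_true, Bool.and_eq_true, Bool.and_eq_true] at hL
    obtain ⟨h1, h2, h3, h4⟩ := hL
    rcases hm with hm | hm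
    · simp only [Ins.drop.injEq] at hm
      obtain ⟨rfl, rfl⟩ := hm
      exact ⟨of_decide_eq_true h1, of_decide_eq_true h2, of_decide_eq_true h3⟩
    · exact mem_drops a b L h4 w uw hm

theorem inv_init (f : ℕ → ℕ → Bool) (X : List ℕ) (c0 : ℕ)
    (hX : X.all (fun x => Nat.beq (fld c0 x) (4 * (x + 1))) = true) : Inv nbh f [] X c0 := by
  intro x hx
  rw [List.all_eq_true] at hX
  have h1 := Nat.eq_of_beq_eq_true (hX x hx)
  rw [h1]
  constructor
  · have : dg nbh f [] x = 0 := by
      unfold dg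
      rw [List.countP_eq_zero]
      intro a _
      simp [pres]
    rw [this]; omega
  · intro m hm
    have : m = x := by omega
    rw [this]
    exact Relation.ReflTransGen.refl

def EA : List (ℕ × ℕ) := afterP (mkI PA) []
def EB : List (ℕ × ℕ) := afterP (mkI PB) []

theorem wfA : wf nbh (mkI PA) [] XA = true := by decide +kernel
theorem wfB : wf nbh (mkI PB) [] XB = true := by decide +kernel
theorem aXA : afterX (mkI PA) XA = [0, 1, 2, 3, 4, 5] := by decide +kernel
theorem aXB : afterX (mkI PB) XB = [6, 7, 8, 9, 10, 11] := by decide +kernel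
theorem initA : XA.all (fun x => Nat.beq (fld cA0 x) (4 * (x + 1))) = true := by decide +kernel
theorem initB : XB.all (fun x => Nat.beq (fld cB0 x) (4 * (x + 1))) = true := by decide +kernel
theorem wfF : (List.range 6).all (fun j => wf nbh (mkI (PF j)) (EA ++ EB) (List.range 12)) = true := by
  decide +kernel
theorem eokA : (List.range 6).all (fun j => edgesOK (102 + j) PA) = true := by decide +kernel
theorem eokB : (List.range 6).all (fun j => edgesOK (102 + j) PB) = true := by decide +kernel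
theorem eokF : (List.range 6).all (fun j => edgesOK (102 + j) (PF j)) = true := by decide +kernel
theorem dokA : (List.range 6).all (fun j => dropsOK j (6 + j) PA) = true := by decide +kernel
theorem dokB : (List.range 6).all (fun j => dropsOK j (6 + j) PB) = true := by decide +kernel
theorem dokF : (List.range 6).all (fun j => dropsOK j (6 + j) (PF j)) = true := by decide +kernel
theorem fA0 : TA.all (fun s => [6, 7, 8, 9, 10, 11].all (fun x => Nat.beq (fld s.1 x) 0)) = true := by
  decide +kernel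
theorem fB0 : TB.all (fun s => [0, 1, 2, 3, 4, 5].all (fun x => Nat.beq (fld s.1 x) 0)) = true := by
  decide +kernel
theorem pEA : [6, 7, 8, 9, 10, 11].all (fun x => (nbh x).all (fun y => !(pres EA x y))) = true := by
  decide +kernel
theorem pEB : [0, 1, 2, 3, 4, 5].all (fun x => (nbh x).all (fun y => !(pres EB x y))) = true := by
  decide +kernel
theorem ends0 : (List.range 6).all (fun j => Nat.beq (vt (204 + 2 * j)) j &&
    Nat.beq (vt (mt (204 + 2 * j))) (6 + j)) = true := by decide +kernel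

theorem pres_append (P Q : List (ℕ × ℕ)) (u v : ℕ) : pres (P ++ Q) u v = (pres P u v || pres Q u v) := by
  unfold pres; rw [List.any_append]

theorem Rch_app_left {f : ℕ → ℕ → Bool} {P Q : List (ℕ × ℕ)} {u v : ℕ} (h : Rch f P u v) :
    Rch f (P ++ Q) u v := by
  unfold Rch at h ⊢
  induction h with
  | refl => exact Relation.ReflTransGen.refl
  | tail _ hab ih => exact ih.tail ⟨by rw [pres_append, hab.1]; rfl, hab.2⟩

theorem Rch_app_right {f : ℕ → ℕ → Bool} {P Q : List (ℕ × ℕ)} {u v : ℕ} (h : Rch f Q u v) :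
    Rch f (P ++ Q) u v := by
  unfold Rch at h ⊢
  induction h with
  | refl => exact Relation.ReflTransGen.refl
  | tail _ hab ih => exact ih.tail ⟨by rw [pres_append, hab.1, Bool.or_true], hab.2⟩

theorem inv_prod (f : ℕ → ℕ → Bool) {a b : ℕ × ℕ} (ha : a ∈ TA) (hb : b ∈ TB)
    (hA : Inv nbh f EA [0, 1, 2, 3, 4, 5] a.1) (hB : Inv nbh f EB [6, 7, 8, 9, 10, 11] b.1) :
    Inv nbh f (EA ++ EB) (List.range 12) (a.1 ^^^ b.1) := by
  intro x hx
  have h0A := fA0
  have h0B := fB0
  have hpA := pEA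
  have hpB := pEB
  rw [List.all_eq_true] at h0A h0B hpA hpB
  have h0A := h0A a ha
  have h0B := h0B b hb
  rw [List.all_eq_true] at h0A h0B
  have hx12 : x ∈ [0, 1, 2, 3, 4, 5] ∨ x ∈ [6, 7, 8, 9, 10, 11] := by
    have : x < 12 := by simpa using hx
    have h2 : ∀ x < 12, x ∈ [0, 1, 2, 3, 4, 5] ∨ x ∈ [6, 7, 8, 9, 10, 11] := by decide
    exact h2 x this
  rcases hx12 with hx | hx
  · have e1 : fld (a.1 ^^^ b.1) x = fld a.1 x := by
      have := Fd.fld_xor a.1 b.1 x
      have h3 := Nat.eq_of_beq_eq_true (h0B x hx)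
      change fld (a.1 ^^^ b.1) x = fld a.1 x ^^^ fld b.1 x at this
      rw [this, h3, Nat.xor_zero]
    obtain ⟨i1, i2⟩ := hA x hx
    rw [e1]
    refine ⟨?_, fun m hm => Rch_app_left (i2 m hm)⟩
    rw [i1]
    unfold dg
    refine List.countP_congr ?_
    intro y hy
    have h4 := hpB x hx
    rw [List.all_eq_true] at h4
    have h5 := h4 y hy
    rw [pres_append]
    cases hE : pres EB x y
    · simp
    · rw [hE] at h5; exact absurd h5 (by decide)
  · have e1 : fld (a.1 ^^^ b.1) x = fld b.1 x := by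
      have := Fd.fld_xor a.1 b.1 x
      have h3 := Nat.eq_of_beq_eq_true (h0A x hx)
      change fld (a.1 ^^^ b.1) x = fld a.1 x ^^^ fld b.1 x at this
      rw [this, h3, Nat.zero_xor]
    obtain ⟨i1, i2⟩ := hB x hx
    rw [e1]
    refine ⟨?_, fun m hm => Rch_app_right (i2 m hm)⟩
    rw [i1]
    unfold dg
    refine List.countP_congr ?_
    intro y hy
    have h4 := hpA x hx
    rw [List.all_eq_true] at h4
    have h5 := h4 y hy
    rw [pres_append]
    cases hE : pres EA x y
    · simp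
    · rw [hE] at h5; exact absurd h5 (by decide)

theorem mem_prodT {a b : ℕ × ℕ} (ha : a ∈ TA) (hb : b ∈ TB) (hlt : a.2 + b.2 < 42) :
    (a.1 ^^^ b.1, a.2 + b.2) ∈ prodT := by
  unfold prodT
  rw [List.mem_filter]
  refine ⟨?_, ?_⟩
  · rw [List.mem_flatMap]
    exact ⟨a, ha, List.mem_map_of_mem hb⟩
  · simpa [Nat.blt_eq] using hlt


theorem H_bound_of (rA : run 28 (mkI PA) [(cA0, 0)] = TA) (rB : run 28 (mkI PB) [(cB0, 0)] = TB)
    (rF : ∀ j < 6, run 42 (mkI (PF j)) prodT = [])
    (nc : ∀ (F : ℕ → Bool) (_ : ∀ h < 216, F (mt h) = F h)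
    (_ : ∀ v < 72, (F (he v 0)).toNat + (F (he v 1)).toNat + (F (he v 2)).toNat = 0 ∨
      (F (he v 0)).toNat + (F (he v 1)).toNat + (F (he v 2)).toNat = 2)
    (_ : ∀ Z : ℕ → Bool, (∀ h < 216, F h = true → Z (vt h) = true → Z (vt (mt h)) = true) →
      (∃ h < 216, F h = true ∧ Z (vt h) = true) → ∀ h < 216, F h = true → Z (vt h) = true),
      (∃ w < 30, visF F (12 + w) = true) → Co.NoCol F)
    (cA : ∀ F : ℕ → Bool, csth F (visF F) PA = Co.acost F)
    (cB : ∀ F : ℕ → Bool, csth F (visF F) PB = Co.bcost F)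
    (cF : ∀ (F : ℕ → Bool) (j : ℕ), j < 6 → F (204 + 2 * j) = true → visF F j = true →
      visF F (6 + j) = true → csth F (visF F) (PF j) + 2 = Co.qcost F) :
    ∀ (F : ℕ → Bool) (_ : ∀ h < 216, F (mt h) = F h)
    (_ : ∀ v < 72, (F (he v 0)).toNat + (F (he v 1)).toNat + (F (he v 2)).toNat = 0 ∨
      (F (he v 0)).toNat + (F (he v 1)).toNat + (F (he v 2)).toNat = 2)
    (_ : ∀ Z : ℕ → Bool, (∀ h < 216, F h = true → Z (vt h) = true → Z (vt (mt h)) = true) →
      (∃ h < 216, F h = true ∧ Z (vt h) = true) → ∀ h < 216, F h = true → Z (vt h) = true),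
    ∑ h ∈ Finset.range 216, (if F h = true then wt h else 0) ≤ 260 := by
  intro F hm hd hc
  have hid := Co.cost_identity F hm hd
  suffices hs : 44 ≤ Co.acost F + Co.bcost F + Co.qcost F by omega
  by_cases hA : ∃ w < 30, visF F (12 + w) = true
  swap
  · have h1 : ∀ w < 30, Co.visF F (12 + w) = false := by
      intro w hw
      by_contra hh
      have h2 : ¬ (visF F (12 + w) = false) := hh
      exact hA ⟨w, hw, by simpa using h2⟩
    have := Co.acost_big F h1
    omega
  by_cases hB : ∃ w < 30, visF F (42 + w) = true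
  swap
  · have h1 : ∀ w < 30, Co.visF F (42 + w) = false := by
      intro w hw
      by_contra hh
      have h2 : ¬ (visF F (42 + w) = false) := hh
      exact hB ⟨w, hw, by simpa using h2⟩
    have := Co.bcost_big F h1
    omega
  obtain ⟨j, hj, hFj⟩ := Lk.exists_link F hm hd hc hA hB
  -- the cut edge
  have h0lt : 204 + 2 * j < 216 := by omega
  have hends := ends0
  rw [List.all_eq_true] at hends
  have hends := hends j (List.mem_range.2 hj)
  rw [Bool.and_eq_true] at hends
  have ev1 := Nat.eq_of_beq_eq_true hends.1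
  have ev2 := Nat.eq_of_beq_eq_true hends.2
  have hhalf : (204 + 2 * j) / 2 = 102 + j := by omega
  have hsym : ∀ x y, fF F (204 + 2 * j) x y = fF F (204 + 2 * j) y x :=
    Ac.fF_symm F hm hd _ h0lt
  have hedge : ∀ h < 216, h / 2 ≠ (204 + 2 * j) / 2 →
      fF F (204 + 2 * j) (vt h) (vt (mt h)) = F h :=
    fun h hlt hne => Ac.fF_edge F hm hd _ h0lt h hlt hne
  have hle : ∀ w, (nbh w).countP (fF F (204 + 2 * j) w) ≤ 2 := Ac.fF_deg_le F hm hd _ h0lt
  have hdeg : ∀ w < 72, (nbh w).countP (fF F (204 + 2 * j) w) =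
      if w = vt (204 + 2 * j) ∨ w = vt (mt (204 + 2 * j)) then 1
        else if visF F w = true then 2 else 0 :=
    fun w hw => Ac.fF_deg F hm hd _ h0lt hFj w hw
  have hac : ∀ (P : List (ℕ × ℕ)) (u v : ℕ), fF F (204 + 2 * j) u v = true → pres P u v = false →
      ¬ Rch (fF F (204 + 2 * j)) P u v :=
    Ad.fF_acyc F hm hd hc _ h0lt hFj hsym hedge hle hdeg
  set f := fF F (204 + 2 * j) with hf
  have FS : ∀ (c x a y : ℕ), a < 1024 → fld (setf c x a) y = if y = x then a else fld c y :=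
    Fd.fld_setf
  have hdrop : ∀ L : List (ℕ × ℕ × ℕ × ℕ), dropsOK j (6 + j) L = true →
      ∀ w uw, Ins.drop w uw ∈ mkI L → (nbh w).countP (f w) = if visF F w = true then 2 else 0 := by
    intro L hL w uw hmem
    obtain ⟨h1, h2, h3⟩ := mem_drops j (6 + j) L hL w uw hmem
    rw [hdeg w h1, if_neg]
    rw [ev1, ev2]
    rintro (h | h)
    · exact h2 h
    · exact h3 h
  have hcst : ∀ L : List (ℕ × ℕ × ℕ × ℕ), edgesOK (102 + j) L = true →
      cst f (visF F) (mkI L) = csth F (visF F) L :=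
    fun L hL => cst_mkI f F (visF F) (102 + j) (fun h hlt hne => hedge h hlt (by rw [hhalf]; exact hne)) L hL
  have gA := eokA
  have gB := eokB
  have gF := eokF
  have kA := dokA
  have kB := dokB
  have kF := dokF
  have wF := wfF
  rw [List.all_eq_true] at gA gB gF kA kB kF wF
  have hjm : j ∈ List.range 6 := List.mem_range.2 hj
  have cA' : cst f (visF F) (mkI PA) = Co.acost F := by rw [hcst PA (gA j hjm), cA F]
  have cB' : cst f (visF F) (mkI PB) = Co.bcost F := by rw [hcst PB (gB j hjm), cB F]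
  have hvis : visF F j = true ∧ visF F (6 + j) = true := by
    have t1 : ∀ j < 6, (he j 0 = 204 + 2 * j ∨ he j 1 = 204 + 2 * j ∨ he j 2 = 204 + 2 * j) ∧
      (he (6 + j) 0 = 205 + 2 * j ∨ he (6 + j) 1 = 205 + 2 * j ∨ he (6 + j) 2 = 205 + 2 * j) := by
      decide +kernel
    have hF2 : F (205 + 2 * j) = true := by
      have := hm (204 + 2 * j) h0lt
      have e : mt (204 + 2 * j) = 205 + 2 * j := by unfold mt; rw [if_pos (by omega)]; omega
      rw [e, hFj] at this
      exact this
    obtain ⟨t2, t3⟩ := t1 j hj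
    constructor
    · unfold visF
      rcases t2 with t | t | t <;> rw [t, hFj] <;> simp
    · unfold visF
      rcases t3 with t | t | t <;> rw [t, hF2] <;> simp
  have cF' : cst f (visF F) (mkI (PF j)) + 2 = Co.qcost F := by
    rw [hcst (PF j) (gF j hjm)]
    exact cF F j hj hFj hvis.1 hvis.2
  have RA := run_sound FS nbh f (visF F) hsym hle hac 28 (mkI PA) [] XA [(cA0, 0)] 0 wfA
    (hdrop PA (kA j hjm)) ⟨(cA0, 0), by simp, inv_init f XA cA0 initA, le_refl _⟩
  have RB := run_sound FS nbh f (visF F) hsym hle hac 28 (mkI PB) [] XB [(cB0, 0)] 0 wfB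
    (hdrop PB (kB j hjm)) ⟨(cB0, 0), by simp, inv_init f XB cB0 initB, le_refl _⟩
  rw [cA', rA, aXA] at RA
  rw [cB', rB, aXB] at RB
  have hnc := nc F hm hd hc hA
  have lowB := Co.bq_low F hm hd hnc
  have lowA := Co.aq_low F hm hd hnc
  rcases RA with RA | ⟨a, ha, ia, ka⟩
  · omega
  rcases RB with RB | ⟨b, hb, ib, kb⟩
  · omega
  by_cases hlt : a.2 + b.2 < 42
  swap
  · omega
  have RF := run_sound FS nbh f (visF F) hsym hle hac 42 (mkI (PF j)) (EA ++ EB) (List.range 12)
    prodT (Co.acost F + Co.bcost F) (wF j hjm) (hdrop (PF j) (kF j hjm))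
    ⟨(a.1 ^^^ b.1, a.2 + b.2), mem_prodT ha hb hlt, inv_prod f ha hb ia ib, by
      show a.2 + b.2 ≤ _
      omega⟩
  rw [rF j hj] at RF
  rcases RF with RF | ⟨s, hs, _⟩
  · omega
  · simp at hs

end Pool.Agent.Helper231.LC
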