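import Pool.Agent.Helper231.LC.Engine
import Pool.Agent.Helper231.LC.Defs

set_option autoImplicit false
set_option maxRecDepth 100000

namespace Pool.Agent.Helper231.LC
open Sd

/-- neighbours in `H` -/
def nbh (v : ℕ) : List ℕ := if v < 72 then [vt (mt (he v 0)), vt (mt (he v 1)), vt (mt (he v 2))] else []

/-- the used edges other than the one of half edge `h0` -/
def fF (F : ℕ → Bool) (h0 u v : ℕ) : Bool :=
  decide (u < 72) && (List.range 3).any (fun p => F (he u p) && (vt (mt (he u p)) == v) &&
    (he u p / 2 != h0 / 2))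

def visF (F : ℕ → Bool) (w : ℕ) : Bool := F (he w 0) || F (he w 1) || F (he w 2)

/-- programs coded by half edges: `(0,h,cu,cn)` is an edge, `(1,w,uw,_)` drops `w` -/
def mkI : List (ℕ × ℕ × ℕ × ℕ) → List Ins
  | [] => []
  | (0, h, cu, cn) :: L => Ins.edge (vt h) (vt (mt h)) cu cn :: mkI L
  | (_ + 1, w, uw, _) :: L => Ins.drop w uw :: mkI L

end Pool.Agent.Helper231.LC
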