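import Mathlib

set_option autoImplicit false
set_option maxRecDepth 100000

namespace Pool.Agent.Helper231.LC.Lc


theorem list_cycle_aux {V : Type} (G : SimpleGraph V) {a b : V} (p : G.Walk a b) (hp : p.IsPath)
    (hlen : 2 ≤ p.length) : s(b, a) ∉ p.edges := by
  cases p with
  | nil => simp at hlen
  | @cons _ v _ h' q =>
    intro hmem
    rw [SimpleGraph.Walk.edges_cons, List.mem_cons] at hmem
    rw [SimpleGraph.Walk.cons_isPath_iff] at hp
    obtain ⟨hq, ha⟩ := hp
    rcases hmem with he | he
    · have hbv : b = v := by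
        rw [Sym2.eq_iff] at he
        rcases he with ⟨h1, h2⟩ | ⟨h1, h2⟩
        · exact h1.trans h2
        · exact h1
      subst hbv
      have hnil : q = SimpleGraph.Walk.nil := SimpleGraph.Walk.isPath_iff_eq_nil.1 hq
      rw [hnil] at hlen
      simp at hlen
    · exact ha (q.snd_mem_support_of_mem_edges he)

/-- A closed list of distinct vertices gives a cycle. -/
theorem list_cycle {V : Type} (G : SimpleGraph V) (l : List V) (h3 : 3 ≤ l.length)
    (hn : l.Nodup) (hc : List.IsChain G.Adj l)
    (hcl : ∀ x ∈ l.getLast?, ∀ y ∈ l.head?, G.Adj x y) :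
    ∃ (u : V) (c : G.Walk u u), c.IsCycle ∧ c.length = l.length ∧ ∀ x ∈ c.support, x ∈ l := by
  have hne : l ≠ [] := by
    intro h
    rw [h] at h3
    simp at h3
  have hadj : G.Adj (l.getLast hne) (l.head hne) :=
    hcl _ (by rw [List.getLast?_eq_getLast_of_ne_nil hne]; exact rfl) _
      (by rw [List.head?_eq_some_head hne]; exact rfl)
  have hpl := SimpleGraph.Walk.length_ofSupport hne hc
  have hps := SimpleGraph.Walk.support_ofSupport hne hc
  have hpp : (SimpleGraph.Walk.ofSupport l hne hc).IsPath := by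
    rw [SimpleGraph.Walk.isPath_def, hps]
    exact hn
  refine ⟨l.getLast hne, SimpleGraph.Walk.cons hadj (SimpleGraph.Walk.ofSupport l hne hc), ?_, ?_, ?_⟩
  · rw [SimpleGraph.Walk.cons_isCycle_iff]
    exact ⟨hpp, list_cycle_aux G _ hpp (by omega)⟩
  · rw [SimpleGraph.Walk.length_cons, hpl]
    omega
  · intro x hx
    rw [SimpleGraph.Walk.support_cons, hps, List.mem_cons] at hx
    rcases hx with h | h
    · rw [h]; exact List.getLast_mem hne
    · exact h


end Pool.Agent.Helper231.LC.Lc
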