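import Pool.Agent.Helper231.LC.FamCov
import Pool.Agent.Helper231.LC.FamOK
import Pool.Agent.Helper231.LC.Glist
import Pool.Agent.Helper231.LC.ListCyc

set_option autoImplicit false
set_option maxRecDepth 100000

namespace Pool.Agent.Helper231.LC

theorem listcyc : Gl.ListCyc := fun l h3 hn hc hcl => Lc.list_cycle G l h3 hn hc hcl

theorem glistcyc : Lo.GlistCyc := Gl.glist_cycle listcyc

theorem lower : ∀ S : Finset V, S.card ≤ 3 →
    ∃ (u : V) (c : G.Walk u u), c.IsCycle ∧ c.length = 1040 ∧ ∀ x ∈ S, x ∉ c.support :=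
  Lo.lower_of glistcyc FAM fam_ok fam_cover

end Pool.Agent.Helper231.LC
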