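import Pool.Agent.Helper231.LC.Defs

set_option autoImplicit false
set_option maxRecDepth 100000

namespace Pool.Agent.Helper231.LC.Lo

/-! 8-vertex passes through the gadget from the terminal of port `p` to that of port `q`,
missing the vertex `m` when that is possible. -/
def base01 (m : ℕ) : List ℕ := if m = 1 then [4,0,5,7,2,3,8,6] else if m = 3 then [4,0,1,2,7,5,8,6]
  else if m = 7 then [4,0,5,8,3,2,1,6] else if m = 8 then [4,3,2,7,5,0,1,6] else [4,3,8,5,7,2,1,6]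
def base02 (m : ℕ) : List ℕ := if m = 2 then [4,3,8,6,1,0,5,7] else if m = 3 then [4,0,5,8,6,1,2,7]
  else if m = 5 then [4,0,1,6,8,3,2,7] else if m = 6 then [4,0,1,2,3,8,5,7] else [4,3,2,1,6,8,5,7]
def base12 (m : ℕ) : List ℕ := if m = 1 then [6,8,5,0,4,3,2,7] else if m = 2 then [6,1,0,4,3,8,5,7]
  else if m = 4 then [6,8,3,2,1,0,5,7] else if m = 5 then [6,8,3,4,0,1,2,7] else [6,1,2,3,4,0,5,7]
def gp (p q m : ℕ) : List ℕ :=
  if p = 0 ∧ q = 1 then base01 m else if p = 1 ∧ q = 0 then (base01 m).reverse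
  else if p = 0 ∧ q = 2 then base02 m else if p = 2 ∧ q = 0 then (base02 m).reverse
  else if p = 1 ∧ q = 2 then base12 m else (base12 m).reverse

/-- block of the cycle of `G` for consecutive outgoing half edges `a`, `b` -/
def blk (a b m : ℕ) : List V := (gp (pt (mt a)) (pt b) m).map (fv (vt b)) ++
  (if b < 180 then [tv b 0, tv b 1, tv b 2, tv b 3, tv (mt b) 3, tv (mt b) 2, tv (mt b) 1, tv (mt b) 0]
    else [])

/-- cyclically consecutive pairs -/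
def prv (Z : List ℕ) : List (ℕ × ℕ) := (Z.getLast?.getD 0 :: Z.dropLast).zip Z

def glist (Z : List ℕ) (μ : ℕ → ℕ) : List V := (prv Z).flatMap (fun p => blk p.1 p.2 (μ (vt p.2)))

/-- `Z` lists the outgoing half edges of a cycle of `H` of weight 130 -/
def okZ (Z : List ℕ) : Bool :=
  decide (3 ≤ Z.length) && Z.all (fun h => decide (h < 216)) && decide (Z.map vt).Nodup &&
  (prv Z).all (fun p => decide (vt (mt p.1) = vt p.2) && decide (mt p.1 ≠ p.2)) &&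
  decide ((Z.map (fun b => 8 + (if b < 180 then 8 else 0))).sum = 1040)

/-- the lifting statement (proved elsewhere) -/
def GlistCyc : Prop := ∀ (Z : List ℕ) (μ : ℕ → ℕ), okZ Z = true →
    (∀ p ∈ prv Z, μ (vt p.2) < 9 → μ (vt p.2) ∉ gp (pt (mt p.1)) (pt p.2) (μ (vt p.2))) →
    ∃ (u : V) (c : G.Walk u u), c.IsCycle ∧ c.length = 1040 ∧
      (∀ v i, (Sum.inl (v, i) : V) ∈ c.support → (∃ h ∈ Z, vt h = v.val) ∧ μ v.val ≠ i.val) ∧
      (∀ h j, (Sum.inr (h, j) : V) ∈ c.support → ∃ b ∈ Z, h.val / 2 = b / 2)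

/-- the port avoided by the pass missing `i` -/
def lwTp (i : ℕ) : ℕ := [2,2,1,2,0,1,1,2,2].getD i 0

theorem lw_tab1 : ∀ h < 216, he (vt h) (pt h) = h ∧ pt h < 3 ∧ vt h < 72 ∧ mt h < 216 := by
  decide +kernel

theorem lw_tab2 : ∀ v < 72, ∀ r < 3, he v r / 2 < 108 := by
  decide +kernel

theorem lw_tab3a : ∀ i < 9, lwTp i < 3 := by
  decide +kernel

theorem lw_tab3b : ∀ i : Fin 9, ∀ p : Fin 3, ∀ q : Fin 3, p.val ≠ q.val → p.val ≠ lwTp i.val →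
    q.val ≠ lwTp i.val → i.val ∉ gp p.val q.val i.val := by
  decide +kernel

theorem lw_tab3 : ∀ i < 9, lwTp i < 3 ∧ ∀ p < 3, ∀ q < 3, p ≠ q → p ≠ lwTp i → q ≠ lwTp i →
    i ∉ gp p q i :=
  fun i hi => ⟨lw_tab3a i hi, fun p hp q hq => lw_tab3b ⟨i, hi⟩ ⟨p, hp⟩ ⟨q, hq⟩⟩

theorem lw_mt (h : ℕ) : mt h / 2 = h / 2 := by
  unfold mt
  split_ifs <;> omega

theorem lw_prv {Z : List ℕ} (hok : okZ Z = true) {p : ℕ × ℕ} (hp : p ∈ prv Z) :
    p.1 ∈ Z ∧ p.2 ∈ Z ∧ p.1 < 216 ∧ p.2 < 216 ∧ vt (mt p.1) = vt p.2 ∧ mt p.1 ≠ p.2 := by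
  unfold okZ at hok
  simp only [Bool.and_eq_true, decide_eq_true_eq, List.all_eq_true] at hok
  obtain ⟨⟨⟨⟨h1, h2⟩, h3⟩, h4⟩, h5⟩ := hok
  obtain ⟨p1, p2⟩ := p
  have h6 := h4 _ hp
  unfold prv at hp
  obtain ⟨m1, m2⟩ := List.of_mem_zip hp
  have hne : Z ≠ [] := by
    intro h
    rw [h] at h1
    simp at h1
  have m3 : p1 ∈ Z := by
    rcases List.mem_cons.mp m1 with h | h
    · rw [h, List.getLast?_eq_some_getLast hne]
      exact List.getLast_mem hne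
    · exact List.mem_of_mem_dropLast h
  exact ⟨m3, m2, h2 _ m3, h2 _ m2, h6.1, h6.2⟩

theorem lw_ex {Z : List ℕ} (hok : okZ Z = true) {h : ℕ} (hh : h ∈ Z) : ∃ p ∈ prv Z, p.2 = h := by
  unfold okZ at hok
  simp only [Bool.and_eq_true, decide_eq_true_eq, List.all_eq_true] at hok
  obtain ⟨⟨⟨⟨h1, h2⟩, h3⟩, h4⟩, h5⟩ := hok
  have h6 : (prv Z).map Prod.snd = Z := by
    unfold prv
    apply List.map_snd_zip
    rw [List.length_cons, List.length_dropLast]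
    omega
  rw [← h6] at hh
  obtain ⟨p, hp, hp2⟩ := List.mem_map.mp hh
  exact ⟨p, hp, hp2⟩

theorem lw_port {Z : List ℕ} (hok : okZ Z = true) {p : ℕ × ℕ} (hp : p ∈ prv Z) {r : ℕ}
    (hr : ∀ h ∈ Z, h / 2 ≠ he (vt p.2) r / 2) : pt (mt p.1) ≠ r ∧ pt p.2 ≠ r := by
  obtain ⟨m1, m2, l1, l2, e1, e2⟩ := lw_prv hok hp
  constructor
  · intro h
    have t := (lw_tab1 _ (lw_tab1 _ l1).2.2.2).1
    rw [h, e1] at t
    apply hr _ m1
    rw [t, lw_mt]
  · intro h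
    have t := (lw_tab1 _ l2).1
    rw [h] at t
    apply hr _ m2
    rw [t]

theorem lw_ports {Z : List ℕ} (hok : okZ Z = true) {p : ℕ × ℕ} (hp : p ∈ prv Z) :
    pt (mt p.1) < 3 ∧ pt p.2 < 3 ∧ pt (mt p.1) ≠ pt p.2 := by
  obtain ⟨m1, m2, l1, l2, e1, e2⟩ := lw_prv hok hp
  refine ⟨(lw_tab1 _ (lw_tab1 _ l1).2.2.2).2.1, (lw_tab1 _ l2).2.1, ?_⟩
  intro h
  have t1 := (lw_tab1 _ (lw_tab1 _ l1).2.2.2).1
  have t2 := (lw_tab1 _ l2).1
  rw [e1, h, t2] at t1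
  exact e2 t1.symm

theorem lw_notvis {Z : List ℕ} (hok : okZ Z = true) {v r : ℕ} (hr : r < 3)
    (h1 : ∀ h ∈ Z, h / 2 ≠ he v r / 2) (h2 : ∀ h ∈ Z, h / 2 ≠ he v ((r + 1) % 3) / 2) :
    ¬ ∃ h ∈ Z, vt h = v := by
  rintro ⟨h, hh, hv⟩
  obtain ⟨p, hp, hp2⟩ := lw_ex hok hh
  subst hp2
  subst hv
  have a1 := lw_port hok hp h1
  have a2 := lw_port hok hp h2
  have a3 := lw_ports hok hp
  omega

/-- gadget index -/
def lwG : V → ℕ
  | Sum.inl (v, _) => v.val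
  | Sum.inr _ => 100

/-- index in the gadget -/
def lwI : V → ℕ
  | Sum.inl (_, i) => i.val
  | Sum.inr _ => 9

/-- the first edge -/
def lwE0 : V → ℕ
  | Sum.inl (v, i) => he v.val (lwTp i.val) / 2
  | Sum.inr (h, _) => h.val / 2

/-- the second edge -/
def lwE1 (x : V) : ℕ := he (lwG x) ((lwTp (lwI x) + 1) % 3) / 2

theorem lw_E0 {x : V} (h : lwG x < 72) : lwE0 x = he (lwG x) (lwTp (lwI x)) / 2 ∧ lwI x < 9 := by
  rcases x with ⟨v, i⟩ | ⟨h', j⟩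
  · exact ⟨rfl, i.isLt⟩
  · simp [lwG] at h

theorem lw_E0_lt (x : V) : lwE0 x < 108 := by
  rcases x with ⟨v, i⟩ | ⟨h, j⟩
  · exact lw_tab2 _ v.isLt _ (lw_tab3 _ i.isLt).1
  · have := h.isLt
    simp only [lwE0]
    omega

theorem lw_E1_lt {x : V} (h : lwG x < 72) : lwE1 x < 108 :=
  lw_tab2 _ h _ (Nat.mod_lt _ (by norm_num))

theorem lw_three (S : Finset V) (h : S.card ≤ 3) :
    ∃ x₁ x₂ x₃ : V, ∀ x ∈ S, x = x₁ ∨ x = x₂ ∨ x = x₃ := by
  have z : V := Sum.inl (0, 0)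
  have hl : S.toList.length ≤ 3 := by rwa [Finset.length_toList]
  have hm : ∀ x ∈ S, x ∈ S.toList := fun x hx => Finset.mem_toList.mpr hx
  generalize S.toList = l at hl hm
  rcases l with _ | ⟨a, _ | ⟨b, _ | ⟨c, _ | ⟨d, l⟩⟩⟩⟩
  · exact ⟨z, z, z, fun x hx => absurd (hm x hx) (by simp)⟩
  · exact ⟨a, a, a, fun x hx => by simpa using hm x hx⟩
  · exact ⟨a, b, b, fun x hx => by simpa using hm x hx⟩
  · exact ⟨a, b, c, fun x hx => by simpa using hm x hx⟩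
  · simp only [List.length_cons] at hl
    omega

theorem lower_of (GC : GlistCyc) (FAM : List (List ℕ)) (hok : ∀ Z ∈ FAM, okZ Z = true)
    (hcov : ∀ a < 108, ∀ b < 108, ∀ c < 108,
      ∃ Z ∈ FAM, ∀ h ∈ Z, h / 2 ≠ a ∧ h / 2 ≠ b ∧ h / 2 ≠ c) :
    ∀ S : Finset V, S.card ≤ 3 →
      ∃ (u : V) (c : G.Walk u u), c.IsCycle ∧ c.length = 1040 ∧ ∀ x ∈ S, x ∉ c.support := by
  intro S hS
  obtain ⟨x₁, x₂, x₃, hx⟩ := lw_three S hS
  obtain ⟨b, hb⟩ : ∃ b, b = if lwG x₂ = lwG x₁ ∧ lwG x₁ < 72 then lwE1 x₁ else lwE0 x₂ := ⟨_, rfl⟩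
  obtain ⟨c, hc⟩ : ∃ c, c = if lwG x₃ = lwG x₁ ∧ lwG x₁ < 72 then lwE1 x₁
    else if lwG x₃ = lwG x₂ ∧ lwG x₂ < 72 then lwE1 x₂ else lwE0 x₃ := ⟨_, rfl⟩
  obtain ⟨μ, hμ⟩ : ∃ μ : ℕ → ℕ, ∀ v, μ v = if v = lwG x₁ then lwI x₁ else
    if v = lwG x₂ then lwI x₂ else if v = lwG x₃ then lwI x₃ else 9 := ⟨_, fun v => rfl⟩
  have hb' : b < 108 := by
    rw [hb]
    split_ifs with h
    · exact lw_E1_lt h.2
    · exact lw_E0_lt _
  have hc' : c < 108 := by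
    rw [hc]
    split_ifs with h h'
    · exact lw_E1_lt h.2
    · exact lw_E1_lt h'.2
    · exact lw_E0_lt _
  obtain ⟨Z, hZ, hZ'⟩ := hcov (lwE0 x₁) (lw_E0_lt _) b hb' c hc'
  have hokZ := hok Z hZ
  have hA : ∀ h ∈ Z, h / 2 ≠ lwE0 x₁ := fun h hh => (hZ' h hh).1
  have hB : ∀ h ∈ Z, h / 2 ≠ b := fun h hh => (hZ' h hh).2.1
  have hC : ∀ h ∈ Z, h / 2 ≠ c := fun h hh => (hZ' h hh).2.2
  clear hZ'
  have hgen : ∀ p ∈ prv Z, ∀ x : V, vt p.2 = lwG x → (∀ h ∈ Z, h / 2 ≠ lwE0 x) →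
      lwI x ∉ gp (pt (mt p.1)) (pt p.2) (lwI x) := by
    intro p hp x hvx hav
    have hv : lwG x < 72 := by
      rw [← hvx]
      exact (lw_tab1 _ (lw_prv hokZ hp).2.2.2.1).2.2.1
    obtain ⟨e1, e2⟩ := lw_E0 hv
    rw [e1, ← hvx] at hav
    have a1 := lw_port hokZ hp hav
    have a2 := lw_ports hokZ hp
    exact (lw_tab3 _ e2).2 _ a2.1 _ a2.2.1 a2.2.2 a1.1 a1.2
  obtain ⟨u, w, hw1, hw2, hw3, hw4⟩ := GC Z μ hokZ (by
    intro p hp hlt
    rw [hμ] at hlt ⊢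
    have hv72 : vt p.2 < 72 := (lw_tab1 _ (lw_prv hokZ hp).2.2.2.1).2.2.1
    split_ifs at hlt ⊢ with h1 h2 h3
    · exact hgen p hp x₁ h1 hA
    · refine hgen p hp x₂ h2 ?_
      rw [if_neg (fun h => h1 (h2.trans h.1))] at hb
      rw [← hb]
      exact hB
    · refine hgen p hp x₃ h3 ?_
      rw [if_neg (fun h => h1 (h3.trans h.1)), if_neg (fun h => h2 (h3.trans h.1))] at hc
      rw [← hc]
      exact hC
    · omega)
  refine ⟨u, w, hw1, hw2, ?_⟩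
  intro x hxS hxw
  rcases x with ⟨v, i⟩ | ⟨h, j⟩
  · obtain ⟨hvis, hne⟩ := hw3 v i hxw
    rw [hμ] at hne
    have hv : v.val < 72 := v.isLt
    rcases hx _ hxS with h | h | h
    · rw [← h] at hne
      exact hne (if_pos rfl)
    · have g2 : lwG x₂ = v.val := by rw [← h]; rfl
      have i2 : lwI x₂ = i.val := by rw [← h]; rfl
      by_cases h1 : v.val = lwG x₁
      · have hlt : lwG x₁ < 72 := by omega
        rw [if_pos ⟨by rw [g2, h1], hlt⟩] at hb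
        obtain ⟨e1, e2⟩ := lw_E0 hlt
        rw [e1, ← h1] at hA
        rw [hb] at hB
        unfold lwE1 at hB
        rw [← h1] at hB
        exact lw_notvis hokZ (lw_tab3 _ e2).1 hA hB hvis
      · rw [if_neg h1, if_pos g2.symm] at hne
        exact hne i2
    · have g3 : lwG x₃ = v.val := by rw [← h]; rfl
      have i3 : lwI x₃ = i.val := by rw [← h]; rfl
      by_cases h1 : v.val = lwG x₁
      · have hlt : lwG x₁ < 72 := by omega
        rw [if_pos ⟨by rw [g3, h1], hlt⟩] at hc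
        obtain ⟨e1, e2⟩ := lw_E0 hlt
        rw [e1, ← h1] at hA
        rw [hc] at hC
        unfold lwE1 at hC
        rw [← h1] at hC
        exact lw_notvis hokZ (lw_tab3 _ e2).1 hA hC hvis
      · by_cases h2 : v.val = lwG x₂
        · have hlt : lwG x₂ < 72 := by omega
          rw [if_neg (fun h' => h1 (g3.symm.trans h'.1)), if_pos ⟨by rw [g3, h2], hlt⟩] at hc
          rw [if_neg (fun h' => h1 (h2.trans h'.1))] at hb
          obtain ⟨e1, e2⟩ := lw_E0 hlt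
          rw [hb, e1, ← h2] at hB
          rw [hc] at hC
          unfold lwE1 at hC
          rw [← h2] at hC
          exact lw_notvis hokZ (lw_tab3 _ e2).1 hB hC hvis
        · rw [if_neg h1, if_neg h2, if_pos g3.symm] at hne
          exact hne i3
  · obtain ⟨k, hk, hk'⟩ := hw4 h j hxw
    rcases hx _ hxS with h' | h' | h'
    · apply hA k hk
      rw [← h', ← hk']
      rfl
    · have g2 : lwG x₂ = 100 := by rw [← h']; rfl
      rw [if_neg (by rintro ⟨q1, q2⟩; omega)] at hb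
      apply hB k hk
      rw [hb, ← h', ← hk']
      rfl
    · have g3 : lwG x₃ = 100 := by rw [← h']; rfl
      rw [if_neg (by rintro ⟨q1, q2⟩; omega), if_neg (by rintro ⟨q1, q2⟩; omega)] at hc
      apply hC k hk
      rw [hc, ← h', ← hk']
      rfl


end Pool.Agent.Helper231.LC.Lo
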