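import Pool.Agent.Helper231.LC.Data

set_option autoImplicit false
set_option maxRecDepth 1000000

namespace Pool.Agent.Helper231.LC
open Sd

def PA1 : List (ℕ × ℕ × ℕ × ℕ) := [(0,44,0,0),(0,54,0,0),(0,52,0,0),(1,32,8,0),(0,36,0,0),(0,56,0,0),(0,58,0,0),(1,34,8,0),(0,46,0,0),(1,33,8,0),(0,42,0,0),(0,48,0,0),(0,50,0,0),(1,31,8,0),(0,38,0,0),(1,35,8,0),(0,40,0,0),(1,30,8,0),(0,30,0,0),(0,16,0,0),(1,17,8,0),(0,70,0,0),(0,4,0,0),(1,20,8,0),(0,24,0,0),(0,180,3,0),(1,24,8,0),(0,10,0,0),(0,22,0,0),(1,14,8,0),(0,64,0,0),(1,23,8,0),(0,186,3,0),(1,27,8,0),(0,18,0,0),(0,32,0,0),(1,12,8,0),(0,188,3,0),(0,0,0,0),(1,28,8,0),(0,12,0,0),(0,6,0,0),(0,26,0,0),(1,15,8,0)]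
def PA2 : List (ℕ × ℕ × ℕ × ℕ) := [(0,182,3,0),(1,25,8,0),(0,66,0,0),(1,18,8,0),(0,76,0,0),(0,78,0,0),(1,39,8,0)]
def PA3 : List (ℕ × ℕ × ℕ × ℕ) := [(0,80,0,0),(0,60,0,0),(1,21,8,0)]
def PA4 : List (ℕ × ℕ × ℕ × ℕ) := [(0,82,0,0),(1,41,8,0),(0,72,0,0),(1,36,8,0)]
def PA5 : List (ℕ × ℕ × ℕ × ℕ) := [(0,74,0,0),(1,38,8,0),(0,14,0,0),(0,68,0,0),(1,40,8,0),(0,2,0,0),(1,19,8,0),(0,34,0,0),(0,190,3,0),(1,29,8,0),(0,20,0,0),(1,13,8,0),(0,62,0,0),(1,37,8,0),(0,8,0,0),(1,22,8,0),(0,28,0,0),(1,16,8,0),(0,184,3,0),(1,26,8,0)]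
theorem PA_split : PA = PA1 ++ (PA2 ++ (PA3 ++ (PA4 ++ PA5))) := by rfl

end Pool.Agent.Helper231.LC
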