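import Pool.Agent.Helper231.LC.Data

set_option autoImplicit false
set_option maxRecDepth 1000000

namespace Pool.Agent.Helper231.LC
open Sd

def PB1 : List (ℕ × ℕ × ℕ × ℕ) := [(0,128,0,0),(0,138,0,0),(0,136,0,0),(1,62,8,0),(0,120,0,0),(0,140,0,0),(0,142,0,0),(1,64,8,0),(0,130,0,0),(1,63,8,0),(0,126,0,0),(0,132,0,0),(0,134,0,0),(1,61,8,0),(0,122,0,0),(1,65,8,0),(0,124,0,0),(1,60,8,0),(0,114,0,0),(0,100,0,0),(1,47,8,0),(0,154,0,0),(0,88,0,0),(1,50,8,0),(0,108,0,0),(0,192,3,0),(1,54,8,0),(0,94,0,0),(0,106,0,0),(1,44,8,0),(0,148,0,0),(1,53,8,0),(0,198,3,0),(1,57,8,0),(0,102,0,0),(0,116,0,0),(1,42,8,0),(0,200,3,0),(0,84,0,0),(1,58,8,0),(0,96,0,0),(0,90,0,0),(0,110,0,0),(1,45,8,0)]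
def PB2 : List (ℕ × ℕ × ℕ × ℕ) := [(0,194,3,0),(1,55,8,0),(0,150,0,0),(1,48,8,0),(0,160,0,0),(0,162,0,0),(1,69,8,0)]
def PB3 : List (ℕ × ℕ × ℕ × ℕ) := [(0,164,0,0),(0,144,0,0),(1,51,8,0)]
def PB4 : List (ℕ × ℕ × ℕ × ℕ) := [(0,166,0,0),(1,71,8,0),(0,156,0,0),(1,66,8,0)]
def PB5 : List (ℕ × ℕ × ℕ × ℕ) := [(0,158,0,0),(1,68,8,0),(0,98,0,0),(0,152,0,0),(1,70,8,0),(0,86,0,0),(1,49,8,0),(0,118,0,0),(0,202,3,0),(1,59,8,0),(0,104,0,0),(1,43,8,0),(0,146,0,0),(1,67,8,0),(0,92,0,0),(1,52,8,0),(0,112,0,0),(1,46,8,0),(0,196,3,0),(1,56,8,0)]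
theorem PB_split : PB = PB1 ++ (PB2 ++ (PB3 ++ (PB4 ++ PB5))) := by rfl

end Pool.Agent.Helper231.LC
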