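import Pool.Agent.Helper231.LC.ProgA
import Pool.Agent.Helper231.LC.TabA1

set_option autoImplicit false
set_option maxRecDepth 1000000

namespace Pool.Agent.Helper231.LC
open Sd

theorem runA1 : run 28 (mkI PA1) [(cA0, 0)] = TA1 := by decide +kernel

end Pool.Agent.Helper231.LC
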